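import Mathlib
import Pool.Agent.Erdos456.Tot
import Pool.Agent.Erdos456.Mertens

set_option autoImplicit false

/-! Sixth moments of `n / φ(n)` on arithmetic progressions, uniformly in the progression. -/

namespace Pool.Agent.W218.HF

open Finset Pool.Agent.Erdos456 Pool.Agent.Erdos456.Mert

lemma GG_pos {n : ℕ} (hn : 0 < n) : 0 < GG n := lt_of_lt_of_le one_pos (one_le_GG hn)

lemma card_congr_le {X d : ℕ} (S : Finset ℕ) (hS : S ⊆ Icc 1 X)
    (h : ∀ s ∈ S, ∀ t ∈ S, s ≡ t [MOD d]) : (S.card : ℝ) ≤ (X : ℝ) / d + 1 := by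
  have h1 : S.card ≤ (range (X / d + 1)).card := by
    apply card_le_card_of_injOn (fun s => s / d)
    · intro s hs
      have h2 := mem_Icc.1 (hS hs)
      simp only [coe_range, Set.mem_Iio]
      exact Nat.lt_succ_of_le (Nat.div_le_div_right h2.2)
    · intro s hs t ht hst
      have h3 : s % d = t % d := h s hs t ht
      have h4 : s / d = t / d := hst
      rw [← Nat.div_add_mod s d, ← Nat.div_add_mod t d, h3, h4]
  rw [card_range] at h1
  have h2 : ((X / d : ℕ) : ℝ) ≤ (X : ℝ) / d := Nat.cast_div_le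
  calc (S.card : ℝ) ≤ ((X / d + 1 : ℕ) : ℝ) := by exact_mod_cast h1
    _ = ((X / d : ℕ) : ℝ) + 1 := by push_cast; ring
    _ ≤ _ := by linarith

/-- the part of `n / φ(n)` from the primes above `X` is bounded when `n ≤ exp (4 X)` -/
lemma GG_le_small {m X : ℕ} (hm : 0 < m) (hX : 1 ≤ X) (hmX : (m : ℝ) ≤ Real.exp (4 * X)) :
    GG m ≤ Real.exp 6 * ∏ p ∈ (PP X).filter (fun p => p ∣ m), (1 - (p : ℝ)⁻¹)⁻¹ := by
  classical
  have hXr : (1 : ℝ) ≤ X := by exact_mod_cast hX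
  rw [GG_eq_prod hm]
  have hsplit := Finset.prod_filter_mul_prod_filter_not m.primeFactors (fun p => X < p)
    (fun p : ℕ => (1 - (p : ℝ)⁻¹)⁻¹)
  rw [← hsplit]
  have hP : m.primeFactors.filter (fun p => ¬ X < p) = (PP X).filter (fun p => p ∣ m) := by
    ext p
    simp only [mem_filter, Nat.mem_primeFactors, PP, mem_Icc, not_lt]
    constructor
    · rintro ⟨⟨h1, h2, _⟩, h3⟩
      exact ⟨⟨⟨h1.one_le, h3⟩, h1⟩, h2⟩
    · rintro ⟨⟨⟨_, h2⟩, h3⟩, h4⟩
      exact ⟨⟨h3, h4, hm.ne'⟩, h2⟩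
  rw [hP]
  apply mul_le_mul_of_nonneg_right _ (prod_nonneg fun p hp => by
    rw [mem_filter, mem_filter] at hp
    exact zero_le_one.trans (factor_ge_one hp.1.2))
  set Q := m.primeFactors.filter (fun p => X < p) with hQ
  -- number of large primes
  have h2Q : (2 : ℝ) ^ Q.card ≤ Real.exp (4 * X) := by
    have h1 : ∏ p ∈ Q, p ∣ m := (Finset.prod_dvd_prod_of_subset _ _ _ (filter_subset _ _)).trans
      (Nat.prod_primeFactors_dvd m)
    have h2 : ∏ p ∈ Q, p ≤ m := Nat.le_of_dvd hm h1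
    have h3 : 2 ^ Q.card ≤ ∏ p ∈ Q, p := by
      rw [← Finset.prod_const]
      apply Finset.prod_le_prod' 
      intro p hp
      rw [hQ, mem_filter, Nat.mem_primeFactors] at hp
      exact hp.1.1.two_le
    have h4 : ((2 ^ Q.card : ℕ) : ℝ) ≤ m := by exact_mod_cast h3.trans h2
    push_cast at h4
    exact h4.trans hmX
  have hcard : (Q.card : ℝ) ≤ 6 * X := by
    have h1 := Real.log_le_log (by positivity) h2Q
    rw [Real.log_pow, Real.log_exp] at h1
    have h2 := Real.log_two_gt_d9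
    have h3 : (Q.card : ℝ) * (2 / 3) ≤ Q.card * Real.log 2 :=
      mul_le_mul_of_nonneg_left (by linarith) (by positivity)
    linarith
  have hfac : ∀ p ∈ Q, (1 - (p : ℝ)⁻¹)⁻¹ ≤ Real.exp (1 / X) := by
    intro p hp
    rw [hQ, mem_filter, Nat.mem_primeFactors] at hp
    have hp1 : (X : ℝ) + 1 ≤ p := by exact_mod_cast hp.2
    have hp0 : (0 : ℝ) < p := by linarith
    have h1 : (1 - (p : ℝ)⁻¹)⁻¹ = 1 + 1 / ((p : ℝ) - 1) := by
      have : (p : ℝ) - 1 ≠ 0 := by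
        have : (0 : ℝ) < (p : ℝ) - 1 := by linarith
        exact this.ne'
      have h2 : 1 - (p : ℝ)⁻¹ = ((p : ℝ) - 1) / p := by field_simp
      rw [h2, inv_div]
      field_simp
      ring
    rw [h1]
    have h2 : 1 / ((p : ℝ) - 1) ≤ 1 / X := one_div_le_one_div_of_le (by linarith) (by linarith)
    have h3 := Real.add_one_le_exp (1 / (X : ℝ))
    linarith
  calc ∏ p ∈ Q, (1 - (p : ℝ)⁻¹)⁻¹ ≤ ∏ p ∈ Q, Real.exp (1 / X) := by
        apply prod_le_prod _ hfac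
        intro p hp
        rw [hQ, mem_filter, Nat.mem_primeFactors] at hp
        exact zero_le_one.trans (factor_ge_one hp.1.1)
    _ = Real.exp (Q.card * (1 / X)) := by
        rw [prod_const, ← Real.exp_nat_mul]
    _ ≤ Real.exp 6 := by
        apply Real.exp_le_exp.2
        rw [mul_one_div, div_le_iff₀ (by linarith)]
        linarith

lemma six_factor {p : ℕ} (hp : p.Prime) : ((1 - (p : ℝ)⁻¹)⁻¹) ^ 6 ≤ 1 + 126 / (p : ℝ) := by
  have hp2 : (2 : ℝ) ≤ p := by exact_mod_cast hp.two_le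
  have h1 : (1 - (p : ℝ)⁻¹)⁻¹ = 1 + 1 / ((p : ℝ) - 1) := by
    have : (p : ℝ) - 1 ≠ 0 := by
      have : (0 : ℝ) < (p : ℝ) - 1 := by linarith
      exact this.ne'
    have h2 : 1 - (p : ℝ)⁻¹ = ((p : ℝ) - 1) / p := by field_simp
    rw [h2, inv_div]
    field_simp
    ring
  rw [h1]
  set u : ℝ := 1 / ((p : ℝ) - 1) with hu
  have hu0 : 0 ≤ u := by
    rw [hu]; exact one_div_nonneg.2 (by linarith)
  have hu1 : u ≤ 1 := by
    rw [hu, div_le_one (by linarith)]; linarith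
  have hu2 : u ≤ 2 / p := by
    rw [hu, div_le_div_iff₀ (by linarith) (by linarith)]
    linarith
  have h3 : (1 + u) ^ 6 ≤ 1 + 63 * u := by
    have e : (1 + u) ^ 6 = 1 + u * (6 + 15 * u + 20 * u ^ 2 + 15 * u ^ 3 + 6 * u ^ 4 + u ^ 5) := by
      ring
    rw [e]
    have a2 : u ^ 2 ≤ 1 := pow_le_one₀ hu0 hu1
    have a3 : u ^ 3 ≤ 1 := pow_le_one₀ hu0 hu1
    have a4 : u ^ 4 ≤ 1 := pow_le_one₀ hu0 hu1
    have a5 : u ^ 5 ≤ 1 := pow_le_one₀ hu0 hu1
    have : u * (6 + 15 * u + 20 * u ^ 2 + 15 * u ^ 3 + 6 * u ^ 4 + u ^ 5) ≤ u * 63 :=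
      mul_le_mul_of_nonneg_left (by linarith) hu0
    linarith
  have h4 : 63 * u ≤ 126 / p := by
    have : (126 : ℝ) / p = 63 * (2 / p) := by ring
    rw [this]
    exact mul_le_mul_of_nonneg_left hu2 (by norm_num)
  linarith

lemma prod_exp_le (S : Finset ℕ) (f : ℕ → ℝ) (hf : ∀ p ∈ S, 0 ≤ f p) :
    ∏ p ∈ S, (1 + f p) ≤ Real.exp (∑ p ∈ S, f p) := by
  rw [Real.exp_sum]
  apply prod_le_prod
  · intro p hp; have := hf p hp; linarith
  · intro p hp; have := Real.add_one_le_exp (f p); linarith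

lemma sum_inv_sq_PP (X : ℕ) : ∑ p ∈ PP X, 126 / (p : ℝ) ^ 2 ≤ 252 := by
  have h1 : ∀ N : ℕ, 1 ≤ N → ∑ n ∈ Icc 1 N, 1 / (n : ℝ) ^ 2 ≤ 2 - 1 / (N : ℝ) := by
    intro N hN
    induction N, hN using Nat.le_induction with
    | base => simp; norm_num
    | succ N hN ih =>
      rw [sum_Icc_succ_top (by omega)]
      have hN0 : (0 : ℝ) < N := by exact_mod_cast hN
      have : 1 / ((N + 1 : ℕ) : ℝ) ^ 2 ≤ 1 / (N : ℝ) - 1 / ((N + 1 : ℕ) : ℝ) := by
        push_cast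
        rw [div_sub_div _ _ (by positivity) (by positivity),
          div_le_div_iff₀ (by positivity) (by positivity)]
        nlinarith
      linarith
  have h2 : ∑ n ∈ Icc 1 X, 1 / (n : ℝ) ^ 2 ≤ 2 := by
    rcases Nat.eq_zero_or_pos X with rfl | hX
    · simp
    · have := h1 X hX
      have h3 : (0 : ℝ) ≤ 1 / X := by positivity
      linarith
  calc ∑ p ∈ PP X, 126 / (p : ℝ) ^ 2 ≤ ∑ p ∈ Icc 1 X, 126 / (p : ℝ) ^ 2 :=
        sum_le_sum_of_subset_of_nonneg (filter_subset _ _) fun p _ _ => by positivity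
    _ = 126 * ∑ p ∈ Icc 1 X, 1 / (p : ℝ) ^ 2 := by
        rw [mul_sum]; apply sum_congr rfl; intro p _; ring
    _ ≤ 252 := by linarith

lemma prod_mertens : ∃ C : ℝ, 0 < C ∧ ∀ X : ℕ, 1 ≤ X →
    ∏ p ∈ PP X, (1 + 126 / (p : ℝ)) ≤ C * X := by
  obtain ⟨C, hC⟩ := mertens_inv
  refine ⟨Real.exp (126 * C) * (126 ^ 126) * 3, by positivity, ?_⟩
  intro X hX
  set N := max X 3 with hN
  have hN3 : 3 ≤ N := le_max_right _ _
  have hNr : (3 : ℝ) ≤ N := by exact_mod_cast hN3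
  have hNX : (N : ℝ) ≤ 3 * X := by
    have : N ≤ 3 * X := by omega
    exact_mod_cast this
  have h0 := hC N hN3
  have hl1 : 1 ≤ Real.log N := by
    rw [Real.le_log_iff_exp_le (by linarith)]
    have := Real.exp_one_lt_d9
    linarith
  have h1 : ∏ p ∈ PP X, (1 + 126 / (p : ℝ)) ≤ Real.exp (∑ p ∈ PP X, 126 / (p : ℝ)) :=
    prod_exp_le _ _ fun p _ => by positivity
  have h2 : ∑ p ∈ PP X, 126 / (p : ℝ) ≤ 126 * (Real.log (Real.log N) + C) := by
    have : ∑ p ∈ PP X, 126 / (p : ℝ) ≤ ∑ p ∈ PP N, 126 / (p : ℝ) := by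
      apply sum_le_sum_of_subset_of_nonneg _ fun p _ _ => by positivity
      intro p hp
      simp only [PP, mem_filter, mem_Icc] at hp ⊢
      exact ⟨⟨hp.1.1, hp.1.2.trans (le_max_left _ _)⟩, hp.2⟩
    have e : ∑ p ∈ PP N, 126 / (p : ℝ) = 126 * ∑ p ∈ PP N, (1 : ℝ) / p := by
      rw [mul_sum]; apply sum_congr rfl; intro p _; ring
    rw [e] at this
    have h3 := (abs_le.1 h0).2
    linarith
  have h3 : Real.exp (∑ p ∈ PP X, 126 / (p : ℝ)) ≤ Real.exp (126 * C) * (Real.log N) ^ 126 := by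
    calc Real.exp (∑ p ∈ PP X, 126 / (p : ℝ)) ≤ Real.exp (126 * (Real.log (Real.log N) + C)) :=
          Real.exp_le_exp.2 h2
      _ = Real.exp (126 * C) * Real.exp ((126 : ℕ) * Real.log (Real.log N)) := by
          rw [← Real.exp_add]; congr 1; push_cast; ring
      _ = _ := by rw [Real.exp_nat_mul, Real.exp_log (by linarith)]
  have h4 : (Real.log N) ^ 126 ≤ 126 ^ 126 * N := by
    have h5 := Real.log_le_rpow_div (x := (N : ℝ)) (by linarith) (show (0 : ℝ) < 1 / 126 by norm_num)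
    have h6 : Real.log N ≤ 126 * (N : ℝ) ^ (1 / 126 : ℝ) := by
      calc Real.log N ≤ (N : ℝ) ^ (1 / 126 : ℝ) / (1 / 126) := h5
        _ = _ := by ring
    calc (Real.log N) ^ 126 ≤ (126 * (N : ℝ) ^ (1 / 126 : ℝ)) ^ 126 :=
          pow_le_pow_left₀ (by linarith) h6 _
      _ = 126 ^ 126 * ((N : ℝ) ^ (1 / 126 : ℝ)) ^ 126 := by rw [mul_pow]
      _ = 126 ^ 126 * N := by
          rw [← Real.rpow_natCast ((N : ℝ) ^ (1 / 126 : ℝ)) 126, ← Real.rpow_mul (by linarith)]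
          norm_num
  calc ∏ p ∈ PP X, (1 + 126 / (p : ℝ)) ≤ Real.exp (126 * C) * (Real.log N) ^ 126 := h1.trans h3
    _ ≤ Real.exp (126 * C) * (126 ^ 126 * N) := by gcongr
    _ ≤ Real.exp (126 * C) * (126 ^ 126 * (3 * X)) := by gcongr
    _ = _ := by ring


/-- the number of `t ≤ X` with `α t - β` divisible by all primes of `S` -/
lemma count_dvd {X α : ℕ} {β : ℤ} (S : Finset ℕ) (hS : ∀ p ∈ S, p.Prime)
    (hg : ∀ p ∈ S, ¬ p ∣ Nat.gcd α β.natAbs) :
    ((((Icc 1 X).filter (fun t : ℕ => ∀ p ∈ S, p ∣ ((α : ℤ) * t - β).natAbs)).card : ℕ) : ℝ) ≤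
      (X : ℝ) * ∏ p ∈ S, (1 / (p : ℝ)) + 1 := by
  classical
  have h1 : (((Icc 1 X).filter (fun t : ℕ => ∀ p ∈ S, p ∣ ((α : ℤ) * t - β).natAbs)).card : ℝ) ≤
      (X : ℝ) / ((∏ p ∈ S, p : ℕ) : ℝ) + 1 := by
    apply card_congr_le _ (filter_subset _ _)
    intro s hs t ht
    rw [mem_filter] at hs ht
    rw [Nat.modEq_iff_dvd]
    have h2 : ∀ p ∈ S, (p : ℤ) ∣ (t : ℤ) - s := by
      intro p hp
      have hpp := hS p hp
      have h3 : (p : ℤ) ∣ (α : ℤ) * s - β := Int.natCast_dvd.2 (hs.2 p hp)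
      have h4 : (p : ℤ) ∣ (α : ℤ) * t - β := Int.natCast_dvd.2 (ht.2 p hp)
      have h5 : (p : ℤ) ∣ (α : ℤ) * (t - s) := by
        have := dvd_sub h4 h3
        have e : (α : ℤ) * t - β - ((α : ℤ) * s - β) = (α : ℤ) * (t - s) := by ring
        rwa [e] at this
      rcases (Nat.prime_iff_prime_int.1 hpp).dvd_or_dvd h5 with h6 | h6
      · exfalso
        have h7 : (p : ℤ) ∣ β := by
          have := dvd_sub (h6.mul_right s) h3
          have e : (α : ℤ) * s - ((α : ℤ) * s - β) = β := by ring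
          rwa [e] at this
        exact hg p hp (Nat.dvd_gcd (Int.natCast_dvd_natCast.1 h6) (Int.natCast_dvd.1 h7))
      · exact h6
    have h8 : ((∏ p ∈ S, p : ℕ) : ℤ) ∣ (t : ℤ) - s := by
      rw [Int.natCast_dvd]
      apply Finset.prod_primes_dvd
      · intro p hp; exact (hS p hp).prime
      · intro p hp; exact Int.natCast_dvd.1 (h2 p hp)
    exact h8
  have e : (X : ℝ) / ((∏ p ∈ S, p : ℕ) : ℝ) = (X : ℝ) * ∏ p ∈ S, (1 / (p : ℝ)) := by
    push_cast
    rw [div_eq_mul_inv, ← prod_inv_distrib]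
    congr 1
    apply prod_congr rfl
    intro p _
    rw [one_div]
  rwa [e] at h1

/-- the sixth moment on an arithmetic progression -/
theorem mom : ∃ C : ℝ, 0 < C ∧ ∀ (X α : ℕ) (β : ℤ), 1 ≤ X → 0 < α →
    (∀ t ∈ Icc 1 X, ((((α : ℤ) * t - β).natAbs : ℕ) : ℝ) ≤ Real.exp (4 * X)) →
    ∑ t ∈ Icc 1 X, (GG ((α : ℤ) * t - β).natAbs) ^ 6 ≤
      C * (GG (Nat.gcd α β.natAbs)) ^ 6 * X := by
  classical
  obtain ⟨C₁, hC₁, hM⟩ := prod_mertens
  refine ⟨Real.exp 6 ^ 6 * (Real.exp 252 + C₁), by positivity, ?_⟩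
  intro X α β hX hα hbd
  set g := Nat.gcd α β.natAbs with hg
  have hg0 : 0 < g := Nat.gcd_pos_of_pos_left _ hα
  have hXr : (1 : ℝ) ≤ X := by exact_mod_cast hX
  set W : Finset ℕ := (PP X).filter (fun p => ¬ p ∣ g) with hW
  have hWp : ∀ p ∈ W, p.Prime := fun p hp => by
    rw [hW, mem_filter, mem_filter] at hp; exact hp.1.2
  set w : Finset ℕ → ℝ := fun S => ∏ p ∈ S, (126 / (p : ℝ)) with hw
  have hw0 : ∀ S, 0 ≤ w S := fun S => prod_nonneg fun p _ => by positivity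
  -- pointwise bound
  have hpt : ∀ t ∈ Icc 1 X, (GG ((α : ℤ) * t - β).natAbs) ^ 6 ≤ Real.exp 6 ^ 6 * (GG g ^ 6 *
      ∑ S ∈ W.powerset, if (∀ p ∈ S, p ∣ ((α : ℤ) * t - β).natAbs) then w S else 0) := by
    intro t ht
    set m := ((α : ℤ) * t - β).natAbs with hm
    have hR0 : 0 ≤ ∑ S ∈ W.powerset, (if (∀ p ∈ S, p ∣ m) then w S else 0) :=
      sum_nonneg fun S _ => by split_ifs; exacts [hw0 S, le_rfl]
    rcases Nat.eq_zero_or_pos m with h0 | h0
    · rw [h0] at hR0 ⊢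
      rw [GG_zero]
      have := GG_nonneg g
      have : (0 : ℝ) ^ 6 = 0 := by norm_num
      rw [this]
      positivity
    have h1 := GG_le_small h0 hX (hbd t ht)
    set F := (PP X).filter (fun p => p ∣ m) with hF
    have hFp : ∀ p ∈ F, p.Prime := fun p hp => by
      rw [hF, mem_filter, mem_filter] at hp; exact hp.1.2
    have hsp := Finset.prod_filter_mul_prod_filter_not F (fun p => p ∣ g)
      (fun p : ℕ => (1 - (p : ℝ)⁻¹)⁻¹)
    have h2 : ∏ p ∈ F.filter (fun p => p ∣ g), (1 - (p : ℝ)⁻¹)⁻¹ ≤ GG g := by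
      rw [GG_eq_prod hg0]
      apply Finset.prod_le_prod_of_subset_of_one_le
      · intro p hp
        rw [mem_filter] at hp
        rw [Nat.mem_primeFactors]
        exact ⟨hFp p hp.1, hp.2, hg0.ne'⟩
      · intro p hp
        rw [mem_filter] at hp
        exact zero_le_one.trans (factor_ge_one (hFp p hp.1))
      · intro p hp _
        exact factor_ge_one (Nat.prime_of_mem_primeFactors hp)
    set V := F.filter (fun p => ¬ p ∣ g) with hV
    have hV0 : 0 ≤ ∏ p ∈ V, (1 - (p : ℝ)⁻¹)⁻¹ := prod_nonneg fun p hp => by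
      rw [hV, mem_filter] at hp
      exact zero_le_one.trans (factor_ge_one (hFp p hp.1))
    have h3 : GG m ≤ Real.exp 6 * (GG g * ∏ p ∈ V, (1 - (p : ℝ)⁻¹)⁻¹) := by
      refine h1.trans ?_
      rw [← hsp]
      gcongr
    have h4 : (∏ p ∈ V, (1 - (p : ℝ)⁻¹)⁻¹) ^ 6 ≤ ∏ p ∈ V, (1 + 126 / (p : ℝ)) := by
      rw [← prod_pow]
      apply prod_le_prod
      · intro p hp
        have : 0 ≤ (1 - (p : ℝ)⁻¹)⁻¹ := by
          rw [hV, mem_filter] at hp
          exact zero_le_one.trans (factor_ge_one (hFp p hp.1))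
        positivity
      · intro p hp
        rw [hV, mem_filter] at hp
        exact six_factor (hFp p hp.1)
    have h5 : ∏ p ∈ V, (1 + 126 / (p : ℝ)) =
        ∑ S ∈ W.powerset, if (∀ p ∈ S, p ∣ m) then w S else 0 := by
      rw [prod_one_add, ← sum_filter]
      apply sum_congr _ fun _ _ => rfl
      ext S
      simp only [mem_powerset, mem_filter, subset_iff, hV, hW, hF]
      constructor
      · intro h
        exact ⟨fun p hp => ⟨(h hp).1.1, (h hp).2⟩, fun p hp => (h hp).1.2⟩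
      · rintro ⟨h, h'⟩ p hp
        exact ⟨⟨(h hp).1, h' p hp⟩, (h hp).2⟩
    rw [← h5]
    calc GG m ^ 6 ≤ (Real.exp 6 * (GG g * ∏ p ∈ V, (1 - (p : ℝ)⁻¹)⁻¹)) ^ 6 :=
          pow_le_pow_left₀ (GG_nonneg m) h3 6
      _ = Real.exp 6 ^ 6 * (GG g ^ 6 * (∏ p ∈ V, (1 - (p : ℝ)⁻¹)⁻¹) ^ 6) := by ring
      _ ≤ _ := by
          have := GG_nonneg g
          gcongr
  refine (sum_le_sum hpt).trans ?_
  rw [← mul_sum, ← mul_sum, sum_comm]
  have hin : ∀ S ∈ W.powerset, ∑ t ∈ Icc 1 X,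
      (if (∀ p ∈ S, p ∣ ((α : ℤ) * t - β).natAbs) then w S else 0) ≤
      X * ∏ p ∈ S, (126 / (p : ℝ) ^ 2) + w S := by
    intro S hS
    rw [mem_powerset] at hS
    rw [← sum_filter, sum_const, nsmul_eq_mul]
    have h1 := count_dvd (X := X) (α := α) (β := β) S (fun p hp => hWp p (hS hp)) (fun p hp => by
      have := hS hp
      rw [hW, mem_filter] at this
      exact this.2)
    have h2 := mul_le_mul_of_nonneg_right h1 (hw0 S)
    refine h2.trans (le_of_eq ?_)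
    have e : (∏ p ∈ S, (1 / (p : ℝ))) * w S = ∏ p ∈ S, (126 / (p : ℝ) ^ 2) := by
      rw [hw, ← prod_mul_distrib]
      apply prod_congr rfl
      intro p _
      ring
    rw [add_mul, one_mul, mul_assoc, e]
  have hsum := sum_le_sum hin
  rw [sum_add_distrib, ← mul_sum] at hsum
  have e1 : ∑ S ∈ W.powerset, ∏ p ∈ S, (126 / (p : ℝ) ^ 2) = ∏ p ∈ W, (1 + 126 / (p : ℝ) ^ 2) :=
    (prod_one_add _).symm
  have e2 : ∑ S ∈ W.powerset, w S = ∏ p ∈ W, (1 + 126 / (p : ℝ)) := (prod_one_add _).symm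
  rw [e1, e2] at hsum
  have h1 : ∏ p ∈ W, (1 + 126 / (p : ℝ) ^ 2) ≤ Real.exp 252 := by
    refine (prod_exp_le W _ fun p _ => by positivity).trans (Real.exp_le_exp.2 ?_)
    refine le_trans ?_ (sum_inv_sq_PP X)
    exact sum_le_sum_of_subset_of_nonneg (filter_subset _ _) fun p _ _ => by positivity
  have h2 : ∏ p ∈ W, (1 + 126 / (p : ℝ)) ≤ C₁ * X := by
    refine le_trans ?_ (hM X hX)
    apply Finset.prod_le_prod_of_subset_of_one_le (filter_subset _ _)
    · intro p _; positivity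
    · intro p _ _
      have : (0 : ℝ) ≤ 126 / (p : ℝ) := by positivity
      linarith
  have hGg := GG_nonneg g
  calc Real.exp 6 ^ 6 * (GG g ^ 6 * ∑ S ∈ W.powerset, ∑ t ∈ Icc 1 X,
        (if (∀ p ∈ S, p ∣ ((α : ℤ) * t - β).natAbs) then w S else 0))
      ≤ Real.exp 6 ^ 6 * (GG g ^ 6 * (X * Real.exp 252 + C₁ * X)) := by
        gcongr
        exact hsum.trans (by gcongr)
    _ = _ := by ring

end Pool.Agent.W218.HF
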