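import Mathlib
import Pool.Agent.W218.HF.Mom
import Pool.Agent.H343R2.EH.Primes
import Pool.Agent.H343R2.EH.Psi
import Pool.Agent.H373R2.SH.PntB

set_option autoImplicit false

/-! First moment over the middle coefficient. -/

namespace Pool.Agent.W218.HF

open Finset Pool.Agent.Erdos456 Pool.Agent.Erdos456.Mert H343E

/-- Bombieri-Vinogradov with the fixed class `c` -/
theorem bv1 : ∃ K X0 : ℕ, ∀ X : ℕ, X0 ≤ X → ∀ D : ℕ, (D : ℝ) ≤ X / Real.log X ^ K →
    (D : ℝ) ^ 2 ≤ X / Real.log X ^ K → ∀ (c : ℤ) (S : Finset ℕ), S ⊆ Icc 1 D →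
    (∀ t ∈ S, Nat.Coprime t c.natAbs) →
    ∑ t ∈ S, |piAP X t (c % t).toNat - pi1 X / (Nat.totient t : ℝ)| ≤ X / Real.log X ^ 2 := by
  classical
  obtain ⟨K, X0, h⟩ := primes_of 2 (unsmoothed (2 + 2))
  refine ⟨K, X0, ?_⟩
  intro X hX D hD1 hD2 c S hS hc
  set L : ℕ → Finset ℕ := fun q => if 0 < q ∧ Nat.Coprime q c.natAbs then {(c % q).toNat} else ∅ with hL
  have hfam : Fam 1 L := by
    constructor
    · intro q a ha
      by_cases hq : 0 < q ∧ Nat.Coprime q c.natAbs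
      · rw [hL] at ha
        simp only [if_pos hq, mem_singleton] at ha
        subst ha
        have hqi : (0 : ℤ) < q := by exact_mod_cast hq.1
        have h0 := Int.emod_nonneg c hqi.ne'
        have h1 := Int.emod_lt_of_pos c hqi
        refine ⟨by omega, ?_⟩
        have h2 : IsCoprime c (q : ℤ) := by
          rw [Int.isCoprime_iff_gcd_eq_one]
          exact hq.2.symm
        have h3 : IsCoprime (c % (q : ℤ)) (q : ℤ) := by
          rw [Int.emod_def]
          have := h2.add_mul_right_left (-(c / q))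
          have e2 : c + -(c / q) * q = c - q * (c / q) := by ring
          rwa [e2] at this
        rw [Int.isCoprime_iff_gcd_eq_one] at h3
        have h4 : (((c % (q : ℤ)).toNat : ℕ) : ℤ) = c % (q : ℤ) := Int.toNat_of_nonneg h0
        rw [← h4] at h3
        exact h3
      · rw [hL] at ha
        simp only [if_neg hq] at ha
        exact absurd ha (notMem_empty _)
    · intro q
      by_cases hq : 0 < q ∧ Nat.Coprime q c.natAbs
      · rw [hL]; simp only [if_pos hq, card_singleton]; norm_num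
      · rw [hL]; simp only [if_neg hq, card_empty]; norm_num
  have h1 := h X hX 1 le_rfl D hD1 (by rw [one_mul]; exact hD2) L hfam
  rw [one_mul] at h1
  refine le_trans ?_ h1
  have h2 : ∑ t ∈ S, |piAP X t (c % t).toNat - pi1 X / (Nat.totient t : ℝ)| =
      ∑ t ∈ S, ∑ a ∈ L t, |piAP X t a - pi1 X / (Nat.totient t : ℝ)| := by
    apply sum_congr rfl
    intro t ht
    have h3 : 0 < t ∧ Nat.Coprime t c.natAbs := ⟨by
      have := mem_Icc.1 (hS ht); omega, hc t ht⟩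
    rw [hL]
    simp only [if_pos h3, sum_singleton]
  rw [h2]
  exact sum_le_sum_of_subset_of_nonneg hS fun t _ _ => sum_nonneg fun a _ => abs_nonneg _

lemma piAP_diff (X₁ X₂ t r : ℕ) (h : X₁ ≤ X₂) : piAP X₂ t r - piAP X₁ t r =
    ((((Ioc X₁ X₂).filter (fun p => p.Prime ∧ p ≡ r [MOD t])).card : ℕ) : ℝ) := by
  classical
  unfold piAP
  have h1 : (Icc 1 X₂).filter (fun p => p.Prime ∧ p ≡ r [MOD t]) =
      (Icc 1 X₁).filter (fun p => p.Prime ∧ p ≡ r [MOD t]) ∪
      (Ioc X₁ X₂).filter (fun p => p.Prime ∧ p ≡ r [MOD t]) := by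
    ext p
    simp only [mem_filter, mem_union, mem_Icc, mem_Ioc]
    constructor
    · rintro ⟨⟨h1, h2⟩, h3, h4⟩
      by_cases h5 : p ≤ X₁
      · exact Or.inl ⟨⟨h1, h5⟩, h3, h4⟩
      · exact Or.inr ⟨⟨by omega, h2⟩, h3, h4⟩
    · rintro (⟨⟨h1, h2⟩, h3, h4⟩ | ⟨⟨h1, h2⟩, h3, h4⟩)
      · exact ⟨⟨h1, by omega⟩, h3, h4⟩
      · exact ⟨⟨by omega, h2⟩, h3, h4⟩
  have h2 : Disjoint ((Icc 1 X₁).filter (fun p => p.Prime ∧ p ≡ r [MOD t]))
      ((Ioc X₁ X₂).filter (fun p => p.Prime ∧ p ≡ r [MOD t])) := by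
    rw [disjoint_left]
    intro p hp hp'
    rw [mem_filter, mem_Icc] at hp
    rw [mem_filter, mem_Ioc] at hp'
    omega
  rw [h1, card_union_of_disjoint h2]
  push_cast
  ring

lemma pi1_eq (X : ℕ) : pi1 X = (Nat.primeCounting X : ℝ) := by
  unfold pi1
  rw [Nat.primeCounting, Nat.primeCounting', Nat.count_eq_card_filter_range]
  congr 2
  ext p
  simp only [mem_filter, mem_Icc, mem_range]
  constructor
  · rintro ⟨⟨h1, h2⟩, h3⟩; exact ⟨by omega, h3⟩
  · rintro ⟨h1, h2⟩; exact ⟨⟨h2.one_le, by omega⟩, h2⟩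

/-- the primes `≡ c mod t` in the window give values of `b` -/
lemma to_b {a t b0 B X₁ X₂ : ℕ} {c : ℤ} (ht : 0 < t)
    (h1 : (t : ℤ) * (b0 + a * t) + c ≤ X₁) (h2 : (X₂ : ℤ) ≤ (t : ℤ) * (B + a * t) + c) :
    ((Ioc X₁ X₂).filter (fun p => p.Prime ∧ p ≡ (c % t).toNat [MOD t])).card ≤
      ((Ioc b0 B).filter (fun b : ℕ => ((a : ℤ) * t ^ 2 + b * t + c).toNat.Prime)).card := by
  classical
  have hti : (0 : ℤ) < t := by exact_mod_cast ht
  have key : ∀ p : ℕ, X₁ < p → p ≤ X₂ → p ≡ (c % t).toNat [MOD t] →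
      ∃ b : ℕ, b0 < b ∧ b ≤ B ∧ (p : ℤ) = (a : ℤ) * t ^ 2 + b * t + c := by
    intro p hp1 hp2 hp3
    have h0 := Int.emod_nonneg c hti.ne'
    have h3 : (((c % (t : ℤ)).toNat : ℕ) : ℤ) = c % (t : ℤ) := Int.toNat_of_nonneg h0
    have h4 : (t : ℤ) ∣ (((c % (t : ℤ)).toNat : ℕ) : ℤ) - p := (Nat.modEq_iff_dvd).1 hp3
    rw [h3] at h4
    have h5 : (t : ℤ) ∣ c - c % (t : ℤ) := Int.dvd_self_sub_emod
    have h6 : (t : ℤ) ∣ (p : ℤ) - c := by
      have := dvd_neg.2 (dvd_add h4 h5)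
      have e : -(c % (t : ℤ) - p + (c - c % (t : ℤ))) = (p : ℤ) - c := by ring
      rwa [e] at this
    obtain ⟨k, hk⟩ := h6
    have h7 : (b0 : ℤ) < k - a * t := by
      by_contra hcon
      push Not at hcon
      have : (t : ℤ) * k ≤ t * (b0 + a * t) := mul_le_mul_of_nonneg_left (by linarith) hti.le
      have h8 : (X₁ : ℤ) < p := by exact_mod_cast hp1
      linarith
    have h8 : k - a * t ≤ (B : ℤ) := by
      by_contra hcon
      push Not at hcon
      have : (t : ℤ) * (B + a * t) < t * k := mul_lt_mul_of_pos_left (by linarith) hti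
      have h9 : (p : ℤ) ≤ X₂ := by exact_mod_cast hp2
      linarith
    refine ⟨(k - a * t).toNat, ?_, ?_, ?_⟩
    · omega
    · omega
    · have h9 : (((k - a * t).toNat : ℕ) : ℤ) = k - a * t := Int.toNat_of_nonneg (by
        have : (0 : ℤ) ≤ b0 := by positivity
        linarith)
      rw [h9]
      linear_combination hk
  choose! g hg using key
  apply card_le_card_of_injOn g
  · intro p hp
    rw [mem_coe, mem_filter, mem_Ioc] at hp
    obtain ⟨h3, h4, h5⟩ := hg p hp.1.1 hp.1.2 hp.2.2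
    rw [mem_coe, mem_filter, mem_Ioc]
    refine ⟨⟨h3, h4⟩, ?_⟩
    rw [← h5, Int.toNat_natCast]
    exact hp.2.1
  · intro p hp q hq hpq
    rw [mem_coe, mem_filter, mem_Ioc] at hp hq
    have h3 := (hg p hp.1.1 hp.1.2 hp.2.2).2.2
    have h4 := (hg q hq.1.1 hq.1.2 hq.2.2).2.2
    rw [← hpq] at h4
    rw [← h4] at h3
    exact_mod_cast h3

end Pool.Agent.W218.HF
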