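import Mathlib
import Pool.Agent.W218.HF.Mom

set_option autoImplicit false

/-! Average over the middle coefficient of the sieved count. -/

namespace Pool.Agent.W218.HF

open Finset Pool.Agent.Erdos456 Pool.Agent.Erdos456.Mert

/-- `∏_{p ≤ z} (1 - 1/p)` -/
noncomputable def Wz (z : ℕ) : ℝ := ∏ p ∈ (Icc 1 z).filter Nat.Prime, (1 - 1 / (p : ℝ))

/-- `∏_{p ≤ z} p` -/
def Pz (z : ℕ) : ℕ := ∏ p ∈ (Icc 1 z).filter Nat.Prime, p

lemma one_sub_pos {p : ℕ} (hp : p.Prime) : 0 < 1 - 1 / (p : ℝ) := by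
  have h2 : (2 : ℝ) ≤ p := by exact_mod_cast hp.two_le
  have : 1 / (p : ℝ) ≤ 1 / 2 := one_div_le_one_div_of_le (by norm_num) h2
  linarith

lemma Wz_pos (z : ℕ) : 0 < Wz z := prod_pos fun p hp => one_sub_pos (mem_filter.1 hp).2

lemma count_unit (P t B : ℕ) (e : ℤ) (hP : 0 < P) (htP : Nat.Coprime t P) :
    ((Icc 1 B).filter (fun b : ℕ => Nat.Coprime ((t : ℤ) * b + e).natAbs P)).card ≤
      (B / P + 1) * Nat.totient P := by
  classical
  have hcard : ((range (B / P + 1)) ×ˢ ((range P).filter (fun r => Nat.Coprime P r))).card =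
      (B / P + 1) * Nat.totient P := by
    rw [card_product, card_range]
    rfl
  rw [← hcard]
  have hPi : (0 : ℤ) < P := by exact_mod_cast hP
  apply card_le_card_of_injOn (fun b : ℕ => (b / P, (((t : ℤ) * b + e) % (P : ℤ)).toNat))
  · intro b hb
    rw [mem_coe, mem_filter, mem_Icc] at hb
    rw [mem_coe, mem_product, mem_range, mem_filter, mem_range]
    have h0 := Int.emod_nonneg ((t : ℤ) * b + e) hPi.ne'
    have h1 := Int.emod_lt_of_pos ((t : ℤ) * b + e) hPi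
    refine ⟨Nat.lt_succ_of_le (Nat.div_le_div_right hb.1.2), ?_, ?_⟩
    · show (((t : ℤ) * b + e) % (P : ℤ)).toNat < P
      omega
    show Nat.Coprime P (((t : ℤ) * b + e) % (P : ℤ)).toNat
    have h2 : IsCoprime ((t : ℤ) * b + e) (P : ℤ) := by
      rw [Int.isCoprime_iff_gcd_eq_one]
      exact hb.2
    have h3 : IsCoprime (((t : ℤ) * b + e) % (P : ℤ)) (P : ℤ) := by
      rw [Int.emod_def]
      have := h2.add_mul_right_left (-(((t : ℤ) * b + e) / P))
      have e2 : (t : ℤ) * b + e + -(((t : ℤ) * b + e) / P) * P =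
        (t : ℤ) * b + e - P * (((t : ℤ) * b + e) / P) := by ring
      rwa [e2] at this
    rw [Int.isCoprime_iff_gcd_eq_one] at h3
    rw [Nat.coprime_comm]
    have h4 : ((((t : ℤ) * b + e) % (P : ℤ)).toNat : ℤ) = ((t : ℤ) * b + e) % (P : ℤ) :=
      Int.toNat_of_nonneg h0
    rw [← h4] at h3
    exact h3
  · intro b hb b' hb' h
    rw [mem_coe, mem_filter, mem_Icc] at hb hb'
    simp only [Prod.mk.injEq] at h
    obtain ⟨h1, h2⟩ := h
    have h0 := Int.emod_nonneg ((t : ℤ) * b + e) hPi.ne'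
    have h0' := Int.emod_nonneg ((t : ℤ) * b' + e) hPi.ne'
    have h3 : ((t : ℤ) * b + e) % (P : ℤ) = ((t : ℤ) * b' + e) % (P : ℤ) := by omega
    have h4 : (P : ℤ) ∣ ((t : ℤ) * b' + e) - ((t : ℤ) * b + e) := Int.ModEq.dvd h3
    have e4 : ((t : ℤ) * b' + e) - ((t : ℤ) * b + e) = t * ((b' : ℤ) - b) := by ring
    rw [e4] at h4
    have h5 : IsCoprime (P : ℤ) (t : ℤ) := by
      rw [Int.isCoprime_iff_gcd_eq_one]
      exact htP.symm
    have h6 : (P : ℤ) ∣ (b' : ℤ) - b := h5.dvd_of_dvd_mul_left h4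
    have h7 : b ≡ b' [MOD P] := (Nat.modEq_iff_dvd).2 h6
    have h8 : b % P = b' % P := h7
    rw [← Nat.div_add_mod b P, ← Nat.div_add_mod b' P, h1, h8]

/-- average of the sieved indicator over the middle coefficient -/
theorem sieve_avg (a t B z : ℕ) (c : ℤ) (ht : 0 < t) :
    ((((Icc 1 B).filter (fun b : ℕ => ∀ p ≤ z, p.Prime →
      ¬ ((p : ℤ) ∣ (a : ℤ) * t ^ 2 + b * t + c))).card : ℕ) : ℝ) / Wz z ≤ (B + Pz z) * GG t := by
  classical
  set P2 : ℕ := ∏ p ∈ (PP z).filter (fun p => ¬ p ∣ t), p with hP2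
  have hprime : ∀ p ∈ (PP z).filter (fun p => ¬ p ∣ t), p.Prime := fun p hp => by
    rw [mem_filter, mem_filter] at hp; exact hp.1.2
  have hP0 : 0 < P2 := prod_pos fun p hp => (hprime p hp).pos
  have hcop : Nat.Coprime t P2 := by
    rw [hP2]
    apply Nat.Coprime.prod_right
    intro p hp
    rw [mem_filter] at hp
    exact (((hprime p (mem_filter.2 hp)).coprime_iff_not_dvd).2 hp.2).symm
  have h1 := count_unit P2 t B ((a : ℤ) * t ^ 2 + c) hP0 hcop
  have hsub : (Icc 1 B).filter (fun b : ℕ => ∀ p ≤ z, p.Prime →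
      ¬ ((p : ℤ) ∣ (a : ℤ) * t ^ 2 + b * t + c)) ⊆
      (Icc 1 B).filter (fun b : ℕ => Nat.Coprime ((t : ℤ) * b + ((a : ℤ) * t ^ 2 + c)).natAbs P2) := by
    intro b hb
    rw [mem_filter] at hb ⊢
    refine ⟨hb.1, ?_⟩
    rw [hP2]
    apply Nat.Coprime.prod_right
    intro p hp
    have hpp := hprime p hp
    rw [mem_filter, mem_filter, mem_Icc] at hp
    apply Nat.Coprime.symm
    rw [hpp.coprime_iff_not_dvd]
    intro h
    apply hb.2 p hp.1.1.2 hpp
    have h2 : (p : ℤ) ∣ (t : ℤ) * b + ((a : ℤ) * t ^ 2 + c) := Int.natCast_dvd.2 h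
    have e : (a : ℤ) * t ^ 2 + b * t + c = (t : ℤ) * b + ((a : ℤ) * t ^ 2 + c) := by ring
    rw [e]; exact h2
  have h2 : ((((Icc 1 B).filter (fun b : ℕ => ∀ p ≤ z, p.Prime →
      ¬ ((p : ℤ) ∣ (a : ℤ) * t ^ 2 + b * t + c))).card : ℕ) : ℝ) ≤
      (((B / P2 + 1) * Nat.totient P2 : ℕ) : ℝ) := by
    exact_mod_cast (card_le_card hsub).trans h1
  -- totient of P2
  have hsq : ∀ s : Finset ℕ, (∀ p ∈ s, p.Prime) → (∏ p ∈ s, p).primeFactors = s := fun s hs =>
    Nat.primeFactors_prod hs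
  have h3 : (Nat.totient P2 : ℝ) = P2 * ∏ p ∈ (PP z).filter (fun p => ¬ p ∣ t), (1 - 1 / (p : ℝ)) := by
    have h := Nat.totient_eq_mul_prod_factors P2
    have h' : (Nat.totient P2 : ℝ) = P2 * ∏ p ∈ P2.primeFactors, (1 - (p : ℝ)⁻¹) := by
      have := congrArg (fun x : ℚ => (x : ℝ)) h
      push_cast at this
      exact this
    rw [h', hP2, hsq _ hprime]
    congr 1
    apply prod_congr rfl
    intro p _
    rw [one_div]
  have hW := Finset.prod_filter_mul_prod_filter_not (PP z) (fun p => p ∣ t)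
    (fun p : ℕ => (1 - 1 / (p : ℝ)))
  set W1 : ℝ := ∏ p ∈ (PP z).filter (fun p => p ∣ t), (1 - 1 / (p : ℝ)) with hW1
  set W2 : ℝ := ∏ p ∈ (PP z).filter (fun p => ¬ p ∣ t), (1 - 1 / (p : ℝ)) with hW2
  have hW10 : 0 < W1 := prod_pos fun p hp => by
    rw [mem_filter, mem_filter] at hp; exact one_sub_pos hp.1.2
  have hW20 : 0 < W2 := prod_pos fun p hp => one_sub_pos (hprime p hp)
  have hWz : Wz z = W1 * W2 := hW.symm
  have hP2le : P2 ≤ Pz z := by
    unfold Pz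
    rw [hP2]
    apply Nat.le_of_dvd
    · exact prod_pos fun p hp => (mem_filter.1 hp).2.pos
    · exact Finset.prod_dvd_prod_of_subset _ _ _ (filter_subset _ _)
  have hPr : (0 : ℝ) < P2 := by exact_mod_cast hP0
  have h4 : (((B / P2 + 1) * Nat.totient P2 : ℕ) : ℝ) ≤ (B + Pz z) * W2 := by
    push_cast
    rw [h3]
    have h5 : ((B / P2 : ℕ) : ℝ) ≤ (B : ℝ) / P2 := Nat.cast_div_le
    have h6 : (P2 : ℝ) ≤ Pz z := by exact_mod_cast hP2le
    calc (((B / P2 : ℕ) : ℝ) + 1) * (P2 * W2) ≤ ((B : ℝ) / P2 + 1) * (P2 * W2) := by gcongr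
      _ = (B + P2) * W2 := by field_simp
      _ ≤ (B + Pz z) * W2 := by gcongr
  have h7 : W1⁻¹ ≤ GG t := by
    rw [GG_eq_prod ht, hW1, ← prod_inv_distrib]
    have e : ∏ p ∈ (PP z).filter (fun p => p ∣ t), (1 - 1 / (p : ℝ))⁻¹ =
        ∏ p ∈ (PP z).filter (fun p => p ∣ t), (1 - (p : ℝ)⁻¹)⁻¹ := by
      apply prod_congr rfl
      intro p _
      rw [one_div]
    rw [e]
    apply Finset.prod_le_prod_of_subset_of_one_le
    · intro p hp
      rw [mem_filter, mem_filter] at hp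
      rw [Nat.mem_primeFactors]
      exact ⟨hp.1.2, hp.2, ht.ne'⟩
    · intro p hp
      rw [mem_filter, mem_filter] at hp
      exact zero_le_one.trans (factor_ge_one hp.1.2)
    · intro p hp _
      exact factor_ge_one (Nat.prime_of_mem_primeFactors hp)
  calc _ ≤ ((B + Pz z) * W2) / (W1 * W2) := by
        rw [hWz]
        exact div_le_div_of_nonneg_right (h2.trans h4) (by positivity)
    _ = (B + Pz z) * W1⁻¹ := by
        rw [mul_div_mul_right _ _ hW20.ne', div_eq_mul_inv]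
    _ ≤ (B + Pz z) * GG t := by
        gcongr

end Pool.Agent.W218.HF
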