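import Mathlib
import Pool.Agent.W218.HF.Mom
import Pool.Agent.Erdos456.Iface
import Pool.Agent.W38.PRb

set_option autoImplicit false

/-! Second moment over the middle coefficient. -/

namespace Pool.Agent.W218.HF

open Finset Pool.Agent.Erdos456 Pool.Agent.Erdos456.Mert

lemma GG_sum6 : ∃ C : ℝ, 0 < C ∧ ∀ N : ℕ, ∑ n ∈ Icc 1 N, GG n ^ 6 ≤ C * N := by
  obtain ⟨C, hC⟩ := totRatio_moment
  refine ⟨max C 1, by positivity, fun N => ?_⟩
  have h := hC N
  have h2 : C * (N : ℝ) ≤ max C 1 * N := mul_le_mul_of_nonneg_right (le_max_left _ _) (by positivity)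
  exact h.trans h2

lemma GG_le_six {n : ℕ} (hn : 0 < n) : GG n ≤ GG n ^ 6 := by
  have h := one_le_GG hn
  exact le_self_pow₀ h (by norm_num)

/-- number of primes in a shifted progression -/
lemma one_form {t e N : ℕ} (ht : 1 ≤ t) (hN : 2 ≤ N) :
    ((((Icc 1 N).filter (fun n => (t * n + e).Prime)).card : ℕ) : ℝ) ≤
      20 * GG t * (N / Real.log N) := by
  have h := Pool.Agent.W38.PR.bt_unif (a := e + t) (q := t) (N := N) ht hN
  refine le_trans ?_ h
  have : ((Icc 1 N).filter (fun n => (t * n + e).Prime)).card ≤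
      ((range N).filter (fun k => (e + t + k * t).Prime)).card := by
    apply card_le_card_of_injOn (fun n => n - 1)
    · intro n hn
      rw [mem_coe, mem_filter, mem_Icc] at hn
      rw [mem_coe, mem_filter, mem_range]
      refine ⟨by show n - 1 < N; omega, ?_⟩
      show (e + t + (n - 1) * t).Prime
      have e1 : e + t + (n - 1) * t = t * n + e := by
        obtain ⟨k, rfl⟩ : ∃ k, n = k + 1 := ⟨n - 1, by omega⟩
        rw [Nat.add_sub_cancel]; ring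
      rw [e1]; exact hn.2
    · intro n hn m hm h
      rw [mem_coe, mem_filter, mem_Icc] at hn hm
      have h' : n - 1 = m - 1 := h
      omega
  exact_mod_cast this

theorem second (δ : ℝ) (hδ : 0 < δ) : ∃ C : ℝ, 0 < C ∧ ∀ (B b0 x a : ℕ) (c : ℤ) (T : Finset ℕ),
    4 ≤ B → 2 * b0 ≤ B → Real.log B ≤ x → a * x ≤ B → 1 ≤ a → c ≠ 0 → c.natAbs ≤ B →
    δ * c.natAbs ≤ Nat.totient c.natAbs → T ⊆ Icc 1 x →
    (∀ t ∈ T, Nat.Coprime t c.natAbs ∧ 1 < t ∧ 0 ≤ (t : ℤ) * b0 + a * t ^ 2 + c) →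
    ∑ b ∈ Ioc b0 B, ((((T.filter (fun t : ℕ => ((a : ℤ) * t ^ 2 + b * t + c).toNat.Prime)).card :
      ℕ)) : ℝ) ^ 2 ≤ C * (x ^ 2 * (B / Real.log B ^ 2)) := by
  classical
  obtain ⟨C₁, hC₁, h6⟩ := GG_sum6
  obtain ⟨C₂, hC₂, hmom⟩ := mom
  obtain ⟨C₃, hC₃, hsv⟩ := sieve_two'
  refine ⟨40 * C₁ + C₃ * (C₁ ^ 2 + C₂ + C₂ * (1 / δ) ^ 6) * 4, by positivity, ?_⟩
  intro B b0 x a c T hB hb0 hlog hax ha hc hcB hδc hT hTc
  have hBr : (4 : ℝ) ≤ B := by exact_mod_cast hB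
  have hlB : 0 < Real.log B := Real.log_pos (by linarith)
  have hx0 : 0 < (x : ℝ) := lt_of_lt_of_le hlB hlog
  have hx1 : 1 ≤ x := by
    have : 0 < x := by exact_mod_cast hx0
    omega
  set N := B - b0 with hN
  have hN2 : 2 ≤ N := by omega
  have hNB : (N : ℝ) ≤ B := by
    have : N ≤ B := by omega
    exact_mod_cast this
  have hNhalf : (B : ℝ) ≤ 2 * N := by
    have : B ≤ 2 * N := by omega
    exact_mod_cast this
  have hN0 : (0 : ℝ) < N := by linarith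
  have hlN : Real.log B / 2 ≤ Real.log N := by
    have h1 : Real.log B ≤ Real.log ((N : ℝ) ^ 2) := by
      apply Real.log_le_log (by linarith)
      nlinarith
    rw [Real.log_pow] at h1
    push_cast at h1
    linarith
  have hlN0 : 0 < Real.log N := by linarith
  have hNl : (N : ℝ) / Real.log N ≤ 2 * (B / Real.log B) := by
    rw [div_le_iff₀ hlN0]
    have : (2 : ℝ) * (B / Real.log B) * Real.log N = (B / Real.log B) * (2 * Real.log N) := by ring
    rw [this]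
    have h2 : (B : ℝ) / Real.log B * (2 * Real.log N) ≥ (B / Real.log B) * Real.log B := by
      apply mul_le_mul_of_nonneg_left _ (by positivity)
      linarith
    rw [div_mul_cancel₀ _ hlB.ne'] at h2
    linarith
  have hNl2 : (N : ℝ) / Real.log N ^ 2 ≤ 4 * (B / Real.log B ^ 2) := by
    rw [div_le_iff₀ (by positivity)]
    have : (4 : ℝ) * (B / Real.log B ^ 2) * Real.log N ^ 2 =
      (B / Real.log B ^ 2) * (2 * Real.log N) ^ 2 := by ring
    rw [this]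
    have h2 : (B : ℝ) / Real.log B ^ 2 * (2 * Real.log N) ^ 2 ≥
        (B / Real.log B ^ 2) * Real.log B ^ 2 := by
      apply mul_le_mul_of_nonneg_left _ (by positivity)
      exact pow_le_pow_left₀ hlB.le (by linarith) 2
    rw [div_mul_cancel₀ _ (by positivity)] at h2
    linarith
  -- the shifts
  set e : ℕ → ℕ := fun t => ((t : ℤ) * b0 + a * t ^ 2 + c).toNat with he
  have heq : ∀ t ∈ T, ∀ n : ℕ, ((a : ℤ) * t ^ 2 + ((b0 + n : ℕ) : ℤ) * t + c).toNat = t * n + e t := by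
    intro t ht n
    have h0 := (hTc t ht).2.2
    have h1 : ((e t : ℕ) : ℤ) = (t : ℤ) * b0 + a * t ^ 2 + c := Int.toNat_of_nonneg h0
    have h2 : (a : ℤ) * t ^ 2 + ((b0 + n : ℕ) : ℤ) * t + c = ((t * n + e t : ℕ) : ℤ) := by
      push_cast
      rw [h1]; ring
    rw [h2, Int.toNat_natCast]
  -- rewrite the sum
  have hsum : ∑ b ∈ Ioc b0 B, ((((T.filter (fun t : ℕ =>
      ((a : ℤ) * t ^ 2 + b * t + c).toNat.Prime)).card : ℕ)) : ℝ) ^ 2 =
      ∑ t₁ ∈ T, ∑ t₂ ∈ T, ((((Icc 1 N).filter (fun n =>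
        (t₁ * n + e t₁).Prime ∧ (t₂ * n + e t₂).Prime)).card : ℕ) : ℝ) := by
    have h1 : Ioc b0 B = (Icc 1 N).image (fun n => b0 + n) := by
      ext b
      simp only [mem_Ioc, mem_image, mem_Icc]
      constructor
      · intro h; exact ⟨b - b0, by omega, by omega⟩
      · rintro ⟨n, hn, rfl⟩; omega
    rw [h1, sum_image (fun n _ m _ h => by
      have h' : b0 + n = b0 + m := h
      omega)]
    have h2 : ∀ n ∈ Icc 1 N, ((((T.filter (fun t : ℕ =>
        ((a : ℤ) * t ^ 2 + ((b0 + n : ℕ) : ℤ) * t + c).toNat.Prime)).card : ℕ)) : ℝ) ^ 2 =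
        ∑ t₁ ∈ T, ∑ t₂ ∈ T, (if (t₁ * n + e t₁).Prime ∧ (t₂ * n + e t₂).Prime then (1 : ℝ) else 0) := by
      intro n _
      have h3 : T.filter (fun t : ℕ => ((a : ℤ) * t ^ 2 + ((b0 + n : ℕ) : ℤ) * t + c).toNat.Prime) =
          T.filter (fun t => (t * n + e t).Prime) := by
        apply filter_congr
        intro t ht
        rw [heq t ht n]
      rw [h3, card_filter]
      push_cast
      rw [sq, sum_mul_sum]
      apply sum_congr rfl
      intro t₁ _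
      apply sum_congr rfl
      intro t₂ _
      by_cases h4 : (t₁ * n + e t₁).Prime <;> by_cases h5 : (t₂ * n + e t₂).Prime <;> simp [h4, h5]
    rw [sum_congr rfl h2, sum_comm]
    apply sum_congr rfl
    intro t₁ _
    rw [sum_comm]
    apply sum_congr rfl
    intro t₂ _
    rw [card_filter]
    push_cast
    rfl
  rw [hsum]
  -- bound for each pair
  have hGc : ∀ m : ℕ, GG (Nat.gcd m c.natAbs) ≤ 1 / δ := by
    intro m
    have hc0 : 0 < c.natAbs := Int.natAbs_pos.2 hc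
    have h1 := GG_mono_dvd hc0 (Nat.gcd_dvd_right m c.natAbs)
    refine h1.trans ?_
    unfold GG
    have h2 : (0 : ℝ) < Nat.totient c.natAbs := by exact_mod_cast Nat.totient_pos.2 hc0
    rw [div_le_div_iff₀ h2 hδ]
    linarith
  have hpair : ∀ t₁ ∈ T, ∀ t₂ ∈ T, ((((Icc 1 N).filter (fun n =>
        (t₁ * n + e t₁).Prime ∧ (t₂ * n + e t₂).Prime)).card : ℕ) : ℝ) ≤
      (if t₁ = t₂ then 40 * GG t₁ ^ 6 * (B / Real.log B) else 0) +
      C₃ * ((GG t₁ ^ 6 * GG t₂ ^ 6) + GG ((((1 : ℕ) : ℤ) * t₂ - (t₁ : ℤ)).natAbs) ^ 6 +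
        GG ((((a * t₁ : ℕ) : ℤ) * t₂ - c).natAbs) ^ 6) * (4 * (B / Real.log B ^ 2)) := by
    intro t₁ h₁ t₂ h₂
    have hp1 := hTc t₁ h₁
    have hp2 := hTc t₂ h₂
    have hoff0 : 0 ≤ C₃ * ((GG t₁ ^ 6 * GG t₂ ^ 6) + GG ((((1 : ℕ) : ℤ) * t₂ - (t₁ : ℤ)).natAbs) ^ 6 +
        GG ((((a * t₁ : ℕ) : ℤ) * t₂ - c).natAbs) ^ 6) * (4 * (B / Real.log B ^ 2)) := by
      have := GG_nonneg t₁
      have := GG_nonneg t₂
      have := GG_nonneg ((((1 : ℕ) : ℤ) * t₂ - (t₁ : ℤ)).natAbs)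
      have := GG_nonneg ((((a * t₁ : ℕ) : ℤ) * t₂ - c).natAbs)
      positivity
    by_cases h12 : t₁ = t₂
    · subst h12
      rw [if_pos rfl]
      have h3 := one_form (t := t₁) (e := e t₁) (N := N) (by omega) hN2
      have h4 : (((Icc 1 N).filter (fun n =>
        (t₁ * n + e t₁).Prime ∧ (t₁ * n + e t₁).Prime)).card : ℝ) =
        (((Icc 1 N).filter (fun n => (t₁ * n + e t₁).Prime)).card : ℝ) := by
        simp only [and_self]
      rw [h4]
      have h5 : 20 * GG t₁ * (N / Real.log N) ≤ 40 * GG t₁ ^ 6 * (B / Real.log B) := by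
        have h6' := GG_le_six (n := t₁) (by omega)
        have h7 := GG_nonneg t₁
        calc 20 * GG t₁ * (N / Real.log N) ≤ 20 * GG t₁ * (2 * (B / Real.log B)) := by gcongr
          _ ≤ 20 * GG t₁ ^ 6 * (2 * (B / Real.log B)) := by gcongr
          _ = _ := by ring
      linarith
    · rw [if_neg h12, zero_add]
      have hcop : ∀ t ∈ T, Nat.Coprime t (e t) := by
        intro t ht
        have h0 := (hTc t ht).2.2
        have h1 : ((e t : ℕ) : ℤ) = (t : ℤ) * b0 + a * t ^ 2 + c := Int.toNat_of_nonneg h0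
        have h2 : IsCoprime (t : ℤ) c := by
          rw [Int.isCoprime_iff_gcd_eq_one]
          exact (hTc t ht).1
        have h3 : IsCoprime (t : ℤ) ((e t : ℕ) : ℤ) := by
          rw [h1]
          have := h2.add_mul_left_right ((b0 : ℤ) + a * t)
          have e3 : c + t * ((b0 : ℤ) + a * t) = (t : ℤ) * b0 + a * t ^ 2 + c := by ring
          rwa [e3] at this
        exact Nat.isCoprime_iff_coprime.1 h3
      have hkey : ((t₁ * e t₂ : ℕ) : ℤ) - ((t₂ * e t₁ : ℕ) : ℤ) =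
          (((1 : ℕ) : ℤ) * t₂ - (t₁ : ℤ)) * (((a * t₁ : ℕ) : ℤ) * t₂ - c) := by
        have h1 : ((e t₁ : ℕ) : ℤ) = (t₁ : ℤ) * b0 + a * t₁ ^ 2 + c := Int.toNat_of_nonneg hp1.2.2
        have h2 : ((e t₂ : ℕ) : ℤ) = (t₂ : ℤ) * b0 + a * t₂ ^ 2 + c := Int.toNat_of_nonneg hp2.2.2
        push_cast
        rw [h1, h2]; ring
      have hne : t₁ * e t₂ ≠ t₂ * e t₁ := by
        intro h
        have h0 : ((t₁ * e t₂ : ℕ) : ℤ) - ((t₂ * e t₁ : ℕ) : ℤ) = 0 := by rw [h]; ring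
        rw [hkey] at h0
        rcases mul_eq_zero.1 h0 with h1 | h1
        · apply h12
          have : (t₂ : ℤ) = t₁ := by push_cast at h1; linarith
          exact_mod_cast this.symm
        · have h2 : (t₁ : ℤ) ∣ c := by
            refine ⟨(a : ℤ) * t₂, ?_⟩
            push_cast at h1
            linarith
          have h3 : t₁ ∣ c.natAbs := Int.natCast_dvd.1 h2
          have h4 := Nat.Coprime.eq_one_of_dvd hp1.1 h3
          omega
      have h3 := hsv t₁ (e t₁) t₂ (e t₂) N (by omega) (by omega) (hcop t₁ h₁) (hcop t₂ h₂) hne hN2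
      rw [hkey, Int.natAbs_mul] at h3
      set u := (((1 : ℕ) : ℤ) * t₂ - (t₁ : ℤ)).natAbs with hu
      set v := (((a * t₁ : ℕ) : ℤ) * t₂ - c).natAbs with hv
      have h4 : GG (t₁ * t₂ * (u * v)) ≤ GG t₁ * GG t₂ * (GG u) * GG v := by
        calc GG (t₁ * t₂ * (u * v)) ≤ GG (t₁ * t₂) * GG (u * v) := GG_mul_le _ _
          _ ≤ (GG t₁ * GG t₂) * (GG u * GG v) := by
              apply mul_le_mul (GG_mul_le _ _) (GG_mul_le _ _) (GG_nonneg _)
              exact mul_nonneg (GG_nonneg _) (GG_nonneg _)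
          _ = _ := by ring
      have h5 : GG (t₁ * t₂ * (u * v)) ^ 2 ≤ GG t₁ ^ 6 * GG t₂ ^ 6 + GG u ^ 6 + GG v ^ 6 := by
        have key : ∀ p q r : ℝ, 0 ≤ p → 0 ≤ q → 0 ≤ r → (p * q * r) ^ 2 ≤ p ^ 6 + q ^ 6 + r ^ 6 := by
          intro p q r hp hq hr
          have key : ∀ u v w : ℝ, 0 ≤ u → 0 ≤ v → 0 ≤ w → u * v * w ≤ u ^ 3 + v ^ 3 + w ^ 3 := by
            intro u v w hu hv hw
            set m := max u (max v w) with hm
            have h1 : u ≤ m := le_max_left _ _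
            have h2 : v ≤ m := (le_max_left _ _).trans (le_max_right _ _)
            have h3 : w ≤ m := (le_max_right _ _).trans (le_max_right _ _)
            have hm0 : 0 ≤ m := hu.trans h1
            have h4 : u * v * w ≤ m ^ 3 := by
              calc u * v * w ≤ m * m * m := by gcongr
                _ = m ^ 3 := by ring
            have hu3 : 0 ≤ u ^ 3 := by positivity
            have hv3 : 0 ≤ v ^ 3 := by positivity
            have hw3 : 0 ≤ w ^ 3 := by positivity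
            have h5 : m ^ 3 ≤ u ^ 3 + v ^ 3 + w ^ 3 := by
              rcases max_choice u (max v w) with h | h
              · rw [hm, h]; linarith
              · rcases max_choice v w with h' | h'
                · rw [hm, h, h']; linarith
                · rw [hm, h, h']; linarith
            exact h4.trans h5
          have := key (p ^ 2) (q ^ 2) (r ^ 2) (by positivity) (by positivity) (by positivity)
          calc (p * q * r) ^ 2 = p ^ 2 * q ^ 2 * r ^ 2 := by ring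
            _ ≤ (p ^ 2) ^ 3 + (q ^ 2) ^ 3 + (r ^ 2) ^ 3 := this
            _ = _ := by ring
        have h7 := key (GG t₁ * GG t₂) (GG u) (GG v) (mul_nonneg (GG_nonneg _) (GG_nonneg _))
          (GG_nonneg _) (GG_nonneg _)
        calc GG (t₁ * t₂ * (u * v)) ^ 2 ≤ (GG t₁ * GG t₂ * (GG u) * GG v) ^ 2 :=
              pow_le_pow_left₀ (GG_nonneg _) h4 2
          _ ≤ (GG t₁ * GG t₂) ^ 6 + GG u ^ 6 + GG v ^ 6 := h7
          _ = _ := by rw [mul_pow]
      have hG2 : 0 ≤ GG (t₁ * t₂ * (u * v)) ^ 2 := by positivity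
      calc _ ≤ C₃ * GG (t₁ * t₂ * (u * v)) ^ 2 * N / Real.log N ^ 2 := h3
        _ = C₃ * GG (t₁ * t₂ * (u * v)) ^ 2 * (N / Real.log N ^ 2) := by ring
        _ ≤ C₃ * (GG t₁ ^ 6 * GG t₂ ^ 6 + GG u ^ 6 + GG v ^ 6) * (4 * (B / Real.log B ^ 2)) := by
            gcongr
  -- exponential bounds
  have hBx : (B : ℝ) ≤ Real.exp x := by
    have := Real.exp_le_exp.2 hlog
    rwa [Real.exp_log (by linarith)] at this
  have hxe : (x : ℝ) + 1 ≤ Real.exp x := Real.add_one_le_exp _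
  have hexp4 : Real.exp x * Real.exp x ≤ Real.exp (4 * x) := by
    rw [← Real.exp_add]
    apply Real.exp_le_exp.2
    linarith
  have hm1 : ∀ t₁ ∈ Icc 1 x, ∑ t₂ ∈ Icc 1 x, GG ((((1 : ℕ) : ℤ) * t₂ - (t₁ : ℤ)).natAbs) ^ 6 ≤
      C₂ * x := by
    intro t₁ h₁
    rw [mem_Icc] at h₁
    have h := hmom x 1 (t₁ : ℤ) hx1 one_pos (by
      intro t ht
      rw [mem_Icc] at ht
      have h2 : (((1 : ℕ) : ℤ) * t - (t₁ : ℤ)).natAbs ≤ x := by
        push_cast; omega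
      have h3 : ((((((1 : ℕ) : ℤ) * t - (t₁ : ℤ)).natAbs : ℕ)) : ℝ) ≤ x := by exact_mod_cast h2
      have h4 : Real.exp x ≤ Real.exp (4 * x) := Real.exp_le_exp.2 (by linarith)
      linarith)
    have e1 : Nat.gcd 1 ((t₁ : ℤ).natAbs) = 1 := Nat.gcd_one_left _
    have e2 : GG 1 = 1 := by simp [GG]
    rw [e1, e2, one_pow, mul_one] at h
    exact h
  have hm2 : ∀ t₁ ∈ Icc 1 x, ∑ t₂ ∈ Icc 1 x, GG ((((a * t₁ : ℕ) : ℤ) * t₂ - c).natAbs) ^ 6 ≤
      C₂ * (1 / δ) ^ 6 * x := by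
    intro t₁ h₁
    rw [mem_Icc] at h₁
    have h := hmom x (a * t₁) c hx1 (Nat.mul_pos (by omega) (by omega)) (by
      intro t ht
      rw [mem_Icc] at ht
      have h2 : (((a * t₁ : ℕ) : ℤ) * t - c).natAbs ≤ B * x + B := by
        have h3 : (((a * t₁ : ℕ) : ℤ) * t - c).natAbs ≤ (((a * t₁ : ℕ) : ℤ) * t).natAbs + c.natAbs :=
          Int.natAbs_sub_le _ _
        have h4 : (((a * t₁ : ℕ) : ℤ) * t).natAbs = a * t₁ * t := by
          rw [Int.natAbs_mul]; rfl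
        rw [h4] at h3
        have h5 : a * t₁ * t ≤ B * x := by
          calc a * t₁ * t ≤ a * x * x := by gcongr <;> omega
            _ ≤ B * x := Nat.mul_le_mul_right _ hax
        omega
      have h3 : (((((a * t₁ : ℕ) : ℤ) * t - c).natAbs : ℕ) : ℝ) ≤ B * x + B := by exact_mod_cast h2
      calc (((((a * t₁ : ℕ) : ℤ) * t - c).natAbs : ℕ) : ℝ) ≤ B * (x + 1) := by linarith
        _ ≤ Real.exp x * Real.exp x := by gcongr
        _ ≤ Real.exp (4 * x) := hexp4)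
    refine h.trans ?_
    have := hGc (a * t₁)
    have := GG_nonneg (Nat.gcd (a * t₁) c.natAbs)
    gcongr
  have h6x := h6 x
  -- sum up
  have hL : 0 ≤ (4 : ℝ) * (B / Real.log B ^ 2) := by positivity
  have hall : ∑ t₁ ∈ T, ∑ t₂ ∈ T, ((((Icc 1 N).filter (fun n =>
        (t₁ * n + e t₁).Prime ∧ (t₂ * n + e t₂).Prime)).card : ℕ) : ℝ) ≤
      ∑ t₁ ∈ Icc 1 x, (40 * GG t₁ ^ 6 * (B / Real.log B)) +
      ∑ t₁ ∈ Icc 1 x, ∑ t₂ ∈ Icc 1 x,
        C₃ * ((GG t₁ ^ 6 * GG t₂ ^ 6) + GG ((((1 : ℕ) : ℤ) * t₂ - (t₁ : ℤ)).natAbs) ^ 6 +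
        GG ((((a * t₁ : ℕ) : ℤ) * t₂ - c).natAbs) ^ 6) * (4 * (B / Real.log B ^ 2)) := by
    have h1 := sum_le_sum fun t₁ h₁ => sum_le_sum fun t₂ h₂ => hpair t₁ h₁ t₂ h₂
    refine h1.trans ?_
    simp only [sum_add_distrib]
    apply add_le_add
    · have h2 : ∀ t₁ ∈ T, ∑ t₂ ∈ T, (if t₁ = t₂ then 40 * GG t₁ ^ 6 * (B / Real.log B) else 0) =
          40 * GG t₁ ^ 6 * (B / Real.log B) := by
        intro t₁ h₁
        rw [sum_ite_eq, if_pos h₁]
      rw [sum_congr rfl h2]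
      apply sum_le_sum_of_subset_of_nonneg hT
      intro t _ _
      have := GG_nonneg t
      positivity
    · have hnn : ∀ t₁ t₂ : ℕ, 0 ≤ C₃ * ((GG t₁ ^ 6 * GG t₂ ^ 6) +
          GG ((((1 : ℕ) : ℤ) * t₂ - (t₁ : ℤ)).natAbs) ^ 6 +
          GG ((((a * t₁ : ℕ) : ℤ) * t₂ - c).natAbs) ^ 6) * (4 * (B / Real.log B ^ 2)) := by
        intro t₁ t₂
        have := GG_nonneg t₁
        have := GG_nonneg t₂
        have := GG_nonneg ((((1 : ℕ) : ℤ) * t₂ - (t₁ : ℤ)).natAbs)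
        have := GG_nonneg ((((a * t₁ : ℕ) : ℤ) * t₂ - c).natAbs)
        positivity
      refine (sum_le_sum_of_subset_of_nonneg hT fun t₁ _ _ => sum_nonneg fun t₂ _ => hnn t₁ t₂).trans ?_
      apply sum_le_sum
      intro t₁ _
      exact sum_le_sum_of_subset_of_nonneg hT fun t₂ _ _ => hnn t₁ t₂
  have hdiag : ∑ t₁ ∈ Icc 1 x, (40 * GG t₁ ^ 6 * (B / Real.log B)) ≤
      40 * C₁ * (x ^ 2 * (B / Real.log B ^ 2)) := by
    rw [← sum_mul, ← mul_sum]
    have h1 : (B : ℝ) / Real.log B ≤ x * (B / Real.log B ^ 2) := by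
      have e1 : (B : ℝ) / Real.log B = Real.log B * (B / Real.log B ^ 2) := by
        field_simp
      rw [e1]
      gcongr
    calc (40 * ∑ t₁ ∈ Icc 1 x, GG t₁ ^ 6) * (B / Real.log B)
        ≤ 40 * (C₁ * x) * (B / Real.log B) := by gcongr
      _ ≤ 40 * (C₁ * x) * (x * (B / Real.log B ^ 2)) := by gcongr
      _ = _ := by ring
  have hoff : ∑ t₁ ∈ Icc 1 x, ∑ t₂ ∈ Icc 1 x,
        C₃ * ((GG t₁ ^ 6 * GG t₂ ^ 6) + GG ((((1 : ℕ) : ℤ) * t₂ - (t₁ : ℤ)).natAbs) ^ 6 +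
        GG ((((a * t₁ : ℕ) : ℤ) * t₂ - c).natAbs) ^ 6) * (4 * (B / Real.log B ^ 2)) ≤
      C₃ * (C₁ ^ 2 + C₂ + C₂ * (1 / δ) ^ 6) * 4 * (x ^ 2 * (B / Real.log B ^ 2)) := by
    have h1 : ∀ t₁ ∈ Icc 1 x, ∑ t₂ ∈ Icc 1 x,
        C₃ * ((GG t₁ ^ 6 * GG t₂ ^ 6) + GG ((((1 : ℕ) : ℤ) * t₂ - (t₁ : ℤ)).natAbs) ^ 6 +
        GG ((((a * t₁ : ℕ) : ℤ) * t₂ - c).natAbs) ^ 6) * (4 * (B / Real.log B ^ 2)) ≤
        C₃ * (GG t₁ ^ 6 * (C₁ * x) + C₂ * x + C₂ * (1 / δ) ^ 6 * x) * (4 * (B / Real.log B ^ 2)) := by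
      intro t₁ h₁
      rw [← sum_mul, ← mul_sum, sum_add_distrib, sum_add_distrib, ← mul_sum]
      have := GG_nonneg t₁
      have a1 := hm1 t₁ h₁
      have a2 := hm2 t₁ h₁
      gcongr
    refine (sum_le_sum h1).trans ?_
    rw [← sum_mul, ← mul_sum, sum_add_distrib, sum_add_distrib, ← sum_mul, sum_const, sum_const,
      nsmul_eq_mul, nsmul_eq_mul, Nat.card_Icc, Nat.add_sub_cancel]
    calc _ ≤ C₃ * ((C₁ * x) * (C₁ * x) + x * (C₂ * x) + x * (C₂ * (1 / δ) ^ 6 * x)) *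
          (4 * (B / Real.log B ^ 2)) := by gcongr
      _ = _ := by ring
  calc _ ≤ 40 * C₁ * (x ^ 2 * (B / Real.log B ^ 2)) +
        C₃ * (C₁ ^ 2 + C₂ + C₂ * (1 / δ) ^ 6) * 4 * (x ^ 2 * (B / Real.log B ^ 2)) :=
        hall.trans (add_le_add hdiag hoff)
    _ = _ := by ring

end Pool.Agent.W218.HF
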