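import Mathlib
import Pool.Agent.W218.HF.First

set_option autoImplicit false

/-! First moment over the middle coefficient: one block of `t`. -/

namespace Pool.Agent.W218.HF

open Finset Pool.Agent.Erdos456 Pool.Agent.Erdos456.Mert H343E

/-- number of `b ∈ (b0, B]` with `a t² + b t + c` prime -/
noncomputable def cb (a b0 B : ℕ) (c : ℤ) (t : ℕ) : ℝ :=
  ((((Ioc b0 B).filter (fun b : ℕ => ((a : ℤ) * t ^ 2 + b * t + c).toNat.Prime)).card : ℕ) : ℝ)

theorem block : ∃ K : ℕ, ∀ η : ℝ, 0 < η → η ≤ 1 / 20 → ∃ B0 : ℕ, ∀ B : ℕ, B0 ≤ B →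
    ∀ (x : ℕ) (y : ℝ) (a : ℕ) (c : ℤ) (T : Finset ℕ), 3 / η ≤ y → y ≤ x →
    y * Real.log B ^ K ≤ B → a * y ≤ B → c.natAbs ≤ B →
    (∀ t ∈ T, (1 - η) * y < t ∧ (t : ℝ) ≤ y ∧ Nat.Coprime t c.natAbs) →
    (1 - 6 * η) * (B / Real.log (2 * B * x)) * ∑ t ∈ T, GG t - 4 * (B * y / Real.log B ^ 2) ≤
      ∑ t ∈ T, cb a ⌊η * B⌋₊ B c t := by
  classical
  obtain ⟨K, X0, hBV⟩ := bv1
  refine ⟨K + 1, ?_⟩
  intro η hη hη2
  obtain ⟨x₀, hpnt⟩ := Pool.Agent.H373R2.SH.pnt_windowB 4 (by norm_num) η hη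
  refine ⟨max (max X0 x₀) (max 3 ⌈Real.exp (3 ^ K / η)⌉₊), ?_⟩
  intro B hB x y a c T hy hyx hyB hay hcB hT
  have hBX : X0 ≤ B := (le_max_left _ _).trans ((le_max_left _ _).trans hB)
  have hBx₀ : x₀ ≤ B := (le_max_right _ _).trans ((le_max_left _ _).trans hB)
  have hB3 : 3 ≤ B := (le_max_left _ _).trans ((le_max_right _ _).trans hB)
  have hBe : ⌈Real.exp (3 ^ K / η)⌉₊ ≤ B := (le_max_right _ _).trans ((le_max_right _ _).trans hB)
  have hBe' : Real.exp (3 ^ K / η) ≤ B := (Nat.le_ceil _).trans (by exact_mod_cast hBe)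
  have hBr : (3 : ℝ) ≤ B := by exact_mod_cast hB3
  have hl3 : 3 ^ K / η ≤ Real.log B := by
    rw [Real.le_log_iff_exp_le (by linarith)]; exact hBe'
  have hl3' : (3 : ℝ) ^ K ≤ η * Real.log B := by
    rw [div_le_iff₀ hη] at hl3; linarith
  have hl1 : 1 ≤ Real.log B := by
    rw [Real.le_log_iff_exp_le (by linarith)]
    have := Real.exp_one_lt_d9
    linarith
  have hy60 : 60 ≤ y := by
    have : (60 : ℝ) ≤ 3 / η := by
      rw [le_div_iff₀ hη]; linarith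
    linarith
  have hy0 : 0 < y := by linarith
  have hηy : 3 ≤ η * y := by
    rw [div_le_iff₀ hη] at hy; linarith
  have hyB1 : y ≤ B := by
    have : y * 1 ≤ y * Real.log B ^ (K + 1) :=
      mul_le_mul_of_nonneg_left (one_le_pow₀ hl1) hy0.le
    linarith
  have hB0 : (0 : ℝ) < B := by linarith
  have hBy0 : 0 < (B : ℝ) * y := by positivity
  have ha0 : (0 : ℝ) ≤ a := Nat.cast_nonneg a
  set ρ : ℝ := 1 - η with hρ
  have hρ0 : 0 < ρ := by rw [hρ]; linarith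
  have hρ1 : ρ ≤ 1 := by rw [hρ]; linarith
  set X₁ : ℕ := ⌈a * y ^ 2 + η * B * y + B⌉₊ with hX₁
  set X₂ : ℕ := ⌊a * ρ ^ 2 * y ^ 2 + ρ * B * y - B⌋₊ with hX₂
  have hay2 : (a : ℝ) * y ^ 2 ≤ B * y := by
    have := mul_le_mul_of_nonneg_right hay hy0.le
    nlinarith
  have hay20 : 0 ≤ (a : ℝ) * y ^ 2 := by positivity
  have F2 : (a : ℝ) * y ^ 2 + η * B * y + B ≤ X₁ := Nat.le_ceil _
  have F1 : (X₁ : ℝ) < a * y ^ 2 + η * B * y + B + 1 := Nat.ceil_lt_add_one (by positivity)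
  have hBle : (B : ℝ) * 60 ≤ B * y := mul_le_mul_of_nonneg_left hy60 hB0.le
  have hηBy : 3 * (B : ℝ) ≤ η * B * y := by
    have := mul_le_mul_of_nonneg_left hηy hB0.le
    linarith
  have hηBy2 : η * B * y ≤ (1 / 20) * (B * y) := by
    have := mul_le_mul_of_nonneg_right hη2 hBy0.le
    linarith
  have hρsq : 1 - ρ ^ 2 ≤ 2 * η := by rw [hρ]; nlinarith
  have hρsq1 : ρ ^ 2 ≤ 1 := pow_le_one₀ hρ0.le hρ1
  have hinner : 0 ≤ (a : ℝ) * ρ ^ 2 * y ^ 2 + ρ * B * y - B := by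
    have h1 : 0 ≤ (a : ℝ) * ρ ^ 2 * y ^ 2 := by positivity
    have h2 : ρ * B * y = B * y - η * B * y := by rw [hρ]; ring
    linarith
  have F3 : (X₂ : ℝ) ≤ a * ρ ^ 2 * y ^ 2 + ρ * B * y - B := Nat.floor_le hinner
  have F4 : (a : ℝ) * ρ ^ 2 * y ^ 2 + ρ * B * y - B - 1 < X₂ := by
    have := Nat.lt_floor_add_one ((a : ℝ) * ρ ^ 2 * y ^ 2 + ρ * B * y - B)
    rw [← hX₂] at this
    linarith
  have hdiff : (1 - 5 * η) * (B * y) ≤ (X₂ : ℝ) - X₁ := by
    have h1 : (a : ℝ) * y ^ 2 - a * ρ ^ 2 * y ^ 2 ≤ 2 * (η * B * y) := by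
      have e1 : (a : ℝ) * y ^ 2 - a * ρ ^ 2 * y ^ 2 = (1 - ρ ^ 2) * (a * y ^ 2) := by ring
      rw [e1]
      calc (1 - ρ ^ 2) * ((a : ℝ) * y ^ 2) ≤ 2 * η * (a * y ^ 2) :=
            mul_le_mul_of_nonneg_right hρsq hay20
        _ ≤ 2 * η * (B * y) := by gcongr
        _ = _ := by ring
    have h2 : ρ * B * y = B * y - η * B * y := by rw [hρ]; ring
    have h3 : (1 - 5 * η) * (B * y) = B * y - 5 * (η * B * y) := by ring
    rw [h3]
    linarith
  have hhalf : (1 / 2 : ℝ) * (B * y) ≤ (1 - 5 * η) * (B * y) :=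
    mul_le_mul_of_nonneg_right (by linarith) hBy0.le
  have hX12r : (X₁ : ℝ) ≤ X₂ := by linarith
  have hX12 : X₁ ≤ X₂ := by exact_mod_cast hX12r
  have hX1up : (X₁ : ℝ) ≤ 2 * (B * y) := by linarith
  have hX2up : (X₂ : ℝ) ≤ 2 * (B * y) := by
    have h1 : (a : ℝ) * ρ ^ 2 * y ^ 2 ≤ B * y := by
      calc (a : ℝ) * ρ ^ 2 * y ^ 2 = ρ ^ 2 * (a * y ^ 2) := by ring
        _ ≤ 1 * (a * y ^ 2) := mul_le_mul_of_nonneg_right hρsq1 hay20
        _ ≤ _ := by linarith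
    have h2 : ρ * B * y ≤ B * y := by
      calc ρ * B * y = ρ * (B * y) := by ring
        _ ≤ 1 * (B * y) := mul_le_mul_of_nonneg_right hρ1 hBy0.le
        _ = _ := by ring
    linarith
  have hX1low : (B : ℝ) ≤ X₁ := by linarith
  have hX2low : (B : ℝ) ≤ X₂ := by linarith
  set W : ℕ := X₂ - X₁ with hW
  have hWr : (W : ℝ) = (X₂ : ℝ) - X₁ := by rw [hW, Nat.cast_sub hX12]
  -- logs
  have hlogX : ∀ X : ℕ, (B : ℝ) ≤ X → (X : ℝ) ≤ 2 * (B * y) →
      Real.log B ≤ Real.log X ∧ Real.log X ≤ 3 * Real.log B := by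
    intro X h1 h2
    refine ⟨Real.log_le_log hB0 h1, ?_⟩
    have h3 : (X : ℝ) ≤ (B : ℝ) ^ 3 := by
      have h4 : (B : ℝ) * y ≤ B * B := mul_le_mul_of_nonneg_left hyB1 hB0.le
      calc (X : ℝ) ≤ 2 * (B * B) := by linarith
        _ ≤ B * (B * B) := mul_le_mul_of_nonneg_right (by linarith) (by positivity)
        _ = _ := by ring
    have h4 := Real.log_le_log (by linarith) h3
    rw [Real.log_pow] at h4
    exact_mod_cast h4
  -- level of distribution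
  set D : ℕ := ⌊y⌋₊ with hD
  have hDy : (D : ℝ) ≤ y := Nat.floor_le hy0.le
  have hlev : ∀ X : ℕ, (B : ℝ) ≤ X → (X : ℝ) ≤ 2 * (B * y) → η * B * y ≤ X →
      (D : ℝ) ^ 2 ≤ X / Real.log X ^ K := by
    intro X h1 h2 h3
    obtain ⟨h4, h5⟩ := hlogX X h1 h2
    have h6 : 0 < Real.log X := by linarith
    rw [le_div_iff₀ (by positivity)]
    calc (D : ℝ) ^ 2 * Real.log X ^ K ≤ y ^ 2 * (3 * Real.log B) ^ K := by
          gcongr
      _ = (y * 3 ^ K * Real.log B ^ K) * y := by rw [mul_pow]; ring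
      _ ≤ (y * (η * Real.log B) * Real.log B ^ K) * y := by
          gcongr
      _ = η * (y * Real.log B ^ (K + 1)) * y := by ring
      _ ≤ η * B * y := by gcongr
      _ ≤ X := h3
  have hlev1 : ∀ X : ℕ, (B : ℝ) ≤ X → (X : ℝ) ≤ 2 * (B * y) → η * B * y ≤ X →
      (D : ℝ) ≤ X / Real.log X ^ K := by
    intro X h1 h2 h3
    refine le_trans ?_ (hlev X h1 h2 h3)
    have : D ≤ D ^ 2 := Nat.le_self_pow (by norm_num) D
    exact_mod_cast this
  have hTS : T ⊆ Icc 1 D := by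
    intro t ht
    obtain ⟨h1, h2, h3⟩ := hT t ht
    rw [mem_Icc]
    have h4 : (0 : ℝ) < t := lt_trans (by positivity) h1
    exact ⟨by exact_mod_cast h4, Nat.le_floor h2⟩
  have hTc : ∀ t ∈ T, Nat.Coprime t c.natAbs := fun t ht => (hT t ht).2.2
  have hX0X1 : X0 ≤ X₁ := by
    have : (X0 : ℝ) ≤ X₁ := le_trans (by exact_mod_cast hBX) hX1low
    exact_mod_cast this
  have hX0X2 : X0 ≤ X₂ := hX0X1.trans hX12
  have hηBy1 : η * B * y ≤ X₁ := by linarith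
  have hηBy2' : η * B * y ≤ X₂ := by linarith
  have E1 := hBV X₁ hX0X1 D (hlev1 X₁ hX1low hX1up hηBy1) (hlev X₁ hX1low hX1up hηBy1) c T hTS hTc
  have E2 := hBV X₂ hX0X2 D (hlev1 X₂ hX2low hX2up hηBy2') (hlev X₂ hX2low hX2up hηBy2') c T hTS hTc
  have hErr : ∀ X : ℕ, (B : ℝ) ≤ X → (X : ℝ) ≤ 2 * (B * y) →
      (X : ℝ) / Real.log X ^ 2 ≤ 2 * (B * y / Real.log B ^ 2) := by
    intro X h1 h2
    obtain ⟨h4, h5⟩ := hlogX X h1 h2
    have h6 : 0 < Real.log B := by linarith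
    calc (X : ℝ) / Real.log X ^ 2 ≤ (2 * (B * y)) / Real.log B ^ 2 := by gcongr
      _ = _ := by ring
  have E1' := E1.trans (hErr X₁ hX1low hX1up)
  have E2' := E2.trans (hErr X₂ hX2low hX2up)
  -- the window
  have hWlow : (B : ℝ) ≤ W := by rw [hWr]; linarith
  have hWx₀ : x₀ ≤ W := by
    have : (x₀ : ℝ) ≤ W := le_trans (by exact_mod_cast hBx₀) hWlow
    exact_mod_cast this
  have hX1W : X₁ ≤ 4 * W := by
    have : (X₁ : ℝ) ≤ 4 * W := by rw [hWr]; linarith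
    exact_mod_cast this
  have hP := hpnt W hWx₀ X₁ hX1W
  have hWX : W + X₁ = X₂ := by omega
  rw [hWX, ← pi1_eq, ← pi1_eq] at hP
  set M : ℝ := (1 - η) * ((1 - 5 * η) * (B * y) / Real.log (2 * B * x)) with hM
  have hWup : (W : ℝ) ≤ 2 * B * x := by
    have h1 : (B : ℝ) * y ≤ B * x := mul_le_mul_of_nonneg_left hyx hB0.le
    have h2 : (W : ℝ) ≤ X₂ := by
      have : W ≤ X₂ := by omega
      exact_mod_cast this
    linarith
  have hW3 : (3 : ℝ) ≤ W := by linarith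
  have hlW : 0 < Real.log W := Real.log_pos (by linarith)
  have hlWup : Real.log W ≤ Real.log (2 * B * x) := Real.log_le_log (by linarith) hWup
  have hMle : M ≤ pi1 X₂ - pi1 X₁ := by
    refine le_trans ?_ hP
    rw [hM]
    apply mul_le_mul_of_nonneg_left _ (by linarith)
    apply div_le_div₀ (by linarith) _ hlW hlWup
    rw [hWr]; exact hdiff
  have hM0 : 0 ≤ M := by
    rw [hM]
    have h1 : 0 < Real.log (2 * B * x) := by linarith
    have h2 : 0 ≤ 1 - 5 * η := by linarith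
    have h3 : 0 ≤ 1 - η := by linarith
    positivity
  -- termwise
  have hterm : ∀ t ∈ T, M * GG t / y - |piAP X₁ t (c % t).toNat - pi1 X₁ / (Nat.totient t : ℝ)| -
      |piAP X₂ t (c % t).toNat - pi1 X₂ / (Nat.totient t : ℝ)| ≤ cb a ⌊η * B⌋₊ B c t := by
    intro t ht
    obtain ⟨h1, h2, h3⟩ := hT t ht
    have ht0r : (0 : ℝ) < t := lt_trans (by positivity) h1
    have ht0 : 0 < t := by exact_mod_cast ht0r
    have hφ : (0 : ℝ) < Nat.totient t := by exact_mod_cast Nat.totient_pos.2 ht0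
    have hcabs : |(c : ℝ)| ≤ B := by
      have : ((c.natAbs : ℕ) : ℝ) = |(c : ℝ)| := Nat.cast_natAbs c |>.trans (by push_cast; rfl)
      rw [← this]; exact_mod_cast hcB
    have hc1 := (abs_le.1 hcabs).1
    have hc2 := (abs_le.1 hcabs).2
    have hb0 : ((⌊η * B⌋₊ : ℕ) : ℝ) ≤ η * B := Nat.floor_le (by positivity)
    have g1 : (t : ℤ) * (((⌊η * B⌋₊ : ℕ) : ℤ) + a * t) + c ≤ X₁ := by
      have : (t : ℝ) * (((⌊η * B⌋₊ : ℕ) : ℝ) + a * t) + c ≤ X₁ := by
        refine le_trans ?_ F2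
        have i1 : (t : ℝ) * ((⌊η * B⌋₊ : ℕ) : ℝ) ≤ y * (η * B) := by gcongr
        have i2 : (a : ℝ) * (t * t) ≤ a * (y * y) := by gcongr
        nlinarith
      exact_mod_cast this
    have g2 : (X₂ : ℤ) ≤ (t : ℤ) * (B + a * t) + c := by
      have : (X₂ : ℝ) ≤ (t : ℝ) * (B + a * t) + c := by
        refine F3.trans ?_
        have hρy : 0 ≤ ρ * y := by positivity
        have i1 : (ρ * y) * B ≤ t * B := by gcongr
        have i2 : (a : ℝ) * ((ρ * y) * (ρ * y)) ≤ a * (t * t) := by gcongr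
        nlinarith
      exact_mod_cast this
    have h4 := to_b (a := a) (t := t) (b0 := ⌊η * B⌋₊) (B := B) (X₁ := X₁) (X₂ := X₂) (c := c)
      ht0 g1 g2
    have h5 : piAP X₂ t (c % t).toNat - piAP X₁ t (c % t).toNat ≤ cb a ⌊η * B⌋₊ B c t := by
      rw [piAP_diff X₁ X₂ t _ hX12]
      unfold cb
      exact_mod_cast h4
    have h6 := neg_abs_le (piAP X₂ t (c % t).toNat - pi1 X₂ / (Nat.totient t : ℝ))
    have h7 := le_abs_self (piAP X₁ t (c % t).toNat - pi1 X₁ / (Nat.totient t : ℝ))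
    have h8 : M * GG t / y ≤ pi1 X₂ / (Nat.totient t : ℝ) - pi1 X₁ / (Nat.totient t : ℝ) := by
      rw [← sub_div]
      have h9 : M * GG t / y ≤ M / (Nat.totient t : ℝ) := by
        unfold GG
        rw [div_le_div_iff₀ hy0 hφ]
        have e9 : M * ((t : ℝ) / (Nat.totient t : ℝ)) * (Nat.totient t : ℝ) = M * t := by
          field_simp
        rw [e9]
        exact mul_le_mul_of_nonneg_left h2 hM0
      exact h9.trans (div_le_div_of_nonneg_right hMle hφ.le)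
    linarith
  have hsum := sum_le_sum hterm
  rw [sum_sub_distrib, sum_sub_distrib] at hsum
  have h10 : ∑ t ∈ T, M * GG t / y = (M / y) * ∑ t ∈ T, GG t := by
    rw [mul_sum]; apply sum_congr rfl; intro t _; ring
  rw [h10] at hsum
  have h11 : (1 - 6 * η) * (B / Real.log (2 * B * x)) ≤ M / y := by
    rw [le_div_iff₀ hy0, hM]
    have h12 : 0 ≤ (B : ℝ) * y / Real.log (2 * B * x) := by
      have h1 : 0 < Real.log (2 * B * x) := by linarith
      positivity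
    have e1 : (1 - 6 * η) * (B / Real.log (2 * B * x)) * y =
        (1 - 6 * η) * (B * y / Real.log (2 * B * x)) := by ring
    have e2 : (1 - η) * ((1 - 5 * η) * (B * y) / Real.log (2 * B * x)) =
        ((1 - η) * (1 - 5 * η)) * (B * y / Real.log (2 * B * x)) := by ring
    rw [e1, e2]
    apply mul_le_mul_of_nonneg_right _ h12
    nlinarith
  have hS0 : 0 ≤ ∑ t ∈ T, GG t := sum_nonneg fun t _ => GG_nonneg t
  have h12 := mul_le_mul_of_nonneg_right h11 hS0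
  linarith

end Pool.Agent.W218.HF
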