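import Mathlib
import Pool.Agent.W218.HF.Block
import Pool.Agent.W218.HF.Second

set_option autoImplicit false

/-! First moment over the middle coefficient: all `t`. -/

namespace Pool.Agent.W218.HF

open Finset Pool.Agent.Erdos456 Pool.Agent.Erdos456.Mert H343E

lemma cb_nonneg (a b0 B : ℕ) (c : ℤ) (t : ℕ) : 0 ≤ cb a b0 B c t := Nat.cast_nonneg _

theorem first_total : ∃ K : ℕ, ∀ η : ℝ, 0 < η → η ≤ 1 / 20 → ∀ δ : ℝ, 0 < δ → ∃ J B0 : ℕ,
    ∀ B : ℕ, B0 ≤ B → ∀ (x a : ℕ) (c : ℤ) (T : Finset ℕ), Real.log B ≤ x →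
    x * Real.log B ^ K ≤ B → a * x ≤ B → c.natAbs ≤ B → T ⊆ Icc 1 x →
    (∀ t ∈ T, Nat.Coprime t c.natAbs) → δ * x ≤ T.card →
    3 / η ≤ (1 - η) ^ J * x ∧
    (1 - 9 * η) * (B / Real.log (B * x)) * ∑ t ∈ T, GG t ≤
      ∑ t ∈ T.filter (fun t : ℕ => (1 - η) ^ J * (x : ℝ) < t), cb a ⌊η * B⌋₊ B c t := by
  classical
  obtain ⟨K, hblock⟩ := block
  refine ⟨K, ?_⟩
  intro η hη hη2 δ hδ
  obtain ⟨B₁, hblock⟩ := hblock η hη hη2
  obtain ⟨C₁, hC₁, h6⟩ := GG_sum6
  set ρ : ℝ := 1 - η with hρ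
  have hρ0 : 0 < ρ := by rw [hρ]; linarith
  have hρ1 : ρ < 1 := by rw [hρ]; linarith
  obtain ⟨J, hJ⟩ := exists_pow_lt_of_lt_one (show 0 < η * δ / C₁ by positivity) hρ1
  have hρJ : 0 < ρ ^ J := by positivity
  refine ⟨J, max (max B₁ 3) ⌈Real.exp (3 / η / ρ ^ J + (8 * J) / (η * δ) + 1 / η)⌉₊, ?_⟩
  intro B hB x a c T hlog hxB hax hcB hT hTc hTcard
  have hB1 : B₁ ≤ B := (le_max_left _ _).trans ((le_max_left _ _).trans hB)
  have hB3 : 3 ≤ B := (le_max_right _ _).trans ((le_max_left _ _).trans hB)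
  have hBe : ⌈Real.exp (3 / η / ρ ^ J + (8 * J) / (η * δ) + 1 / η)⌉₊ ≤ B :=
    (le_max_right _ _).trans hB
  have hBe' : Real.exp (3 / η / ρ ^ J + (8 * J) / (η * δ) + 1 / η) ≤ B :=
    (Nat.le_ceil _).trans (by exact_mod_cast hBe)
  have hBr : (3 : ℝ) ≤ B := by exact_mod_cast hB3
  have hB0 : (0 : ℝ) < B := by linarith
  have hl : 3 / η / ρ ^ J + (8 * J) / (η * δ) + 1 / η ≤ Real.log B := by
    rw [Real.le_log_iff_exp_le hB0]; exact hBe'
  have p1 : 0 ≤ 3 / η / ρ ^ J := by positivity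
  have p2 : 0 ≤ (8 * J : ℝ) / (η * δ) := by positivity
  have p3 : 0 ≤ 1 / η := by positivity
  have hl1 : 3 / η ≤ ρ ^ J * Real.log B := by
    have : 3 / η / ρ ^ J ≤ Real.log B := by linarith
    rw [div_le_iff₀ hρJ] at this
    linarith
  have hl2 : 8 * J ≤ η * δ * Real.log B := by
    have : (8 * J : ℝ) / (η * δ) ≤ Real.log B := by linarith
    rw [div_le_iff₀ (by positivity)] at this
    linarith
  have hl3 : 1 ≤ η * Real.log B := by
    have : 1 / η ≤ Real.log B := by linarith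
    rw [div_le_iff₀ hη] at this
    linarith
  have hlB1 : 1 ≤ Real.log B := by
    rw [Real.le_log_iff_exp_le hB0]
    have := Real.exp_one_lt_d9
    linarith
  have hx0 : 0 < (x : ℝ) := by linarith
  have hx1 : 1 ≤ x := by
    have : 0 < x := by exact_mod_cast hx0
    omega
  have hx1r : (1 : ℝ) ≤ x := by exact_mod_cast hx1
  have hyJ : 3 / η ≤ ρ ^ J * x := hl1.trans (by gcongr)
  refine ⟨hyJ, ?_⟩
  have hxleB : (x : ℝ) ≤ B := by
    have : (x : ℝ) * 1 ≤ x * Real.log B ^ K :=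
      mul_le_mul_of_nonneg_left (one_le_pow₀ hlB1) hx0.le
    linarith
  -- induction over blocks
  have hind : ∀ j : ℕ, j ≤ J →
      (1 - 6 * η) * (B / Real.log (2 * B * x)) *
        ∑ t ∈ T.filter (fun t : ℕ => ρ ^ j * (x : ℝ) < t), GG t - j * (4 * (B * x / Real.log B ^ 2)) ≤
      ∑ t ∈ T.filter (fun t : ℕ => ρ ^ j * (x : ℝ) < t), cb a ⌊η * B⌋₊ B c t := by
    intro j
    induction j with
    | zero =>
      intro _
      have h0 : T.filter (fun t : ℕ => ρ ^ 0 * (x : ℝ) < t) = ∅ := by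
        apply filter_eq_empty_iff.2
        intro t ht h
        have h1 := (mem_Icc.1 (hT ht)).2
        have h2 : (t : ℝ) ≤ x := by exact_mod_cast h1
        rw [pow_zero, one_mul] at h
        linarith
      rw [h0]
      simp
    | succ j ih =>
      intro hj
      have ih' := ih (by omega)
      have hsplit : T.filter (fun t : ℕ => ρ ^ (j + 1) * (x : ℝ) < t) =
          T.filter (fun t : ℕ => ρ ^ j * (x : ℝ) < t) ∪
          T.filter (fun t : ℕ => ρ * (ρ ^ j * (x : ℝ)) < t ∧ (t : ℝ) ≤ ρ ^ j * x) := by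
        ext t
        simp only [mem_filter, mem_union]
        have e1 : ρ ^ (j + 1) * (x : ℝ) = ρ * (ρ ^ j * x) := by ring
        constructor
        · rintro ⟨h1, h2⟩
          rw [e1] at h2
          by_cases h3 : ρ ^ j * (x : ℝ) < t
          · exact Or.inl ⟨h1, h3⟩
          · exact Or.inr ⟨h1, h2, not_lt.1 h3⟩
        · rintro (⟨h1, h2⟩ | ⟨h1, h2, h3⟩)
          · refine ⟨h1, lt_of_le_of_lt ?_ h2⟩
            rw [e1]
            have : 0 ≤ ρ ^ j * (x : ℝ) := by positivity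
            nlinarith
          · exact ⟨h1, by rw [e1]; exact h2⟩
      have hdisj : Disjoint (T.filter (fun t : ℕ => ρ ^ j * (x : ℝ) < t))
          (T.filter (fun t : ℕ => ρ * (ρ ^ j * (x : ℝ)) < t ∧ (t : ℝ) ≤ ρ ^ j * x)) := by
        rw [disjoint_left]
        intro t h1 h2
        rw [mem_filter] at h1 h2
        linarith [h1.2, h2.2.2]
      have hρj : ρ ^ j ≤ 1 := pow_le_one₀ hρ0.le hρ1.le
      have hρjJ : ρ ^ J ≤ ρ ^ j := pow_le_pow_of_le_one hρ0.le hρ1.le (by omega)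
      have hyx : ρ ^ j * (x : ℝ) ≤ x := by
        have := mul_le_mul_of_nonneg_right hρj hx0.le
        linarith
      have hb := hblock B hB1 x (ρ ^ j * x) a c
        (T.filter (fun t : ℕ => ρ * (ρ ^ j * (x : ℝ)) < t ∧ (t : ℝ) ≤ ρ ^ j * x))
        (hyJ.trans (by gcongr)) hyx
        (le_trans (mul_le_mul_of_nonneg_right hyx (by positivity)) hxB)
        (by
          have h1 : (a : ℝ) * (ρ ^ j * x) ≤ a * x := by gcongr
          have h2 : (a : ℝ) * x ≤ B := by exact_mod_cast hax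
          linarith) hcB
        (by
          intro t ht
          rw [mem_filter] at ht
          exact ⟨ht.2.1, ht.2.2, hTc t ht.1⟩)
      rw [hsplit, sum_union hdisj, sum_union hdisj]
      have herr : (B : ℝ) * (ρ ^ j * x) / Real.log B ^ 2 ≤ B * x / Real.log B ^ 2 := by gcongr
      push_cast
      rw [mul_add]
      linarith
  have hmain := hind J le_rfl
  set m : ℝ := ∑ t ∈ T, GG t with hm
  -- small t
  have hsm : ∑ t ∈ T.filter (fun t : ℕ => ¬ ρ ^ J * (x : ℝ) < t), GG t ≤ η * (δ * x) := by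
    have h1 : T.filter (fun t : ℕ => ¬ ρ ^ J * (x : ℝ) < t) ⊆ Icc 1 ⌊ρ ^ J * (x : ℝ)⌋₊ := by
      intro t ht
      rw [mem_filter] at ht
      rw [mem_Icc]
      exact ⟨(mem_Icc.1 (hT ht.1)).1, Nat.le_floor (not_lt.1 ht.2)⟩
    have h2 : ∑ t ∈ T.filter (fun t : ℕ => ¬ ρ ^ J * (x : ℝ) < t), GG t ≤
        ∑ t ∈ Icc 1 ⌊ρ ^ J * (x : ℝ)⌋₊, GG t ^ 6 := by
      refine (sum_le_sum_of_subset_of_nonneg h1 fun t _ _ => GG_nonneg t).trans ?_
      apply sum_le_sum
      intro t ht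
      exact GG_le_six (by have := (mem_Icc.1 ht).1; omega)
    have h3 : ((⌊ρ ^ J * (x : ℝ)⌋₊ : ℕ) : ℝ) ≤ ρ ^ J * x := Nat.floor_le (by positivity)
    have h4 : C₁ * ρ ^ J ≤ η * δ := by
      rw [lt_div_iff₀ hC₁] at hJ
      linarith
    calc _ ≤ C₁ * ((⌊ρ ^ J * (x : ℝ)⌋₊ : ℕ) : ℝ) := h2.trans (h6 _)
      _ ≤ C₁ * (ρ ^ J * x) := by gcongr
      _ = (C₁ * ρ ^ J) * x := by ring
      _ ≤ (η * δ) * x := by gcongr
      _ = _ := by ring
  have hmcard : δ * x ≤ m := by
    refine hTcard.trans ?_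
    rw [hm, card_eq_sum_ones]
    push_cast
    apply sum_le_sum
    intro t ht
    exact one_le_GG (by have := (mem_Icc.1 (hT ht)).1; omega)
  have hbig : (1 - η) * m ≤ ∑ t ∈ T.filter (fun t : ℕ => ρ ^ J * (x : ℝ) < t), GG t := by
    have h1 := sum_filter_add_sum_filter_not T (fun t : ℕ => ρ ^ J * (x : ℝ) < t) (fun t => GG t)
    rw [← hm] at h1
    have h2 : η * (δ * x) ≤ η * m := by gcongr
    linarith
  have hm0 : 0 ≤ m := sum_nonneg fun t _ => GG_nonneg t
  -- logs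
  have hBx0 : 0 < (B : ℝ) * x := by positivity
  have hL1 : Real.log B ≤ Real.log (B * x) := by
    apply Real.log_le_log hB0
    have := mul_le_mul_of_nonneg_left hx1r hB0.le
    linarith
  have hL2 : Real.log (B * x) ≤ 2 * Real.log B := by
    rw [Real.log_mul hB0.ne' hx0.ne']
    have := Real.log_le_log hx0 hxleB
    linarith
  have hL0 : 0 < Real.log (B * x) := by linarith
  have hL3 : Real.log (2 * B * x) ≤ (1 + η) * Real.log (B * x) := by
    have e1 : (2 : ℝ) * B * x = 2 * (B * x) := by ring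
    rw [e1, Real.log_mul (by norm_num) hBx0.ne']
    have h2 := Real.log_two_lt_d9
    have h3 : 1 ≤ η * Real.log (B * x) := hl3.trans (by gcongr)
    linarith
  have hL4 : 0 < Real.log (2 * B * x) := by
    have : Real.log (B * x) ≤ Real.log (2 * B * x) := Real.log_le_log hBx0 (by linarith)
    linarith
  set Q : ℝ := B / Real.log (B * x) with hQ
  have hQ0 : 0 < Q := by positivity
  have hQ2 : (1 - η) * Q ≤ B / Real.log (2 * B * x) := by
    rw [hQ, le_div_iff₀ hL4]
    calc (1 - η) * (B / Real.log (B * x)) * Real.log (2 * B * x)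
        ≤ (1 - η) * (B / Real.log (B * x)) * ((1 + η) * Real.log (B * x)) := by
          apply mul_le_mul_of_nonneg_left hL3
          apply mul_nonneg hρ0.le (by positivity)
      _ = (1 - η ^ 2) * B := by field_simp; ring
      _ ≤ B := by nlinarith [sq_nonneg η]
  have herr : (J : ℝ) * (4 * (B * x / Real.log B ^ 2)) ≤ η * (Q * (δ * x)) := by
    rw [hQ]
    have hlB0 : 0 < Real.log B := by linarith
    have h1 : B * x / Real.log B ^ 2 * (8 * J) ≤ B * x / Real.log B ^ 2 * (η * δ * Real.log B) := by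
      gcongr
    have h2 : (B : ℝ) * x / Real.log B ^ 2 * (η * δ * Real.log B) =
        η * δ * (B * x) / Real.log B := by field_simp
    have h3 : (B : ℝ) / Real.log B ≤ 2 * (B / Real.log (B * x)) := by
      rw [div_le_iff₀ hlB0]
      have : 2 * (B / Real.log (B * x)) * Real.log B = (B / Real.log (B * x)) * (2 * Real.log B) := by
        ring
      rw [this]
      calc (B : ℝ) = (B / Real.log (B * x)) * Real.log (B * x) := by field_simp
        _ ≤ _ := by gcongr
    have h4 : η * δ * (B * x) / Real.log B = (η * δ * x) * (B / Real.log B) := by ring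
    have h5 : (η * δ * x) * (B / Real.log B) ≤ (η * δ * x) * (2 * (B / Real.log (B * x))) := by
      gcongr
    linarith
  have h7 : (1 - 8 * η) * Q * m ≤ (1 - 6 * η) * (B / Real.log (2 * B * x)) *
      ∑ t ∈ T.filter (fun t : ℕ => ρ ^ J * (x : ℝ) < t), GG t := by
    have h8 : (1 - 8 * η) * Q * m ≤ (1 - 6 * η) * ((1 - η) * Q) * ((1 - η) * m) := by
      have e : (1 - 6 * η) * ((1 - η) * Q) * ((1 - η) * m) =
        ((1 - 6 * η) * (1 - η) * (1 - η)) * (Q * m) := by ring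
      have e2 : (1 - 8 * η) * Q * m = (1 - 8 * η) * (Q * m) := by ring
      rw [e, e2]
      apply mul_le_mul_of_nonneg_right _ (by positivity)
      nlinarith [sq_nonneg η, mul_nonneg hη.le (sq_nonneg η)]
    refine h8.trans ?_
    have h9 : 0 ≤ 1 - 6 * η := by linarith
    have h10 : 0 ≤ (1 - η) * m := mul_nonneg hρ0.le hm0
    have h11 : 0 ≤ (1 - η) * Q := mul_nonneg hρ0.le hQ0.le
    gcongr
  have h12 : η * (Q * (δ * x)) ≤ η * Q * m := by
    have := mul_le_mul_of_nonneg_left hmcard (mul_nonneg hη.le hQ0.le)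
    linarith
  have e3 : (1 - 9 * η) * Q * m = (1 - 8 * η) * Q * m - η * Q * m := by ring
  rw [e3]
  linarith

end Pool.Agent.W218.HF
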