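import Mathlib
import Pool.Agent.W218.HF.FirstTotal
import Pool.Agent.W218.HF.Count

set_option autoImplicit false

/-! The main theorem on the middle coefficient. -/

namespace Pool.Agent.W218.HF

open Finset Pool.Agent.Erdos456 Pool.Agent.Erdos456.Mert

/-- the elements `t ∈ T` for which `a t² + b t + c` has no prime factor `≤ z` -/
noncomputable def unsieved (z a b : ℕ) (c : ℤ) (T : Finset ℕ) : ℕ :=
  (T.filter (fun t : ℕ => ∀ p ≤ z, p.Prime → ¬ ((p : ℤ) ∣ (a : ℤ) * t ^ 2 + b * t + c))).card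

/-- the number of `t ∈ T` for which `a t² + b t + c` is prime -/
noncomputable def numP (a b : ℕ) (c : ℤ) (T : Finset ℕ) : ℕ :=
  (T.filter (fun t : ℕ => ((a : ℤ) * t ^ 2 + b * t + c).toNat.Prime)).card

theorem main1 : ∃ K : ℕ, ∀ δ : ℝ, 0 < δ → ∀ θ : ℝ, θ < 1 → ∃ η : ℝ, 0 < η ∧ ∀ z : ℕ, ∃ B0 : ℕ,
    ∀ B : ℕ, B0 ≤ B → ∀ (x a : ℕ) (c : ℤ) (T : Finset ℕ), 1 ≤ a → c ≠ 0 → c.natAbs ≤ B →
    δ * c.natAbs ≤ Nat.totient c.natAbs → Real.log B ≤ x → x * Real.log B ^ K ≤ B → a * x ≤ B →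
    T ⊆ Icc 1 x → (∀ t ∈ T, Nat.Coprime t c.natAbs) → δ * x ≤ T.card →
    η * B ≤ ((((Icc 1 B).filter (fun b : ℕ =>
      θ * (unsieved z a b c T / Wz z) / Real.log (B * x) ≤ numP a b c T ∧
      η * x / Real.log B ≤ numP a b c T)).card : ℕ) : ℝ) := by
  classical
  obtain ⟨K, hfirst⟩ := first_total
  refine ⟨K, ?_⟩
  intro δ hδ θ hθ
  obtain ⟨C₂, hC₂, hsecond⟩ := second δ hδ
  set θ₀ : ℝ := max θ 0 with hθ₀
  have hθ0 : 0 ≤ θ₀ := le_max_right _ _
  have hθ1 : θ₀ < 1 := max_lt hθ one_pos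
  have hθθ : θ ≤ θ₀ := le_max_left _ _
  set κ : ℝ := 1 - θ₀ with hκ
  have hκ0 : 0 < κ := by rw [hκ]; linarith
  have hκ1 : κ ≤ 1 := by rw [hκ]; linarith
  set η₀ : ℝ := κ / 36 with hη₀
  have hη0 : 0 < η₀ := by positivity
  have hη20 : η₀ ≤ 1 / 20 := by rw [hη₀]; linarith
  obtain ⟨J, B₁, hfirst⟩ := hfirst η₀ hη0 hη20 δ hδ
  set η₁ : ℝ := δ * κ / 8 with hη₁
  have hη10 : 0 < η₁ := by positivity
  refine ⟨min η₁ (9 / 256 * κ ^ 2 * δ ^ 2 / C₂), by positivity, ?_⟩
  set ηf : ℝ := min η₁ (9 / 256 * κ ^ 2 * δ ^ 2 / C₂) with hηf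
  intro z
  refine ⟨max (max B₁ 4) ⌈8 * Pz z / κ⌉₊, ?_⟩
  intro B hB x a c T ha hc hcB hcδ hlog hxB hax hT hTc hTcard
  have hB1 : B₁ ≤ B := (le_max_left _ _).trans ((le_max_left _ _).trans hB)
  have hB4 : 4 ≤ B := (le_max_right _ _).trans ((le_max_left _ _).trans hB)
  have hBP : 8 * (Pz z : ℝ) / κ ≤ B :=
    (Nat.le_ceil _).trans (by exact_mod_cast (le_max_right _ _).trans hB)
  have hBr : (4 : ℝ) ≤ B := by exact_mod_cast hB4
  have hB0 : (0 : ℝ) < B := by linarith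
  have hlB : 1 ≤ Real.log B := by
    rw [Real.le_log_iff_exp_le hB0]
    have := Real.exp_one_lt_d9
    linarith
  have hx0 : 0 < (x : ℝ) := by linarith
  have hx1 : 1 ≤ x := by
    have : 0 < x := by exact_mod_cast hx0
    omega
  have hx1r : (1 : ℝ) ≤ x := by exact_mod_cast hx1
  have hxleB : (x : ℝ) ≤ B := by
    have : (x : ℝ) * 1 ≤ x * Real.log B ^ K :=
      mul_le_mul_of_nonneg_left (one_le_pow₀ hlB) hx0.le
    linarith
  set L : ℝ := Real.log (B * x) with hL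
  have hL1 : Real.log B ≤ L := by
    apply Real.log_le_log hB0
    have := mul_le_mul_of_nonneg_left hx1r hB0.le
    linarith
  have hL2 : L ≤ 2 * Real.log B := by
    rw [hL, Real.log_mul hB0.ne' hx0.ne']
    have := Real.log_le_log hx0 hxleB
    linarith
  have hL0 : 0 < L := by linarith
  obtain ⟨hJx, hF⟩ := hfirst B hB1 x a c T hlog hxB hax hcB hT hTc hTcard
  set b0 : ℕ := ⌊η₀ * B⌋₊ with hb0
  set T' : Finset ℕ := T.filter (fun t : ℕ => (1 - η₀) ^ J * (x : ℝ) < t) with hT'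
  set m : ℝ := ∑ t ∈ T, GG t with hm
  have hb0le : (b0 : ℝ) ≤ η₀ * B := Nat.floor_le (by positivity)
  have hb0lt : η₀ * B < b0 + 1 := Nat.lt_floor_add_one _
  have hb02 : 2 * b0 ≤ B := by
    have : (2 : ℝ) * b0 ≤ B := by nlinarith
    exact_mod_cast this
  have hT'sub : T' ⊆ T := filter_subset _ _
  -- second moment
  have hS := hsecond B b0 x a c T' hB4 hb02 hlog hax ha hc hcB hcδ (hT'sub.trans hT) (by
    intro t ht
    have ht' := mem_filter.1 ht
    have h1 : 3 / η₀ < t := lt_of_le_of_lt hJx ht'.2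
    have h2 : 3 < η₀ * t := by
      rw [div_lt_iff₀ hη0] at h1; linarith
    have h60 : (60 : ℝ) ≤ 3 / η₀ := by
      rw [le_div_iff₀ hη0]; linarith
    have h3 : (60 : ℝ) < t := by linarith
    refine ⟨hTc t ht'.1, ?_, ?_⟩
    · have : (1 : ℝ) < t := by linarith
      exact_mod_cast this
    · have hcabs : |(c : ℝ)| ≤ B := by
        have : ((c.natAbs : ℕ) : ℝ) = |(c : ℝ)| := Nat.cast_natAbs c |>.trans (by push_cast; rfl)
        rw [← this]; exact_mod_cast hcB
      have hc1 := (abs_le.1 hcabs).1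
      have ht0 : (0 : ℝ) < t := by linarith
      have h4 : (t : ℝ) * b0 ≥ t * (η₀ * B - 1) := by
        apply mul_le_mul_of_nonneg_left _ ht0.le
        linarith
      have h5 : (t : ℝ) * (η₀ * B - 1) = (η₀ * t) * B - t := by ring
      have h6 : 3 * (B : ℝ) ≤ (η₀ * t) * B := mul_le_mul_of_nonneg_right h2.le hB0.le
      have h7 : (t : ℝ) ≤ a * t ^ 2 := by
        have h8 : (1 : ℝ) ≤ a := by exact_mod_cast ha
        have h9 : (t : ℝ) ≤ t ^ 2 := by nlinarith
        nlinarith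
      have h10 : (0 : ℝ) ≤ (t : ℝ) * b0 + a * t ^ 2 + c := by linarith
      exact_mod_cast h10)
  -- double counting
  set N' : ℕ → ℝ := fun b => ((((T'.filter (fun t : ℕ =>
    ((a : ℤ) * t ^ 2 + b * t + c).toNat.Prime)).card : ℕ)) : ℝ) with hN'
  have hN'0 : ∀ b, 0 ≤ N' b := fun b => Nat.cast_nonneg _
  have hswap : ∑ t ∈ T', cb a b0 B c t = ∑ b ∈ Ioc b0 B, N' b := by
    simp only [cb, hN', card_filter]
    push_cast
    rw [sum_comm]
  rw [hswap] at hF
  have hN'le : ∀ b, N' b ≤ numP a b c T := by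
    intro b
    simp only [hN', numP]
    have : (T'.filter (fun t : ℕ => ((a : ℤ) * t ^ 2 + b * t + c).toNat.Prime)).card ≤
        (T.filter (fun t : ℕ => ((a : ℤ) * t ^ 2 + b * t + c).toNat.Prime)).card :=
      card_le_card (filter_subset_filter _ hT'sub)
    exact_mod_cast this
  -- sieve average
  have hR : ∑ b ∈ Icc 1 B, (unsieved z a b c T : ℝ) / Wz z ≤ (B + Pz z) * m := by
    have h1 : ∑ b ∈ Icc 1 B, (unsieved z a b c T : ℝ) / Wz z =
        ∑ t ∈ T, ((((Icc 1 B).filter (fun b : ℕ => ∀ p ≤ z, p.Prime →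
          ¬ ((p : ℤ) ∣ (a : ℤ) * t ^ 2 + b * t + c))).card : ℕ) : ℝ) / Wz z := by
      rw [← sum_div, ← sum_div]
      congr 1
      simp only [unsieved, card_filter]
      push_cast
      rw [sum_comm]
    rw [h1, hm, mul_sum]
    apply sum_le_sum
    intro t ht
    exact sieve_avg a t B z c (by have := (mem_Icc.1 (hT ht)).1; omega)
  have hmcard : δ * x ≤ m := by
    refine hTcard.trans ?_
    rw [hm, card_eq_sum_ones]
    push_cast
    apply sum_le_sum
    intro t ht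
    exact one_le_GG (by have := (mem_Icc.1 (hT ht)).1; omega)
  have hm0 : 0 < m := lt_of_lt_of_le (by positivity) hmcard
  set S := (Icc 1 B).filter (fun b : ℕ =>
      θ * (unsieved z a b c T / Wz z) / L ≤ numP a b c T ∧
      ηf * x / Real.log B ≤ numP a b c T) with hSdef
  have hWz := Wz_pos z
  -- the bad b
  have hbad : ∑ b ∈ (Ioc b0 B).filter (fun b => b ∉ S), N' b ≤
      θ₀ * ((B + Pz z) * m) / L + B * (2 * η₁ * x / L) := by
    have h1 : ∀ b ∈ (Ioc b0 B).filter (fun b => b ∉ S), N' b ≤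
        θ₀ * ((unsieved z a b c T : ℝ) / Wz z) / L + 2 * η₁ * x / L := by
      intro b hb
      rw [mem_filter, mem_Ioc] at hb
      have hb1 : b ∈ Icc 1 B := mem_Icc.2 ⟨by omega, hb.1.2⟩
      have h2 : ¬ (θ * (unsieved z a b c T / Wz z) / L ≤ numP a b c T ∧
          ηf * x / Real.log B ≤ numP a b c T) := by
        intro h
        exact hb.2 (by rw [hSdef, mem_filter]; exact ⟨hb1, h⟩)
      have hR0 : 0 ≤ (unsieved z a b c T : ℝ) / Wz z := by positivity
      have h3 : 0 ≤ θ₀ * ((unsieved z a b c T : ℝ) / Wz z) / L := by positivity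
      have h4 : 0 ≤ 2 * η₁ * x / L := by positivity
      refine (hN'le b).trans ?_
      rw [not_and_or, not_le, not_le] at h2
      rcases h2 with h2 | h2
      · have h5 : θ * ((unsieved z a b c T : ℝ) / Wz z) / L ≤
            θ₀ * ((unsieved z a b c T : ℝ) / Wz z) / L := by gcongr
        linarith
      · have h5 : ηf * x / Real.log B ≤ 2 * η₁ * x / L := by
          rw [div_le_div_iff₀ (by linarith) hL0]
          have h6 : ηf ≤ η₁ := min_le_left _ _
          calc ηf * x * L ≤ η₁ * x * (2 * Real.log B) := by gcongr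
            _ = _ := by ring
        linarith
    refine (sum_le_sum h1).trans ?_
    rw [sum_add_distrib]
    have hsub : (Ioc b0 B).filter (fun b => b ∉ S) ⊆ Icc 1 B := by
      intro b hb
      rw [mem_filter, mem_Ioc] at hb
      exact mem_Icc.2 ⟨by omega, hb.1.2⟩
    apply add_le_add
    · calc _ ≤ ∑ b ∈ Icc 1 B, θ₀ * ((unsieved z a b c T : ℝ) / Wz z) / L := by
            apply sum_le_sum_of_subset_of_nonneg hsub
            intro b _ _; positivity
        _ = θ₀ * (∑ b ∈ Icc 1 B, (unsieved z a b c T : ℝ) / Wz z) / L := by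
            rw [← sum_div, ← mul_sum]
        _ ≤ _ := by gcongr
    · rw [sum_const, nsmul_eq_mul]
      have h2 : (((Ioc b0 B).filter (fun b => b ∉ S)).card : ℝ) ≤ B := by
        have := card_le_card hsub
        rw [Nat.card_Icc, Nat.add_sub_cancel] at this
        exact_mod_cast this
      gcongr
  have hPz : (Pz z : ℝ) ≤ κ / 8 * B := by
    rw [div_le_iff₀ hκ0] at hBP
    linarith
  set Q : ℝ := B * m / L with hQ
  have hQ0 : 0 < Q := by positivity
  have hbad2 : θ₀ * ((B + Pz z) * m) / L + B * (2 * η₁ * x / L) ≤ (θ₀ + 3 * κ / 8) * Q := by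
    have h1 : θ₀ * ((B + Pz z) * m) / L ≤ (θ₀ + κ / 8) * Q := by
      have h2 : θ₀ * ((B + Pz z) * m) ≤ (θ₀ + κ / 8) * (B * m) := by
        have h3 : θ₀ * (B + Pz z) ≤ (θ₀ + κ / 8) * B := by
          have h4 : θ₀ * (Pz z : ℝ) ≤ 1 * (κ / 8 * B) :=
            mul_le_mul hθ1.le hPz (by positivity) (by norm_num)
          linarith
        have := mul_le_mul_of_nonneg_right h3 hm0.le
        linarith
      rw [hQ, div_le_iff₀ hL0]
      have e : (θ₀ + κ / 8) * (B * m / L) * L = (θ₀ + κ / 8) * (B * m) := by field_simp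
      rw [e]; exact h2
    have h2 : B * (2 * η₁ * x / L) ≤ κ / 4 * Q := by
      rw [hQ, hη₁]
      have h3 : B * (2 * (δ * κ / 8) * x / L) = κ / 4 * (B * (δ * x) / L) := by ring
      rw [h3]
      gcongr
    linarith
  have hgood : (3 * κ / 8) * Q ≤ ∑ b ∈ (Ioc b0 B).filter (fun b => b ∈ S), N' b := by
    have h1 := sum_filter_add_sum_filter_not (Ioc b0 B) (fun b => b ∈ S) N'
    have h2 : (1 - 9 * η₀) * (B / L) * m = (1 - κ / 4) * Q := by
      rw [hQ, hη₀]; ring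
    rw [h2] at hF
    have h3 : θ₀ = 1 - κ := by rw [hκ]; ring
    have h4 : (1 - κ / 4) * Q - (θ₀ + 3 * κ / 8) * Q = (3 * κ / 8) * Q := by rw [h3]; ring
    linarith
  -- Cauchy-Schwarz
  have hCS : (∑ b ∈ (Ioc b0 B).filter (fun b => b ∈ S), N' b) ^ 2 ≤
      (S.card : ℝ) * (C₂ * (x ^ 2 * (B / Real.log B ^ 2))) := by
    have h1 := sum_mul_sq_le_sq_mul_sq ((Ioc b0 B).filter (fun b => b ∈ S)) (fun _ => (1 : ℝ)) N'
    simp only [one_mul, one_pow, sum_const, nsmul_eq_mul, mul_one] at h1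
    refine h1.trans ?_
    apply mul_le_mul
    · have : ((Ioc b0 B).filter (fun b => b ∈ S)).card ≤ S.card := by
        apply card_le_card
        intro b hb
        exact (mem_filter.1 hb).2
      exact_mod_cast this
    · refine le_trans ?_ hS
      exact sum_le_sum_of_subset_of_nonneg (filter_subset _ _) fun b _ _ => by positivity
    · exact sum_nonneg fun b _ => by positivity
    · positivity
  have hfin : (3 * κ / 8 * Q) ^ 2 ≤ (S.card : ℝ) * (C₂ * (x ^ 2 * (B / Real.log B ^ 2))) := by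
    refine le_trans ?_ hCS
    exact pow_le_pow_left₀ (by positivity) hgood 2
  have hQlow : B * (δ * x) / (2 * Real.log B) ≤ Q := by
    rw [hQ]
    gcongr
  have hfin2 : (3 * κ / 8 * (B * (δ * x) / (2 * Real.log B))) ^ 2 ≤
      (S.card : ℝ) * (C₂ * (x ^ 2 * (B / Real.log B ^ 2))) := by
    refine le_trans ?_ hfin
    have : 0 < Real.log B := by linarith
    gcongr
  have hlB0 : 0 < Real.log B := by linarith
  have e1 : (3 * κ / 8 * (B * (δ * x) / (2 * Real.log B))) ^ 2 =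
      (9 / 256 * κ ^ 2 * δ ^ 2 * B) * (x ^ 2 * (B / Real.log B ^ 2)) := by
    field_simp
    ring
  rw [e1] at hfin2
  have hpos : 0 < (x : ℝ) ^ 2 * (B / Real.log B ^ 2) := by positivity
  have hfin3 : 9 / 256 * κ ^ 2 * δ ^ 2 * B ≤ S.card * C₂ := by
    have h1 : (S.card : ℝ) * (C₂ * (x ^ 2 * (B / Real.log B ^ 2))) =
        (S.card * C₂) * (x ^ 2 * (B / Real.log B ^ 2)) := by ring
    rw [h1] at hfin2
    exact le_of_mul_le_mul_right hfin2 hpos
  have hfin4 : 9 / 256 * κ ^ 2 * δ ^ 2 / C₂ * B ≤ S.card := by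
    have e2 : 9 / 256 * κ ^ 2 * δ ^ 2 / C₂ * B = (9 / 256 * κ ^ 2 * δ ^ 2 * B) / C₂ := by ring
    rw [e2, div_le_iff₀ hC₂]
    exact hfin3
  have hfin5 : ηf * B ≤ 9 / 256 * κ ^ 2 * δ ^ 2 / C₂ * B := by
    gcongr
    exact min_le_right _ _
  exact hfin5.trans hfin4

end Pool.Agent.W218.HF
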