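import Mathlib
import Pool.Agent.W468.CFLow

set_option autoImplicit false

/-!
The second moment of `∑ ((b^2 - n) / p) / p` over `b`, by complete sums.
-/

namespace Pool.Agent.W218.HF
open Finset
open Pool.Agent.W468.ConjF (sum_range_mul' js_per js_abs sum_inv_sq)

section charsum

variable {F : Type} [Field F] [Fintype F] [DecidableEq F]

theorem sum_char_sq_sub (hF : ringChar F ≠ 2) {c : F} (hc : c ≠ 0) :
    ∑ x : F, quadraticChar F (x ^ 2 - c) = -1 := by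
  have h1 : ∑ x : F, quadraticChar F (x ^ 2 - c)
      = ∑ y : F, (quadraticChar F y + 1) * quadraticChar F (y - c) := by
    rw [← Finset.sum_fiberwise (s := Finset.univ) (g := fun x : F => x ^ 2)]
    refine Finset.sum_congr rfl fun y _ => ?_
    rw [← quadraticChar_card_sqrts hF y]
    rw [Finset.sum_congr (g := fun _ => quadraticChar F (y - c)) rfl]
    · rw [Finset.sum_const, nsmul_eq_mul]
      congr 2
      have : ({x : F | x ^ 2 = y} : Set F).toFinset = Finset.univ.filter (fun x : F => x ^ 2 = y) := by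
        ext x; simp
      rw [this]
    · intro x hx
      simp only [Finset.mem_filter, Finset.mem_univ, true_and] at hx
      rw [hx]
  rw [h1]
  simp only [add_mul, one_mul, Finset.sum_add_distrib]
  have h2 : ∑ y : F, quadraticChar F (y - c) = 0 := by
    rw [← quadraticChar_sum_zero hF]
    exact Equiv.sum_comp (Equiv.subRight c) (fun y => quadraticChar F y)
  have h3 : ∑ y : F, quadraticChar F y * quadraticChar F (y - c) = -1 := by
    rw [← Equiv.sum_comp (Equiv.mulLeft₀ c hc)]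
    have hneg : quadraticChar F (-1) * quadraticChar F (-1) = 1 := by
      rw [← map_mul]; simp
    have h4 : ∀ z : F, quadraticChar F (Equiv.mulLeft₀ c hc z) * quadraticChar F (Equiv.mulLeft₀ c hc z - c)
        = quadraticChar F (-1) * (quadraticChar F z * quadraticChar F (1 - z)) := by
      intro z
      simp only [Equiv.mulLeft₀_apply]
      have h5 : quadraticChar F c * quadraticChar F c = 1 := by
        rw [← sq]; exact quadraticChar_sq_one hc
      have h6 : c * z - c = c * (-1 * (1 - z)) := by ring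
      rw [h6, map_mul, map_mul, map_mul]
      linear_combination (quadraticChar F z * quadraticChar F (-1) * quadraticChar F (1 - z)) * h5
    simp only [h4]
    rw [← Finset.mul_sum]
    have h7 := jacobiSum_nontrivial_inv (quadraticChar_ne_one hF)
    rw [(quadraticChar_isQuadratic F).inv] at h7
    unfold jacobiSum at h7
    rw [h7]
    linear_combination (-1) * hneg
  rw [h2, h3]
  norm_num

end charsum

/-- periodic function -/
lemma periodic_sum' (F : ℕ → ℝ) (m : ℕ) (hm : 0 < m) (hF : ∀ x, |F x| ≤ 1) (hper : ∀ x, F (x + m) = F x)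
    (S : ℝ) (h0 : ∑ x ∈ range m, F x = S) (hS : |S| ≤ 1) (N : ℕ) : |∑ x ∈ range N, F x| ≤ N / m + m := by
  have hper' : ∀ q x, F (m * q + x) = F x := by
    intro q
    induction q with
    | zero => intro x; simp
    | succ q ih => intro x; rw [show m * (q + 1) + x = (m * q + x) + m by ring, hper, ih]
  have h1 : ∀ q : ℕ, ∑ d ∈ range (m * q), F d = q * S := by
    intro q
    induction q with
    | zero => simp
    | succ q ih =>
      rw [Nat.mul_succ, Finset.sum_range_add, ih]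
      simp_rw [hper']
      rw [h0]
      push_cast
      ring
  have e : ∑ x ∈ range N, F x = ∑ x ∈ range (m * (N / m) + N % m), F x := by rw [Nat.div_add_mod N m]
  rw [e, Finset.sum_range_add, h1]
  simp_rw [hper']
  refine (abs_add_le _ _).trans ?_
  apply add_le_add
  · rw [abs_mul, Nat.abs_cast]
    have h2 : ((N / m : ℕ) : ℝ) ≤ N / m := Nat.cast_div_le
    calc ((N / m : ℕ) : ℝ) * |S| ≤ ((N / m : ℕ) : ℝ) * 1 := mul_le_mul_of_nonneg_left hS (by positivity)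
      _ ≤ N / m := by rw [mul_one]; exact h2
  · calc |∑ d ∈ range (N % m), F d| ≤ ∑ d ∈ range (N % m), |F d| := abs_sum_le_sum_abs _ _
      _ ≤ ∑ d ∈ range (N % m), (1 : ℝ) := sum_le_sum fun d _ => hF d
      _ = ((N % m : ℕ) : ℝ) := by simp
      _ ≤ m := by exact_mod_cast (Nat.mod_lt _ hm).le

/-- a complete quadratic sum -/
lemma quad_sum (q : ℕ) (hqp : q.Prime) (hq : q ≠ 2) (n α β : ℤ) (hβ : ¬ (q : ℤ) ∣ β) (hn : ¬ (q : ℤ) ∣ n) :
    ∑ v ∈ range q, jacobiSym ((α + β * v) ^ 2 - n) q = -1 := by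
  have : Fact q.Prime := ⟨hqp⟩
  have h1 : ∀ v : ℕ, jacobiSym ((α + β * v) ^ 2 - n) q =
      quadraticChar (ZMod q) (((α : ZMod q) + β * (v : ZMod q)) ^ 2 - n) := by
    intro v
    rw [← jacobiSym.legendreSym.to_jacobiSym, legendreSym]
    push_cast
    rfl
  simp_rw [h1]
  have h2 : ∑ v ∈ range q, quadraticChar (ZMod q) (((α : ZMod q) + β * (v : ZMod q)) ^ 2 - n) =
      ∑ y : ZMod q, quadraticChar (ZMod q) (((α : ZMod q) + β * y) ^ 2 - n) := by
    symm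
    refine Finset.sum_bij' (fun a _ => a.val) (fun d _ => (d : ZMod q)) ?_ ?_ ?_ ?_ ?_
    · intro a _; exact mem_range.2 (ZMod.val_lt a)
    · intro d _; exact mem_univ _
    · intro a _; exact ZMod.natCast_zmod_val a
    · intro d hd; exact ZMod.val_cast_of_lt (mem_range.1 hd)
    · intro a _; rw [ZMod.natCast_zmod_val]
  rw [h2]
  have hβ' : (β : ZMod q) ≠ 0 := by
    rw [Ne, ZMod.intCast_zmod_eq_zero_iff_dvd]; exact hβ
  have hn' : (n : ZMod q) ≠ 0 := by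
    rw [Ne, ZMod.intCast_zmod_eq_zero_iff_dvd]; exact hn
  have hb : Function.Bijective (fun y : ZMod q => (α : ZMod q) + β * y) := by
    constructor
    · intro y y' h
      exact mul_left_cancel₀ hβ' (add_left_cancel h)
    · intro w
      refine ⟨(w - α) * (β : ZMod q)⁻¹, ?_⟩
      field_simp
      ring
  rw [hb.sum_comp (fun y => quadraticChar (ZMod q) (y ^ 2 - n))]
  apply sum_char_sq_sub _ hn'
  rw [ZMod.ringChar_zmod_n]
  exact hq

/-- the complete sum for two primes -/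
lemma quad_pair (p q : ℕ) (hp : p.Prime) (hq : q.Prime) (hp2 : p ≠ 2) (hq2 : q ≠ 2) (hpq : p ≠ q) (n : ℤ)
    (hpn : ¬ (p : ℤ) ∣ n) (hqn : ¬ (q : ℤ) ∣ n) :
    ∑ c ∈ range (p * q), jacobiSym ((c : ℤ) ^ 2 - n) p * jacobiSym ((c : ℤ) ^ 2 - n) q = 1 := by
  rw [sum_range_mul' (fun c => jacobiSym ((c : ℤ) ^ 2 - n) p * jacobiSym ((c : ℤ) ^ 2 - n) q), sum_comm]
  have h0 : ∀ u ∈ range p, ∑ v ∈ range q, jacobiSym (((p * v + u : ℕ) : ℤ) ^ 2 - n) p * jacobiSym (((p * v + u : ℕ) : ℤ) ^ 2 - n) q =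
      - jacobiSym ((0 + 1 * (u : ℤ)) ^ 2 - n) p := by
    intro u _
    have h1 : ∀ v ∈ range q, jacobiSym (((p * v + u : ℕ) : ℤ) ^ 2 - n) p * jacobiSym (((p * v + u : ℕ) : ℤ) ^ 2 - n) q =
        jacobiSym ((u : ℤ) ^ 2 - n) p * jacobiSym (((u : ℤ) + p * v) ^ 2 - n) q := by
      intro v _
      have e1 : ((p * v + u : ℕ) : ℤ) ^ 2 - n = ((u : ℤ) ^ 2 - n) + p * (p * v ^ 2 + 2 * u * v) := by push_cast; ring
      have e2 : ((p * v + u : ℕ) : ℤ) ^ 2 - n = ((u : ℤ) + p * v) ^ 2 - n := by push_cast; ring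
      rw [← e2, e1, js_per]
    rw [sum_congr rfl h1, ← mul_sum, quad_sum q hq hq2 n _ _ _ hqn]
    · rw [zero_add, one_mul]; ring
    · intro h2
      have := (Nat.prime_dvd_prime_iff_eq hq hp).1 (by exact_mod_cast h2)
      exact hpq this.symm
  rw [sum_congr rfl h0, sum_neg_distrib, quad_sum p hp hp2 n 0 1 _ hpn]
  · norm_num
  · intro h
    have := Int.le_of_dvd (by norm_num) h
    have := hp.two_le
    omega

theorem second_moment_b (n : ℤ) (P : Finset ℕ) (z Z H : ℕ) (hz : 1 ≤ z)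
    (hP : ∀ p ∈ P, p.Prime ∧ p ≠ 2 ∧ z < p ∧ p ≤ Z ∧ ¬ (p : ℤ) ∣ n) :
    ∑ c ∈ range H, (∑ p ∈ P, (jacobiSym ((c : ℤ) ^ 2 - n) p : ℝ) / p) ^ 2 ≤ 2 * (H / z) + (Z : ℝ) ^ 2 := by
  classical
  have h1 : ∑ c ∈ range H, (∑ p ∈ P, (jacobiSym ((c : ℤ) ^ 2 - n) p : ℝ) / p) ^ 2 =
      ∑ p ∈ P, ∑ q ∈ P, (∑ c ∈ range H, (jacobiSym ((c : ℤ) ^ 2 - n) p : ℝ) * (jacobiSym ((c : ℤ) ^ 2 - n) q : ℝ)) / (p * q) := by
    simp_rw [sq (∑ p ∈ P, _), sum_mul_sum]
    rw [sum_comm]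
    apply sum_congr rfl
    intro p _
    rw [sum_comm]
    apply sum_congr rfl
    intro q _
    rw [sum_div]
    apply sum_congr rfl
    intro c _
    rw [div_mul_div_comm]
  rw [h1]
  have h2 : ∀ p ∈ P, ∀ q ∈ P, (∑ c ∈ range H, (jacobiSym ((c : ℤ) ^ 2 - n) p : ℝ) * (jacobiSym ((c : ℤ) ^ 2 - n) q : ℝ)) / (p * q) ≤
      (if p = q then (H : ℝ) * (1 / (p : ℝ) ^ 2) else 0) + ((H : ℝ) * ((1 / (p : ℝ) ^ 2) * (1 / (q : ℝ) ^ 2)) + 1) := by
    intro p hp q hq
    obtain ⟨hpp, hp2, hzp, hpZ, hpβ⟩ := hP p hp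
    obtain ⟨hqp, hq2, hzq, hqZ, hqβ⟩ := hP q hq
    have hp0 : (0 : ℝ) < p := by exact_mod_cast hpp.pos
    have hq0 : (0 : ℝ) < q := by exact_mod_cast hqp.pos
    by_cases hpq : p = q
    · subst hpq
      rw [if_pos rfl]
      have h3 : ∑ c ∈ range H, (jacobiSym ((c : ℤ) ^ 2 - n) p : ℝ) * (jacobiSym ((c : ℤ) ^ 2 - n) p : ℝ) ≤ H := by
        calc ∑ c ∈ range H, (jacobiSym ((c : ℤ) ^ 2 - n) p : ℝ) * (jacobiSym ((c : ℤ) ^ 2 - n) p : ℝ) ≤ ∑ c ∈ range H, (1 : ℝ) := by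
              apply sum_le_sum
              intro c _
              rw [← sq, sq_le_one_iff_abs_le_one]
              exact js_abs _ _
          _ = H := by simp
      have h4 : (∑ c ∈ range H, (jacobiSym ((c : ℤ) ^ 2 - n) p : ℝ) * (jacobiSym ((c : ℤ) ^ 2 - n) p : ℝ)) / (p * p) ≤
          (H : ℝ) * (1 / (p : ℝ) ^ 2) := by
        rw [mul_one_div, sq]
        exact div_le_div_of_nonneg_right h3 (by positivity)
      have h5 : 0 ≤ (H : ℝ) * ((1 / (p : ℝ) ^ 2) * (1 / (p : ℝ) ^ 2)) := by positivity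
      linarith
    · rw [if_neg hpq, zero_add]
      have h3 := periodic_sum' (fun c => (jacobiSym ((c : ℤ) ^ 2 - n) p : ℝ) * (jacobiSym ((c : ℤ) ^ 2 - n) q : ℝ)) (p * q)
        (Nat.mul_pos hpp.pos hqp.pos) ?_ ?_ 1 ?_ (by norm_num) H
      · push_cast at h3
        rw [div_le_iff₀ (by positivity)]
        refine (le_abs_self _).trans (h3.trans (le_of_eq ?_))
        field_simp
      · intro x
        rw [abs_mul]
        exact mul_le_one₀ (js_abs _ _) (abs_nonneg _) (js_abs _ _)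
      · intro x
        have e1 : ((x + p * q : ℕ) : ℤ) ^ 2 - n = ((x : ℤ) ^ 2 - n) + p * (q * (2 * x + p * q)) := by push_cast; ring
        have e2 : ((x + p * q : ℕ) : ℤ) ^ 2 - n = ((x : ℤ) ^ 2 - n) + q * (p * (2 * x + p * q)) := by push_cast; ring
        have e3 : jacobiSym (((x + p * q : ℕ) : ℤ) ^ 2 - n) p = jacobiSym ((x : ℤ) ^ 2 - n) p := by rw [e1, js_per]
        have e4 : jacobiSym (((x + p * q : ℕ) : ℤ) ^ 2 - n) q = jacobiSym ((x : ℤ) ^ 2 - n) q := by rw [e2, js_per]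
        simp only [e3, e4]
      · have h4 := quad_pair p q hpp hqp hp2 hq2 hpq n hpβ hqβ
        exact_mod_cast h4
  calc ∑ p ∈ P, ∑ q ∈ P, (∑ c ∈ range H, (jacobiSym ((c : ℤ) ^ 2 - n) p : ℝ) * (jacobiSym ((c : ℤ) ^ 2 - n) q : ℝ)) / (p * q)
      ≤ ∑ p ∈ P, ∑ q ∈ P, ((if p = q then (H : ℝ) * (1 / (p : ℝ) ^ 2) else 0) +
          ((H : ℝ) * ((1 / (p : ℝ) ^ 2) * (1 / (q : ℝ) ^ 2)) + 1)) :=
        sum_le_sum fun p hp => sum_le_sum fun q hq => h2 p hp q hq
    _ = (H : ℝ) * ∑ p ∈ P, 1 / (p : ℝ) ^ 2 + ((H : ℝ) * (∑ p ∈ P, 1 / (p : ℝ) ^ 2) ^ 2 + (#P : ℝ) ^ 2) := by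
        simp_rw [sum_add_distrib]
        congr 1
        · rw [mul_sum]
          apply sum_congr rfl
          intro p hp
          rw [sum_ite_eq, if_pos hp]
        · congr 1
          · rw [sq (∑ p ∈ P, _), sum_mul_sum, mul_sum]
            apply sum_congr rfl
            intro p _
            rw [mul_sum]
          · simp [sq]
    _ ≤ 2 * (H / z) + (Z : ℝ) ^ 2 := by
        have hsub : P ⊆ Ioc z Z := by
          intro p hp
          rw [mem_Ioc]
          exact ⟨(hP p hp).2.2.1, (hP p hp).2.2.2.1⟩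
        have hcard : (#P : ℝ) ≤ Z := by
          have := card_le_card hsub
          rw [Nat.card_Ioc] at this
          exact_mod_cast this.trans (Nat.sub_le _ _)
        have hz1 : (1 : ℝ) ≤ z := by exact_mod_cast hz
        have h5 : ∑ p ∈ P, 1 / (p : ℝ) ^ 2 ≤ 1 / (z : ℝ) := by
          rcases P.eq_empty_or_nonempty with h | ⟨p, hp⟩
          · rw [h, sum_empty]; positivity
          · have hzZ : z ≤ Z := by
              have := hP p hp
              omega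
            calc ∑ p ∈ P, 1 / (p : ℝ) ^ 2 ≤ ∑ n ∈ Ioc z Z, 1 / (n : ℝ) ^ 2 :=
                  sum_le_sum_of_subset_of_nonneg hsub (fun _ _ _ => by positivity)
              _ ≤ 1 / (z : ℝ) - 1 / (Z : ℝ) := sum_inv_sq z Z hz hzZ
              _ ≤ 1 / (z : ℝ) := by
                  have : (0 : ℝ) ≤ 1 / (Z : ℝ) := by positivity
                  linarith
        have h50 : 0 ≤ ∑ p ∈ P, 1 / (p : ℝ) ^ 2 := sum_nonneg fun _ _ => by positivity
        have h51 : 1 / (z : ℝ) ≤ 1 := by rw [div_le_one (by linarith)]; exact hz1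
        have h6 : (H : ℝ) * ∑ p ∈ P, 1 / (p : ℝ) ^ 2 ≤ H * (1 / (z : ℝ)) := mul_le_mul_of_nonneg_left h5 (by positivity)
        have h8 : (∑ p ∈ P, 1 / (p : ℝ) ^ 2) ^ 2 ≤ 1 / (z : ℝ) := by
          calc (∑ p ∈ P, 1 / (p : ℝ) ^ 2) ^ 2 = (∑ p ∈ P, 1 / (p : ℝ) ^ 2) * (∑ p ∈ P, 1 / (p : ℝ) ^ 2) := sq _
            _ ≤ (1 / (z : ℝ)) * 1 := mul_le_mul h5 (h5.trans h51) h50 (by positivity)
            _ = 1 / (z : ℝ) := mul_one _
        have h9 : (H : ℝ) * (∑ p ∈ P, 1 / (p : ℝ) ^ 2) ^ 2 ≤ H * (1 / (z : ℝ)) := mul_le_mul_of_nonneg_left h8 (by positivity)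
        have h7 : (#P : ℝ) ^ 2 ≤ (Z : ℝ) ^ 2 := pow_le_pow_left₀ (by positivity) hcard 2
        rw [mul_one_div] at h6 h9
        linarith

/-- few `b` with a large sum -/
theorem low_count_b (n : ℤ) (P : Finset ℕ) (z Z H : ℕ) (hz : 1 ≤ z)
    (hP : ∀ p ∈ P, p.Prime ∧ p ≠ 2 ∧ z < p ∧ p ≤ Z ∧ ¬ (p : ℤ) ∣ n) (τ : ℝ) (hτ : 0 < τ) :
    (#((range H).filter (fun c : ℕ => τ < |∑ p ∈ P, (jacobiSym ((c : ℤ) ^ 2 - n) p : ℝ) / p|)) : ℝ) ≤
      (2 * (H / z) + (Z : ℝ) ^ 2) / τ ^ 2 := by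
  rw [le_div_iff₀ (by positivity)]
  refine le_trans ?_ (second_moment_b n P z Z H hz hP)
  calc (#((range H).filter (fun c : ℕ => τ < |∑ p ∈ P, (jacobiSym ((c : ℤ) ^ 2 - n) p : ℝ) / p|)) : ℝ) * τ ^ 2
      = ∑ c ∈ (range H).filter (fun c : ℕ => τ < |∑ p ∈ P, (jacobiSym ((c : ℤ) ^ 2 - n) p : ℝ) / p|), τ ^ 2 := by
        rw [sum_const, nsmul_eq_mul]
    _ ≤ ∑ c ∈ (range H).filter (fun c : ℕ => τ < |∑ p ∈ P, (jacobiSym ((c : ℤ) ^ 2 - n) p : ℝ) / p|),
        (∑ p ∈ P, (jacobiSym ((c : ℤ) ^ 2 - n) p : ℝ) / p) ^ 2 := by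
        apply sum_le_sum
        intro c hc
        rw [mem_filter] at hc
        rw [← sq_abs (∑ p ∈ P, (jacobiSym ((c : ℤ) ^ 2 - n) p : ℝ) / p)]
        exact pow_le_pow_left₀ hτ.le hc.2.le 2
    _ ≤ _ := sum_le_sum_of_subset_of_nonneg (filter_subset _ _) (fun _ _ _ => sq_nonneg _)

end Pool.Agent.W218.HF
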