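import Mathlib
import Pool.Agent.W468.CFMid

set_option autoImplicit false

/-!
Few `b` are such that `b^2 - n` has a given kernel.
-/

namespace Pool.Agent.W218.HF
open Finset
open Pool.Agent.W468.ConjF
open Pool.Agent.H307R2.OP (J PB)

/-- the gap principle for `b^2 - n = d s^2` -/
lemma pell_gap (n d b₁ b₂ s₁ s₂ : ℤ) (hn : n ≠ 0) (h₁ : |n| < b₁) (h12 : b₁ < b₂) (hs₁ : 0 ≤ s₁) (hs₂ : 0 ≤ s₂)
    (e₁ : b₁ ^ 2 - n = d * s₁ ^ 2) (e₂ : b₂ ^ 2 - n = d * s₂ ^ 2) (hb : n ∣ b₁ - b₂) (hs : n ∣ s₁ - s₂) :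
    2 * b₁ ^ 2 ≤ b₂ ^ 2 := by
  have hn0 : 0 < |n| := abs_pos.2 hn
  have hn1 : n ≤ |n| := le_abs_self n
  have hn2 : -|n| ≤ n := neg_abs_le n
  have hb₁ : 0 < b₁ := by linarith
  have hD₁ : 0 < d * s₁ ^ 2 := by rw [← e₁]; nlinarith
  have hs₁' : 0 < s₁ := by
    rcases hs₁.lt_or_eq with h | h
    · exact h
    · rw [← h] at hD₁; simp at hD₁
  have hd : 0 < d := by
    by_contra hcon
    push Not at hcon
    have : d * s₁ ^ 2 ≤ 0 := mul_nonpos_of_nonpos_of_nonneg hcon (by positivity)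
    linarith
  have hs12 : s₁ < s₂ := by
    by_contra hcon
    push Not at hcon
    have h1 : s₂ ^ 2 ≤ s₁ ^ 2 := pow_le_pow_left₀ hs₂ hcon 2
    have h2 : d * s₂ ^ 2 ≤ d * s₁ ^ 2 := mul_le_mul_of_nonneg_left h1 hd.le
    nlinarith
  have hs₂' : 0 < s₂ := by linarith
  have hd2 : 2 ≤ d := by
    by_contra hcon
    have hd1 : d = 1 := by omega
    rw [hd1, one_mul] at e₁
    have h1 : n = (b₁ - s₁) * (b₁ + s₁) := by linarith
    have h2 : b₁ - s₁ ≠ 0 := by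
      intro h; rw [h, zero_mul] at h1; exact hn h1
    have h3 : |n| = |b₁ - s₁| * |b₁ + s₁| := by rw [h1, abs_mul]
    have h4 : 1 ≤ |b₁ - s₁| := Int.one_le_abs h2
    have h5 : |b₁ + s₁| = b₁ + s₁ := abs_of_pos (by linarith)
    rw [h5] at h3
    nlinarith
  -- the determinant
  set N := b₁ * s₂ - b₂ * s₁ with hN
  have key : N * (b₁ * s₂ + b₂ * s₁) = n * (s₂ ^ 2 - s₁ ^ 2) := by
    have h1 : b₁ ^ 2 = n + d * s₁ ^ 2 := by linarith
    have h2 : b₂ ^ 2 = n + d * s₂ ^ 2 := by linarith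
    calc N * (b₁ * s₂ + b₂ * s₁) = b₁ ^ 2 * s₂ ^ 2 - b₂ ^ 2 * s₁ ^ 2 := by rw [hN]; ring
      _ = n * (s₂ ^ 2 - s₁ ^ 2) := by rw [h1, h2]; ring
  have hsq : 0 < s₂ ^ 2 - s₁ ^ 2 := by nlinarith
  have hN0 : N ≠ 0 := by
    intro h
    rw [h, zero_mul] at key
    rcases mul_eq_zero.1 key.symm with h1 | h1
    · exact hn h1
    · linarith
  have hdvd : n ∣ N := by
    have e : N = b₁ * -(s₁ - s₂) + s₁ * (b₁ - b₂) := by rw [hN]; ring
    rw [e]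
    exact dvd_add (Dvd.dvd.mul_left ((dvd_neg).2 hs) _) (Dvd.dvd.mul_left hb _)
  have hle : |n| ≤ |N| := Int.le_of_dvd (abs_pos.2 hN0) ((abs_dvd_abs _ _).2 hdvd)
  have hpos : 0 < b₁ * s₂ + b₂ * s₁ := by
    have := mul_pos hb₁ hs₂'
    have := mul_pos (hb₁.trans h12) hs₁'
    linarith
  have h3 : |N| * (b₁ * s₂ + b₂ * s₁) = |n| * (s₂ ^ 2 - s₁ ^ 2) := by
    rw [← abs_of_pos hpos, ← abs_mul, key, abs_mul, abs_of_pos hsq]
  have h4 : |n| * (b₁ * s₂ + b₂ * s₁) ≤ |n| * (s₂ ^ 2 - s₁ ^ 2) := by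
    rw [← h3]; exact mul_le_mul_of_nonneg_right hle hpos.le
  have h5 : b₁ * s₂ + b₂ * s₁ ≤ s₂ ^ 2 - s₁ ^ 2 := le_of_mul_le_mul_left h4 hn0
  have h6 : b₁ < s₂ := by
    by_contra hcon
    push Not at hcon
    have h7 : s₂ * s₂ ≤ b₁ * s₂ := mul_le_mul_of_nonneg_right hcon hs₂
    have h8 := mul_pos (hb₁.trans h12) hs₁'
    nlinarith
  have h7 : (b₁ + 1) ^ 2 ≤ s₂ ^ 2 := pow_le_pow_left₀ (by linarith) (by linarith) 2
  have h8 : 2 * s₂ ^ 2 ≤ d * s₂ ^ 2 := mul_le_mul_of_nonneg_right hd2 (by positivity)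
  nlinarith

open Classical in
/-- few solutions of `b^2 - n = d s^2` -/
lemma pell_count (n d : ℤ) (hn : n ≠ 0) (B : ℕ) :
    #((Icc 1 B).filter (fun b : ℕ => ∃ s : ℕ, (b : ℤ) ^ 2 - n = d * (s : ℤ) ^ 2)) ≤
      n.natAbs + n.natAbs ^ 2 * (2 * (Nat.log 2 B + 1)) := by
  set m := n.natAbs with hm
  have hm0 : 0 < m := Int.natAbs_pos.2 hn
  set S := (Icc 1 B).filter (fun b : ℕ => ∃ s : ℕ, (b : ℤ) ^ 2 - n = d * (s : ℤ) ^ 2) with hS
  have hch : ∀ b : ℕ, ∃ s : ℕ, b ∈ S → (b : ℤ) ^ 2 - n = d * (s : ℤ) ^ 2 := by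
    intro b
    by_cases h : b ∈ S
    · rw [hS, mem_filter] at h
      obtain ⟨s, hs⟩ := h.2
      exact ⟨s, fun _ => hs⟩
    · exact ⟨0, fun h' => absurd h' h⟩
  choose σ hσ using hch
  have hsplit : S ⊆ Icc 1 m ∪ S.filter (fun b => m < b) := by
    intro b hb
    rw [mem_union, mem_filter, mem_Icc]
    have h1 : 1 ≤ b := (mem_Icc.1 (mem_filter.1 hb).1).1
    by_cases h : m < b
    · exact Or.inr ⟨hb, h⟩
    · exact Or.inl ⟨h1, by omega⟩
  have hlog : ∀ b : ℕ, 1 ≤ b → b ≤ B → Nat.log 2 (b ^ 2) < 2 * (Nat.log 2 B + 1) := by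
    intro b h1 h2
    apply Nat.log_lt_of_lt_pow (by positivity)
    have h3 : b < 2 ^ (Nat.log 2 b + 1) := Nat.lt_pow_succ_log_self (by norm_num) b
    calc b ^ 2 < (2 ^ (Nat.log 2 b + 1)) ^ 2 := Nat.pow_lt_pow_left h3 (by norm_num)
      _ = 2 ^ (2 * (Nat.log 2 b + 1)) := by rw [← pow_mul]; ring_nf
      _ ≤ 2 ^ (2 * (Nat.log 2 B + 1)) := by
          apply Nat.pow_le_pow_right (by norm_num)
          have := Nat.log_mono_right (b := 2) h2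
          omega
  have hinj : #(S.filter (fun b => m < b)) ≤ #(range (2 * (Nat.log 2 B + 1)) ×ˢ range m ×ˢ range m) := by
    apply card_le_card_of_injOn (fun b => (Nat.log 2 (b ^ 2), b % m, σ b % m))
    · intro b hb
      rw [mem_coe, mem_filter] at hb
      have hb2 := mem_Icc.1 (mem_filter.1 hb.1).1
      simp only [coe_product, Set.mem_prod, mem_coe, mem_range]
      exact ⟨hlog b hb2.1 hb2.2, Nat.mod_lt _ hm0, Nat.mod_lt _ hm0⟩
    · have aux : ∀ b₁ b₂ : ℕ, b₁ ∈ S → b₂ ∈ S → m < b₁ → b₁ < b₂ → b₁ % m = b₂ % m → σ b₁ % m = σ b₂ % m →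
          Nat.log 2 (b₁ ^ 2) ≠ Nat.log 2 (b₂ ^ 2) := by
        intro b₁ b₂ hb₁ hb₂ h1 h2 h3 h4 h5
        have e₁ := hσ b₁ hb₁
        have e₂ := hσ b₂ hb₂
        have hnm : |n| = (m : ℤ) := by rw [hm]; exact (Int.natCast_natAbs n).symm
        have d1 : n ∣ (b₁ : ℤ) - b₂ := by
          rw [← abs_dvd, hnm]
          apply Int.ModEq.dvd
          show (b₂ : ℤ) % m = (b₁ : ℤ) % m
          exact_mod_cast h3.symm
        have d2 : n ∣ (σ b₁ : ℤ) - σ b₂ := by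
          rw [← abs_dvd, hnm]
          apply Int.ModEq.dvd
          show (σ b₂ : ℤ) % m = (σ b₁ : ℤ) % m
          exact_mod_cast h4.symm
        have h6 := pell_gap n d b₁ b₂ (σ b₁) (σ b₂) hn (by rw [hnm]; exact_mod_cast h1) (by exact_mod_cast h2)
          (by positivity) (by positivity) e₁ e₂ d1 d2
        have h7 : 2 * b₁ ^ 2 ≤ b₂ ^ 2 := by exact_mod_cast h6
        have h8 : Nat.log 2 (b₁ ^ 2 * 2) = Nat.log 2 (b₁ ^ 2) + 1 :=
          Nat.log_mul_base (by norm_num) (by have : 0 < b₁ := by omega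
                                             positivity)
        have h9 := Nat.log_mono_right (b := 2) h7
        rw [mul_comm 2 (b₁ ^ 2), h8] at h9
        omega
      intro b₁ hb₁ b₂ hb₂ h
      rw [mem_coe, mem_filter] at hb₁ hb₂
      simp only [Prod.mk.injEq] at h
      rcases lt_trichotomy b₁ b₂ with hlt | heq | hgt
      · exact absurd h.1 (aux b₁ b₂ hb₁.1 hb₂.1 hb₁.2 hlt h.2.1 h.2.2)
      · exact heq
      · exact absurd h.1.symm (aux b₂ b₁ hb₂.1 hb₁.1 hb₂.2 hgt h.2.1.symm h.2.2.symm)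
  rw [card_product, card_product, card_range, card_range] at hinj
  calc #S ≤ #(Icc 1 m ∪ S.filter (fun b => m < b)) := card_le_card hsplit
    _ ≤ #(Icc 1 m) + #(S.filter (fun b => m < b)) := card_union_le _ _
    _ ≤ m + 2 * (Nat.log 2 B + 1) * (m * m) := by
        apply add_le_add _ hinj
        rw [Nat.card_Icc]; omega
    _ = m + m ^ 2 * (2 * (Nat.log 2 B + 1)) := by ring

/-- all but few `b` are good on all blocks -/
theorem mid_count_b (n : ℤ) (hn : n ≠ 0) (H Δ i0 I m : ℕ)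
    (hΔ : ∀ b ∈ Icc 1 H, ((b : ℤ) ^ 2 - n).natAbs ≤ Δ) (hi0 : 1 ≤ i0) (hm : 1 ≤ m)
    (hΔ3 : Δ ^ 3 ≤ (2 * 2 ^ i0) ^ m) :
    ∃ E : Finset ℕ, (#E : ℝ) ≤ (4 * ((I : ℝ) * (8 * (2 * m * (I : ℝ) ^ 4) ^ m)) + 1) *
        (n.natAbs + (n.natAbs : ℝ) ^ 2 * (2 * (Nat.log 2 H + 1))) ∧
      ∀ b ∈ Icc 1 H, b ∉ E → ¬ IsSquare ((b : ℤ) ^ 2 - n) ∧ ∀ i ∈ Icc i0 I,
        |∑ p ∈ Blk i, (jacobiSym ((b : ℤ) ^ 2 - n) p : ℝ) / p| ≤
          4 * (1 / (i : ℝ) ^ 2) + 4 * (Nat.log 2 Δ / 2 ^ i) := by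
  classical
  set Sol : ℤ → Finset ℕ := fun d => (Icc 1 H).filter (fun b : ℕ => ∃ s : ℕ, (b : ℤ) ^ 2 - n = d * (s : ℤ) ^ 2) with hSol
  set T := ({1, -1, 2, -2} : Finset ℤ) ×ˢ BadK Δ i0 I with hT
  set E := Sol 1 ∪ T.biUnion (fun t => Sol (t.1 * t.2)) with hE
  have hSc : ∀ d, (#(Sol d) : ℝ) ≤ n.natAbs + (n.natAbs : ℝ) ^ 2 * (2 * (Nat.log 2 H + 1)) := by
    intro d
    exact_mod_cast pell_count n d hn H
  refine ⟨E, ?_, ?_⟩
  · set W : ℝ := n.natAbs + (n.natAbs : ℝ) ^ 2 * (2 * (Nat.log 2 H + 1)) with hW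
    have hW0 : 0 ≤ W := by positivity
    have h2 : #T = 4 * #(BadK Δ i0 I) := by
      rw [hT, card_product, show #({1, -1, 2, -2} : Finset ℤ) = 4 from rfl]
    calc (#E : ℝ) ≤ #(Sol 1) + ∑ t ∈ T, (#(Sol (t.1 * t.2)) : ℝ) := by
          have := (card_union_le (Sol 1) (T.biUnion (fun t => Sol (t.1 * t.2)))).trans
            (Nat.add_le_add_left card_biUnion_le _)
          exact_mod_cast this
      _ ≤ W + ∑ t ∈ T, W := add_le_add (hSc 1) (sum_le_sum fun t _ => hSc _)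
      _ = (4 * (#(BadK Δ i0 I) : ℝ) + 1) * W := by
          rw [sum_const, nsmul_eq_mul, h2]; push_cast; ring
      _ ≤ _ := by
          apply mul_le_mul_of_nonneg_right _ hW0
          have := badK_card Δ i0 I m hi0 hm hΔ3
          linarith
  · intro b hb hbE
    rw [hE, mem_union, not_or] at hbE
    have hns : ¬ IsSquare ((b : ℤ) ^ 2 - n) := by
      rintro ⟨r, hr⟩
      apply hbE.1
      rw [hSol]
      simp only
      rw [mem_filter]
      refine ⟨hb, r.natAbs, ?_⟩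
      rw [hr, one_mul, Int.natCast_natAbs, sq_abs, sq]
    have hD0 : (b : ℤ) ^ 2 - n ≠ 0 := by
      intro h; apply hns; rw [h]; exact ⟨0, by simp⟩
    refine ⟨hns, fun i hi => ?_⟩
    obtain ⟨δ, s, u, hu, hD, hδ1, hδ2⟩ := kernel _ hD0
    rw [mem_Icc] at hi
    refine block_bound _ Δ (hΔ b hb) δ s u hu hD0 hD hδ2 i (by omega) _ ?_
    by_contra hcon
    push Not at hcon
    obtain ⟨r, hr, hrτ⟩ := hcon
    apply hbE.2
    have hab : ((b : ℤ) ^ 2 - n).natAbs = u.natAbs * s ^ 2 * δ := by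
      rw [hD, Int.natAbs_mul, Int.natAbs_mul, Int.natAbs_pow]
      simp
    have hu1 : 1 ≤ u.natAbs := by
      simp only [mem_insert, mem_singleton] at hu
      rcases hu with rfl | rfl | rfl | rfl <;> norm_num
    have hδ0 : 1 ≤ δ := by omega
    have hs0 : s ≠ 0 := by
      rintro rfl
      apply hD0; rw [hD]; simp
    have hle := hΔ b hb
    rw [hab] at hle
    rw [mem_biUnion]
    refine ⟨(u, δ), ?_, ?_⟩
    · rw [hT, mem_product]
      refine ⟨hu, ?_⟩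
      show δ ∈ BadK Δ i0 I
      rw [BadK, mem_filter, mem_range, Nat.lt_succ_iff]
      refine ⟨?_, hδ1, hδ2, i, mem_Icc.2 hi, r, hr, hrτ⟩
      have hs1 : 1 ≤ s ^ 2 := Nat.one_le_pow _ _ (Nat.pos_of_ne_zero hs0)
      calc δ = 1 * 1 * δ := by ring
        _ ≤ u.natAbs * s ^ 2 * δ := by gcongr
        _ ≤ Δ := hle
    · rw [hSol]
      simp only
      rw [mem_filter]
      refine ⟨hb, s, ?_⟩
      rw [hD]; ring

end Pool.Agent.W218.HF
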