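import Mathlib
import Pool.Agent.W468.CFMost
import Pool.Agent.W218.HF.QLow
import Pool.Agent.W218.HF.QMid

set_option autoImplicit false

/-!
For all but few `b`, the constant of Conjecture F is close to its cut product.
-/

namespace Pool.Agent.W218.HF
open Finset Filter Topology
open Pool.Agent.W468.ConjF

/-- all but few `b` have a small tail -/
theorem good_most_b (n : ℤ) (hn : n ≠ 0) (ε η : ℝ) (hε : 0 < ε) (hη : 0 < η) :
    ∃ z₀ : ℕ, ∀ z : ℕ, z₀ ≤ z → ∃ H₀ : ℕ, ∀ H : ℕ, H₀ ≤ H → ∃ E : Finset ℕ, (#E : ℝ) ≤ η * H ∧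
      ∀ b ∈ Icc 1 H, b ∉ E → ¬ IsSquare ((b : ℤ) ^ 2 - n) ∧
        ∀ᶠ N in atTop, |SJ ((b : ℤ) ^ 2 - n) z N| ≤ ε := by
  classical
  set K : ℕ := n.natAbs + 1 with hK
  have hK1 : 1 ≤ K := by omega
  have hKr : (1 : ℝ) ≤ K := by exact_mod_cast hK1
  obtain ⟨n₁, hn₁⟩ := tail 802
  obtain ⟨m₁, hm₁⟩ := ev_small K (ε / 6) (by positivity)
  obtain ⟨m₂, hm₂⟩ := ev_log (ε / 3) (by positivity)
  refine ⟨max (max 2 n.natAbs) ⌈90 / (η * ε ^ 2)⌉₊, fun z hz => ?_⟩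
  have hz2 : 2 ≤ z := ((le_max_left _ _).trans (le_max_left _ _)).trans hz
  have hza : n.natAbs ≤ z := ((le_max_right _ _).trans (le_max_left _ _)).trans hz
  have hzε : 90 / (η * ε ^ 2) ≤ z := (Nat.le_ceil _).trans (by exact_mod_cast (le_max_right _ _).trans hz)
  have hz0 : (0 : ℝ) < z := by exact_mod_cast (by omega : 0 < z)
  have hev : ∀ᶠ H : ℕ in atTop, (max (max 2 m₁) (max z (K ^ 3))) ≤ Nat.log 2 H / 3 ∧
      (1950 * (K : ℝ) ^ 2 * 608 ^ 19 / η) ≤ (H : ℝ) ^ ((1 : ℝ) / 200) ∧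
      ((max (max n₁ m₂) (4 * K + 3) : ℕ) : ℝ) ≤ (H : ℝ) ^ ((1 : ℝ) / 200) ∧
      ((Nat.log 2 H / 3 : ℕ) : ℝ) ≤ (H : ℝ) ^ ((1 : ℝ) / 200) ∧ 1 ≤ H := by
    filter_upwards [ev_i0 (max (max 2 m₁) (max z (K ^ 3))), ev_t (1950 * (K : ℝ) ^ 2 * 608 ^ 19 / η),
      ev_t ((max (max n₁ m₂) (4 * K + 3) : ℕ) : ℝ), ev_logt, eventually_ge_atTop 1] with H h1 h2 h3 h4 h5
    exact ⟨h1, h2, h3, h4, h5⟩
  obtain ⟨H₀, hH₀⟩ := eventually_atTop.1 hev
  refine ⟨H₀, fun H hH => ?_⟩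
  obtain ⟨c1, c2, c3, c4, c5⟩ := hH₀ H hH
  set i0 := Nat.log 2 H / 3 with hi0
  set t : ℝ := (H : ℝ) ^ ((1 : ℝ) / 200) with ht
  set I := ⌈t⌉₊ with hI
  have hH0 : (1 : ℝ) ≤ H := by exact_mod_cast c5
  have hi2 : 2 ≤ i0 := ((le_max_left _ _).trans (le_max_left _ _)).trans c1
  have him : m₁ ≤ i0 := ((le_max_right _ _).trans (le_max_left _ _)).trans c1
  have hiz : z ≤ i0 := ((le_max_left _ _).trans (le_max_right _ _)).trans c1
  have hiK : K ^ 3 ≤ i0 := ((le_max_right _ _).trans (le_max_right _ _)).trans c1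
  have htI : t ≤ I := Nat.le_ceil t
  have hIn : n₁ ≤ I := by
    have h1 : ((n₁ : ℕ) : ℝ) ≤ I := le_trans (by exact_mod_cast ((le_max_left _ _).trans (le_max_left _ _))) (c3.trans htI)
    exact_mod_cast h1
  have hIm : m₂ ≤ I := by
    have h1 : ((m₂ : ℕ) : ℝ) ≤ I := le_trans (by exact_mod_cast ((le_max_right _ _).trans (le_max_left _ _))) (c3.trans htI)
    exact_mod_cast h1
  have hIK : 4 * K + 3 ≤ I := by
    have h1 : ((4 * K + 3 : ℕ) : ℝ) ≤ I := le_trans (by exact_mod_cast (le_max_right _ _)) (c3.trans htI)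
    exact_mod_cast h1
  have hiI : i0 ≤ I := by
    have h1 : (i0 : ℝ) ≤ I := c4.trans htI
    exact_mod_cast h1
  have ht1 : 1 ≤ t := Real.one_le_rpow hH0 (by norm_num)
  have hI2t : (I : ℝ) ≤ 2 * t := by
    have := Nat.ceil_lt_add_one (show 0 ≤ t by linarith)
    linarith
  have ht200 : t ^ 200 = H := by
    rw [ht, ← Real.rpow_natCast, ← Real.rpow_mul (by positivity)]
    norm_num
  have hHI : H ≤ I ^ 200 := by
    have h1 : (H : ℝ) ≤ (I : ℝ) ^ 200 := by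
      rw [← ht200]
      exact pow_le_pow_left₀ (by linarith) htI 200
    exact_mod_cast h1
  -- size of the discriminants
  have hΔ : ∀ b ∈ Icc 1 H, ((b : ℤ) ^ 2 - n).natAbs ≤ K * H ^ 2 := by
    intro b hb
    rw [mem_Icc] at hb
    calc ((b : ℤ) ^ 2 - n).natAbs ≤ ((b : ℤ) ^ 2).natAbs + n.natAbs := Int.natAbs_sub_le _ _
      _ = b ^ 2 + n.natAbs := by rw [Int.natAbs_pow]; rfl
      _ ≤ H ^ 2 + n.natAbs * H ^ 2 := by
          apply add_le_add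
          · exact Nat.pow_le_pow_left hb.2 2
          · exact Nat.le_mul_of_pos_right _ (by positivity)
      _ = K * H ^ 2 := by rw [hK]; ring
  -- powers of two
  have hp1 : (2 ^ i0) ^ 3 ≤ H := by
    rw [← pow_mul]
    calc 2 ^ (i0 * 3) ≤ 2 ^ Nat.log 2 H := Nat.pow_le_pow_right (by norm_num) (Nat.div_mul_le_self _ _)
      _ ≤ H := Nat.pow_log_le_self 2 (by omega)
  have hp2 : H ≤ (2 * 2 ^ i0) ^ 3 := by
    have h1 : H < 2 ^ (Nat.log 2 H + 1) := Nat.lt_pow_succ_log_self (by norm_num) H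
    have h2 : Nat.log 2 H + 1 ≤ 3 * (i0 + 1) := by
      have := Nat.div_add_mod (Nat.log 2 H) 3
      have := Nat.mod_lt (Nat.log 2 H) (show 0 < 3 by norm_num)
      omega
    calc H ≤ 2 ^ (Nat.log 2 H + 1) := h1.le
      _ ≤ 2 ^ (3 * (i0 + 1)) := Nat.pow_le_pow_right (by norm_num) h2
      _ = (2 * 2 ^ i0) ^ 3 := by rw [← pow_succ', ← pow_mul]; ring_nf
  have hi2i : i0 < 2 ^ i0 := Nat.lt_two_pow_self
  have hΔ3 : (K * H ^ 2) ^ 3 ≤ (2 * 2 ^ i0) ^ 19 := by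
    calc (K * H ^ 2) ^ 3 = K ^ 3 * H ^ 6 := by ring
      _ ≤ (2 * 2 ^ i0) * ((2 * 2 ^ i0) ^ 3) ^ 6 := by
          apply Nat.mul_le_mul
          · omega
          · exact Nat.pow_le_pow_left hp2 6
      _ = (2 * 2 ^ i0) ^ 19 := by ring
  have hL : Nat.log 2 (K * H ^ 2) ≤ K + 6 * i0 + 6 := by
    apply Nat.le_of_lt_succ
    apply Nat.log_lt_of_lt_pow'
    · omega
    · calc K * H ^ 2 ≤ 2 ^ K * ((2 * 2 ^ i0) ^ 3) ^ 2 :=
            Nat.mul_le_mul Nat.lt_two_pow_self.le (Nat.pow_le_pow_left hp2 2)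
        _ = 2 ^ (K + 6 * i0 + 6) := by
            rw [← pow_succ', ← pow_mul, ← pow_mul, ← pow_add]; ring_nf
        _ < 2 ^ (K + 6 * i0 + 6 + 1) := Nat.pow_lt_pow_right (by norm_num) (by omega)
  -- the first exceptional set
  set P := (Ioc z (2 ^ i0)).filter Nat.Prime with hP
  have hPp : ∀ p ∈ P, p.Prime ∧ p ≠ 2 ∧ z < p ∧ p ≤ 2 ^ i0 ∧ ¬ (p : ℤ) ∣ n := by
    intro p hp
    rw [hP, mem_filter, mem_Ioc] at hp
    refine ⟨hp.2, by omega, hp.1.1, hp.1.2, ?_⟩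
    intro hd
    have h1 : p ∣ n.natAbs := Int.natCast_dvd.1 hd
    have := Nat.le_of_dvd (Int.natAbs_pos.2 hn) h1
    omega
  have hlow := low_count_b n P z (2 ^ i0) (H + 1) (by omega) hPp (ε / 3) (by positivity)
  set E1 := (range (H + 1)).filter (fun b : ℕ => ε / 3 < |∑ p ∈ P, (jacobiSym ((b : ℤ) ^ 2 - n) p : ℝ) / p|) with hE1
  have hE1c : (#E1 : ℝ) ≤ η / 2 * H := by
    refine hlow.trans ?_
    have h2 : ((2 ^ i0 : ℕ) : ℝ) ^ 2 ≤ H / z := by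
      rw [le_div_iff₀ hz0]
      have h3 : (2 ^ i0) ^ 2 * z ≤ H := by
        calc (2 ^ i0) ^ 2 * z ≤ (2 ^ i0) ^ 2 * 2 ^ i0 := Nat.mul_le_mul_left _ (by omega)
          _ = (2 ^ i0) ^ 3 := by ring
          _ ≤ H := hp1
      exact_mod_cast h3
    have h4 : (90 : ℝ) / (η * ε ^ 2) * (η * ε ^ 2) = 90 := by field_simp
    have h5 : 90 ≤ z * (η * ε ^ 2) := by
      rw [← h4]
      exact mul_le_mul_of_nonneg_right hzε (by positivity)
    have h6 : ((H + 1 : ℕ) : ℝ) / z ≤ 2 * (H / z) := by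
      rw [← mul_div_assoc]
      apply div_le_div_of_nonneg_right _ hz0.le
      push_cast
      linarith
    calc (2 * (((H + 1 : ℕ) : ℝ) / z) + ((2 ^ i0 : ℕ) : ℝ) ^ 2) / (ε / 3) ^ 2 ≤ (4 * (H / z) + H / z) / (ε / 3) ^ 2 := by
          apply div_le_div_of_nonneg_right _ (by positivity)
          linarith
      _ = (45 / (z * ε ^ 2)) * H := by
          field_simp
          ring
      _ ≤ η / 2 * H := by
          apply mul_le_mul_of_nonneg_right _ (by positivity)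
          rw [div_le_iff₀ (by positivity)]
          nlinarith
  -- the second exceptional set
  obtain ⟨E2, hE2c, hE2⟩ := mid_count_b n hn H (K * H ^ 2) i0 I 19 hΔ (by omega) (by norm_num) hΔ3
  have hE2c' : (#E2 : ℝ) ≤ η / 2 * H := by
    refine hE2c.trans ?_
    have hlogt : (Nat.log 2 H : ℝ) ≤ 3 * t + 2 := by
      have h1 : Nat.log 2 H ≤ 3 * i0 + 2 := by omega
      have h2 : (Nat.log 2 H : ℝ) ≤ 3 * (i0 : ℝ) + 2 := by exact_mod_cast h1
      linarith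
    have hnK : (n.natAbs : ℝ) ≤ K := by exact_mod_cast (by omega : n.natAbs ≤ K)
    have h2 : (n.natAbs : ℝ) + (n.natAbs : ℝ) ^ 2 * (2 * (Nat.log 2 H + 1)) ≤ 15 * (K : ℝ) ^ 2 * t := by
      have h3 : (n.natAbs : ℝ) ^ 2 ≤ (K : ℝ) ^ 2 := pow_le_pow_left₀ (by positivity) hnK 2
      have h4 : (2 * ((Nat.log 2 H : ℝ) + 1)) ≤ 12 * t := by linarith
      have h5 : (n.natAbs : ℝ) ^ 2 * (2 * (Nat.log 2 H + 1)) ≤ (K : ℝ) ^ 2 * (12 * t) :=
        mul_le_mul h3 h4 (by positivity) (by positivity)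
      have h6 : (K : ℝ) ≤ (K : ℝ) ^ 2 * t := by
        calc (K : ℝ) ≤ (K : ℝ) ^ 2 := le_self_pow₀ hKr (by norm_num)
          _ = (K : ℝ) ^ 2 * 1 := (mul_one _).symm
          _ ≤ (K : ℝ) ^ 2 * t := mul_le_mul_of_nonneg_left ht1 (by positivity)
      nlinarith
    have h3 : 4 * ((I : ℝ) * (8 * (2 * ((19 : ℕ) : ℝ) * (I : ℝ) ^ 4) ^ 19)) + 1 ≤ 65 * 608 ^ 19 * t ^ 77 := by
      have h4 : (I : ℝ) * (8 * (2 * ((19 : ℕ) : ℝ) * (I : ℝ) ^ 4) ^ 19) ≤ 2 * t * (8 * (2 * 19 * (2 * t) ^ 4) ^ 19) := by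
        push_cast
        gcongr
      have h5 : 4 * (2 * t * (8 * (2 * 19 * (2 * t) ^ 4) ^ 19)) = 64 * 608 ^ 19 * t ^ 77 := by ring
      have h6 : (1 : ℝ) ≤ 608 ^ 19 * t ^ 77 := by
        have h7 : (1 : ℝ) ≤ 608 ^ 19 := by norm_num
        have h8 : (1 : ℝ) ≤ t ^ 77 := one_le_pow₀ ht1
        nlinarith
      linarith
    have h4 : (1950 * (K : ℝ) ^ 2 * 608 ^ 19 / η) * η = 1950 * (K : ℝ) ^ 2 * 608 ^ 19 := by field_simp
    have h5 : 1950 * (K : ℝ) ^ 2 * 608 ^ 19 ≤ t * η := by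
      rw [← h4]
      exact mul_le_mul_of_nonneg_right c2 hη.le
    have h6 : t * t ^ 78 ≤ t ^ 200 := by
      rw [← pow_succ']
      exact pow_le_pow_right₀ ht1 (by norm_num)
    calc (4 * ((I : ℝ) * (8 * (2 * ((19 : ℕ) : ℝ) * (I : ℝ) ^ 4) ^ 19)) + 1) *
          ((n.natAbs : ℝ) + (n.natAbs : ℝ) ^ 2 * (2 * (Nat.log 2 H + 1)))
        ≤ (65 * 608 ^ 19 * t ^ 77) * (15 * (K : ℝ) ^ 2 * t) := mul_le_mul h3 h2 (by positivity) (by positivity)
      _ = (1950 * (K : ℝ) ^ 2 * 608 ^ 19) / 2 * t ^ 78 := by ring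
      _ ≤ (t * η) / 2 * t ^ 78 := by
          apply mul_le_mul_of_nonneg_right _ (by positivity)
          linarith
      _ = η / 2 * (t * t ^ 78) := by ring
      _ ≤ η / 2 * t ^ 200 := mul_le_mul_of_nonneg_left h6 (by positivity)
      _ = η / 2 * H := by rw [ht200]
  refine ⟨E1 ∪ E2, ?_, ?_⟩
  · calc (#(E1 ∪ E2) : ℝ) ≤ #E1 + #E2 := by exact_mod_cast card_union_le _ _
      _ ≤ η * H := by linarith
  · intro b hb hbE
    rw [mem_union, not_or] at hbE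
    obtain ⟨hsq, hmid⟩ := hE2 b hb hbE.2
    refine ⟨hsq, ?_⟩
    set D : ℤ := (b : ℤ) ^ 2 - n with hD
    have hbI := mem_Icc.1 hb
    have b1 : |SJ D z (2 ^ i0)| ≤ ε / 3 := by
      by_contra hcon
      push Not at hcon
      apply hbE.1
      rw [hE1, mem_filter, mem_range]
      exact ⟨by omega, hcon⟩
    have b2 : |SJ D (2 ^ i0) (2 ^ (I + 1))| ≤ ε / 3 := by
      refine (mid_sum D i0 I (Nat.log 2 (K * H ^ 2)) (by positivity) hi2 hiI hmid).trans ?_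
      have h0 := hm₁ i0 him
      have h1 : (Nat.log 2 (K * H ^ 2) : ℝ) ≤ 2 * ((K + 3 * i0 + 3 : ℕ) : ℝ) := by
        exact_mod_cast hL.trans (by omega)
      have hi0r : (2 : ℝ) ≤ i0 := by exact_mod_cast hi2
      have h2 : 0 ≤ 4 / ((i0 : ℝ) - 1) := by
        apply div_nonneg (by norm_num); linarith
      have h3 : 8 * (Nat.log 2 (K * H ^ 2) : ℝ) / 2 ^ i0 ≤ 2 * (8 * ((K + 3 * i0 + 3 : ℕ) : ℝ) / 2 ^ i0) := by
        rw [← mul_div_assoc]
        apply div_le_div_of_nonneg_right _ (by positivity)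
        linarith
      linarith
    have hzi : z ≤ 2 ^ i0 := by omega
    have hII : 2 ^ i0 ≤ 2 ^ (I + 1) := Nat.pow_le_pow_right (by norm_num) (by omega)
    have hIlt : I + 1 < 2 ^ (I + 1) := Nat.lt_two_pow_self
    filter_upwards [eventually_ge_atTop (2 ^ (I + 1))] with N hN
    have b3 : |SJ D (2 ^ (I + 1)) N| ≤ ε / 3 := by
      refine (hn₁ (2 ^ (I + 1)) (by omega) D hsq ?_ N hN).trans (hm₂ (2 ^ (I + 1)) (by omega))
      have h1 : (4 * D.natAbs : ℝ) ≤ 4 * K * (I : ℝ) ^ 400 := by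
        have h2 : 4 * D.natAbs ≤ 4 * K * I ^ 400 := by
          calc 4 * D.natAbs ≤ 4 * (K * H ^ 2) := Nat.mul_le_mul_left 4 (hΔ b hb)
            _ ≤ 4 * (K * (I ^ 200) ^ 2) := Nat.mul_le_mul_left 4 (Nat.mul_le_mul_left K (Nat.pow_le_pow_left hHI 2))
            _ = 4 * K * I ^ 400 := by ring
        exact_mod_cast h2
      have h3 : Real.log ((2 ^ (I + 1) : ℕ) : ℝ) = ((I + 1 : ℕ) : ℝ) * Real.log 2 := by
        push_cast
        rw [Real.log_pow]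
        push_cast
        ring
      rw [h3]
      refine h1.trans ?_
      set y : ℝ := ((I + 1 : ℕ) : ℝ) with hy
      have hy4 : 4 ≤ y := by
        rw [hy]; exact_mod_cast (by omega : 4 ≤ I + 1)
      have hyK : 4 * (K : ℝ) ≤ y := by
        rw [hy]; exact_mod_cast (by omega : 4 * K ≤ I + 1)
      have hyI : (I : ℝ) ≤ y := by rw [hy]; exact_mod_cast (by omega : I ≤ I + 1)
      have h8 : (0.6 : ℝ) < Real.log 2 := by have := Real.log_two_gt_d9; linarith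
      have h4 : y ≤ (y * Real.log 2) ^ 2 := by
        have h5 : y * 0.6 ≤ y * Real.log 2 := mul_le_mul_of_nonneg_left h8.le (by linarith)
        have h6 : (y * 0.6) ^ 2 ≤ (y * Real.log 2) ^ 2 := pow_le_pow_left₀ (by positivity) h5 2
        nlinarith
      calc 4 * (K : ℝ) * (I : ℝ) ^ 400 ≤ y * y ^ 400 := by
            apply mul_le_mul hyK _ (by positivity) (by linarith)
            exact pow_le_pow_left₀ (by positivity) hyI 400
        _ = y ^ 401 := by ring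
        _ ≤ ((y * Real.log 2) ^ 2) ^ 401 := pow_le_pow_left₀ (by linarith) h4 401
        _ = (y * Real.log 2) ^ 802 := by rw [← pow_mul]
    rw [SJ_add D z (2 ^ (I + 1)) N (hzi.trans hII) hN, SJ_add D z (2 ^ i0) (2 ^ (I + 1)) hzi hII]
    refine (abs_add_le _ _).trans ?_
    have h1 := abs_add_le (SJ D z (2 ^ i0)) (SJ D (2 ^ i0) (2 ^ (I + 1)))
    linarith

end Pool.Agent.W218.HF
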