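import Mathlib
import Pool.Agent.W468.ConjFDefs
import Pool.Agent.H373R2.BH.Local

set_option autoImplicit false

/-!
Counting `t ≤ x` for which `a t^2 + b t + c` has no prime factor `≤ z`; admissibility.
-/

namespace Pool.Agent.W218.HF
open Finset Polynomial
open Pool.Agent.W468.ConjF
open Pool.Agent.H373R2.BH (omegaP eulerProduct)

/-- periodic counting, lower bound -/
lemma count_periodic_low (m : ℕ) (hm : 0 < m) (Q : ℕ → Prop) [DecidablePred Q] (hQ : Function.Periodic Q m) (H : ℕ) :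
    (H / m) * #{u ∈ range m | Q u} ≤ #{u ∈ Icc 1 H | Q u} := by
  have h1 : ∀ t, #{u ∈ Ico 1 (1 + t * m) | Q u} = t * #{u ∈ range m | Q u} := by
    intro t
    induction t with
    | zero => simp
    | succ t ih =>
      have h2 : Ico 1 (1 + (t + 1) * m) = Ico 1 (1 + t * m) ∪ Ico (1 + t * m) (1 + t * m + m) := by
        rw [Ico_union_Ico_eq_Ico (by omega) (by omega)]
        congr 1; ring
      rw [h2, filter_union, card_union_of_disjoint, ih, Nat.filter_Ico_card_eq_of_periodic _ _ _ hQ,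
        Nat.count_eq_card_filter_range]
      · ring
      · exact disjoint_filter_filter (Ico_disjoint_Ico_consecutive _ _ _)
  rw [← h1]
  apply card_le_card
  apply filter_subset_filter
  intro u hu
  rw [mem_Ico] at hu
  rw [mem_Icc]
  have := Nat.div_mul_le_self H m
  omega

lemma count_low_real (m : ℕ) (hm : 0 < m) (Q : ℕ → Prop) [DecidablePred Q] (hQ : Function.Periodic Q m) (H : ℕ) :
    ((H : ℝ) - m) * ((#{u ∈ range m | Q u} : ℝ) / m) ≤ (#{u ∈ Icc 1 H | Q u} : ℝ) := by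
  have h1 : ((H / m : ℕ) : ℝ) * (#{u ∈ range m | Q u} : ℝ) ≤ (#{u ∈ Icc 1 H | Q u} : ℝ) := by
    exact_mod_cast count_periodic_low m hm Q hQ H
  refine le_trans ?_ h1
  have hm0 : (0 : ℝ) < m := by exact_mod_cast hm
  have h2 : (H : ℝ) / m - 1 ≤ ((H / m : ℕ) : ℝ) := by
    have h3 := Nat.lt_succ_floor ((H : ℝ) / m)
    rw [Nat.floor_div_eq_div] at h3
    push_cast at h3
    linarith
  have h3 : ((H : ℝ) - m) * ((#{u ∈ range m | Q u} : ℝ) / m) = ((H : ℝ) / m - 1) * (#{u ∈ range m | Q u} : ℝ) := by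
    field_simp
  rw [h3]
  exact mul_le_mul_of_nonneg_right h2 (by positivity)

/-- the coprime integers -/
lemma coprime_count (m x : ℕ) (hm : 0 < m) (hx : 2 * m ≤ x) :
    (Nat.totient m : ℝ) / (2 * m) * x ≤ (#((Icc 1 x).filter (fun t => Nat.Coprime t m)) : ℝ) := by
  have hper : Function.Periodic (fun t => Nat.Coprime t m) m := by
    intro t
    simp only [Nat.coprime_add_self_left]
  have h := count_low_real m hm (fun t => Nat.Coprime t m) hper x
  have h1 : #{u ∈ range m | Nat.Coprime u m} = Nat.totient m := by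
    rw [Nat.totient_eq_card_coprime]
    congr 1
    apply filter_congr
    intro u _
    exact Nat.coprime_comm
  rw [h1] at h
  refine le_trans ?_ h
  have hm0 : (0 : ℝ) < m := by exact_mod_cast hm
  have hx' : (2 : ℝ) * m ≤ x := by exact_mod_cast hx
  have h2 : (Nat.totient m : ℝ) / (2 * m) * x = (x / 2) * ((Nat.totient m : ℝ) / m) := by
    field_simp
  rw [h2]
  apply mul_le_mul_of_nonneg_right _ (by positivity)
  linarith

/-- the primes up to `z` -/
def PS (z : ℕ) : Finset ℕ := (range (z + 1)).filter Nat.Prime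

lemma dvd_mod_iff (a b c : ℤ) (p t : ℕ) :
    (p : ℤ) ∣ a * ((t % p : ℕ) : ℤ) ^ 2 + b * ((t % p : ℕ) : ℤ) + c ↔ (p : ℤ) ∣ a * (t : ℤ) ^ 2 + b * t + c := by
  have e : (t : ℤ) = p * ((t / p : ℕ) : ℤ) + ((t % p : ℕ) : ℤ) := by exact_mod_cast (Nat.div_add_mod t p).symm
  set q : ℤ := ((t / p : ℕ) : ℤ) with hq
  set r : ℤ := ((t % p : ℕ) : ℤ) with hr
  have h1 : a * (t : ℤ) ^ 2 + b * t + c = p * (a * (p * q ^ 2 + 2 * q * r) + b * q) + (a * r ^ 2 + b * r + c) := by
    rw [e]; ring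
  rw [h1]
  exact (dvd_add_right (dvd_mul_right _ _)).symm

open Classical in
/-- rough values of a quadratic polynomial -/
lemma rough_low (a b c : ℤ) (z x : ℕ) :
    ((x : ℝ) - ∏ p ∈ PS z, p) * ∏ p ∈ PS z, (1 - (nr a b c p : ℝ) / p) ≤
      (#((Icc 1 x).filter (fun t : ℕ => ∀ p ∈ PS z, ¬ (p : ℤ) ∣ a * (t : ℤ) ^ 2 + b * t + c)) : ℝ) := by
  have hpr : ∀ p ∈ PS z, p.Prime := fun p hp => (mem_filter.1 hp).2
  set M := ∏ p ∈ PS z, p with hM
  have hM0 : 0 < M := prod_pos fun p hp => (hpr p hp).pos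
  have hper : Function.Periodic (fun t : ℕ => ∀ p ∈ PS z, ¬ (p : ℤ) ∣ a * (t : ℤ) ^ 2 + b * t + c) M := by
    intro t
    simp only [eq_iff_iff]
    apply forall_congr'
    intro p
    apply forall_congr'
    intro hp
    rw [not_iff_not, ← dvd_mod_iff, ← dvd_mod_iff a b c p t]
    have : (t + M) % p = t % p := by
      obtain ⟨k, hk⟩ := dvd_prod_of_mem (fun p => p) hp
      rw [hM, hk, Nat.add_mul_mod_self_left]
    rw [this]
  have h := count_low_real M hM0 _ hper x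
  refine le_trans (le_of_eq ?_) h
  congr 1
  have h1 : #((range M).filter (fun u : ℕ => ∀ p ∈ PS z, ¬ (p : ℤ) ∣ a * (u : ℤ) ^ 2 + b * u + c)) = ∏ p ∈ PS z, (p - nr a b c p) := by
    have h2 := Pool.Agent.H373R2.BH.crt_count (PS z) hpr (fun p r => ¬ (p : ℤ) ∣ a * (r : ℤ) ^ 2 + b * r + c)
    have h3 : #((range M).filter (fun u : ℕ => ∀ p ∈ PS z, ¬ (p : ℤ) ∣ a * (u : ℤ) ^ 2 + b * u + c)) =
        #((range (∏ p ∈ PS z, p)).filter (fun r : ℕ => ∀ p ∈ PS z, ¬ (p : ℤ) ∣ a * ((r % p : ℕ) : ℤ) ^ 2 + b * ((r % p : ℕ) : ℤ) + c)) := by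
      congr 1
      apply filter_congr
      intro u _
      simp only [dvd_mod_iff]
    rw [h3, h2]
    apply prod_congr rfl
    intro p _
    have h4 := card_filter_add_card_filter_not (s := range p) (fun r : ℕ => (p : ℤ) ∣ a * (r : ℤ) ^ 2 + b * r + c)
    rw [card_range] at h4
    unfold nr
    have h5 : #((range p).filter (fun r : ℕ => (p : ℤ) ∣ a * (r : ℤ) ^ 2 + b * r + c)) =
      #((range p).filter (fun r : ℕ => (p : ℤ) ∣ a * (r : ℤ) ^ 2 + b * r + c)) := rfl
    omega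
  rw [h1, hM]
  push_cast
  rw [← prod_div_distrib]
  apply prod_congr rfl
  intro p hp
  have hp0 : (p : ℝ) ≠ 0 := by
    have := (hpr p hp).pos
    positivity
  have hle : nr a b c p ≤ p := by
    unfold nr
    calc _ ≤ #(range p) := card_filter_le _ _
      _ = p := card_range p
  rw [Nat.cast_sub hle]
  field_simp

/-- the cut singular series -/
lemma rough_euler (a b c : ℤ) (h : Admissible a b c) (z : ℕ) (hz : 2 ≤ z) :
    ∏ p ∈ PS z, (1 - (nr a b c p : ℝ) / p) = (∏ p ∈ (Icc 1 z).filter Nat.Prime, (1 - 1 / (p : ℝ))) * (2 * CF a b c z) := by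
  classical
  have h1 := euler_eq a b c h z hz (fun _ => P a b c) (fun _ => rfl)
  rw [← h1]
  have hS : (Icc 1 z).filter Nat.Prime = PS z := by
    unfold PS
    ext p
    simp only [mem_filter, mem_Icc, mem_range]
    constructor
    · rintro ⟨h2, h3⟩; exact ⟨by omega, h3⟩
    · rintro ⟨h2, h3⟩; exact ⟨⟨h3.one_lt.le, by omega⟩, h3⟩
  rw [hS]
  unfold eulerProduct
  rw [show (range (z + 1)).filter Nat.Prime = PS z from rfl, ← prod_mul_distrib]
  apply prod_congr rfl
  intro p hp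
  have hpp : p.Prime := (mem_filter.1 hp).2
  have hp2 : (2 : ℝ) ≤ p := by exact_mod_cast hpp.two_le
  have hne : (1 - 1 / (p : ℝ)) ≠ 0 := by
    have : 1 / (p : ℝ) ≤ 1 / 2 := one_div_le_one_div_of_le (by norm_num) hp2
    linarith
  have hom : omegaP (fun _ : Fin 1 => P a b c) p = nr a b c p := by
    unfold omegaP nr
    congr 1
    apply filter_congr
    intro r _
    simp only [eval_P, exists_const]
  rw [hom, pow_one, ← mul_assoc, mul_inv_cancel₀ hne, one_mul]

/-- a prime value forces admissibility -/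
lemma adm_of_prime (a b t : ℕ) (c : ℤ) (ha : 1 ≤ a) (ht : 1 ≤ t) (hc : c ≠ 0) (hb : 2 * |c| < b)
    (hp : ((a : ℤ) * t ^ 2 + b * t + c).toNat.Prime) (hsq : ¬ IsSquare ((b : ℤ) ^ 2 - 4 * a * c)) :
    Admissible a b c := by
  set v : ℤ := (a : ℤ) * t ^ 2 + b * t + c with hv
  have ht' : (1 : ℤ) ≤ t := by exact_mod_cast ht
  have ha' : (1 : ℤ) ≤ a := by exact_mod_cast ha
  have hc1 : 1 ≤ |c| := Int.one_le_abs hc
  have hc2 := neg_abs_le c
  have hvc : |c| < v := by
    have h1 : (b : ℤ) * 1 ≤ b * t := mul_le_mul_of_nonneg_left ht' (by positivity)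
    have h2 : (0 : ℤ) ≤ (a : ℤ) * t ^ 2 := by positivity
    rw [hv]; linarith
  have hv0 : (v.toNat : ℤ) = v := Int.toNat_of_nonneg (by linarith)
  refine ⟨by linarith, ?_, ?_, hsq⟩
  · intro d h1 h2 h3
    have h4 : d ∣ v := by
      rw [hv]
      exact dvd_add (dvd_add (Dvd.dvd.mul_right h1 _) (Dvd.dvd.mul_right h2 _)) h3
    rw [← hv0] at h4
    have h5 : d.natAbs ∣ v.toNat := by
      have := Int.natAbs_dvd_natAbs.2 h4
      rwa [Int.natAbs_natCast] at this
    rcases (Nat.dvd_prime hp).1 h5 with h6 | h6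
    · exact Int.isUnit_iff_natAbs_eq.2 h6
    · exfalso
      have h7 : |d| ≤ |c| := Int.le_of_dvd (by linarith) ((abs_dvd_abs _ _).2 h3)
      have h8 : |d| = v := by rw [← hv0, ← h6]; exact (Int.natCast_natAbs d).symm
      linarith
  · rintro ⟨h1, h2⟩
    have h3 : (2 : ℤ) ∣ v := by
      have h5 : v = ((a : ℤ) + b) * t + c + a * ((t : ℤ) ^ 2 - t) := by rw [hv]; ring
      rw [h5]
      refine dvd_add (dvd_add (Dvd.dvd.mul_right h1 _) h2) (Dvd.dvd.mul_left ?_ _)
      have h6 : (t : ℤ) ^ 2 - t = t * (t - 1) := by ring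
      rw [h6]
      rcases Int.even_or_odd (t : ℤ) with ⟨k, hk⟩ | ⟨k, hk⟩
      · exact Dvd.dvd.mul_right ⟨k, by rw [hk]; ring⟩ _
      · exact Dvd.dvd.mul_left ⟨k, by rw [hk]; ring⟩ _
    rw [← hv0] at h3
    have h4 : 2 ∣ v.toNat := by exact_mod_cast h3
    have h5 := (Nat.prime_dvd_prime_iff_eq Nat.prime_two hp).1 h4
    have h6 : v = 2 := by rw [← hv0, ← h5]; rfl
    have h7 : (2 : ℤ) ≤ |c| := Int.le_of_dvd (by linarith) ((dvd_abs _ _).2 h2)
    linarith

end Pool.Agent.W218.HF
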