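import Mathlib
import Pool.Agent.W218.HF.Main
import Pool.Agent.W218.HF.QMost
import Pool.Agent.W218.HF.QRough

set_option autoImplicit false

/-!
Conjecture F on average over the middle coefficient, with the full constant.
-/

namespace Pool.Agent.W218.HF
open Finset Filter Topology
open Pool.Agent.W468.ConjF

open Classical in
theorem main_full : ∃ K : ℕ, ∀ (a : ℕ) (c : ℤ), 1 ≤ a → c ≠ 0 → ∀ θ : ℝ, θ < 1 → ∃ κ : ℝ, 0 < κ ∧ ∃ B0 : ℕ,
    ∀ B : ℕ, B0 ≤ B → ∀ x : ℕ, Real.log B ≤ x → x * Real.log B ^ K ≤ B →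
    κ * B ≤ ((((Icc 1 B).filter (fun b : ℕ => Admissible a b c ∧ ∃ C : ℝ, 0 < C ∧
      Tendsto (fun z => CF a b c z) atTop (𝓝 C) ∧
      θ * (2 * C) * x / Real.log (B * x) ≤ piF a b c x ∧
      κ * x / Real.log B ≤ piF a b c x)).card : ℕ) : ℝ) := by
  obtain ⟨K, hK⟩ := main1
  refine ⟨K + 1, fun a c ha hc θ hθ => ?_⟩
  have hcn : 0 < c.natAbs := Int.natAbs_pos.2 hc
  have hcr : (0 : ℝ) < c.natAbs := by exact_mod_cast hcn
  have hφ : 0 < Nat.totient c.natAbs := Nat.totient_pos.2 hcn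
  have hφr : (0 : ℝ) < Nat.totient c.natAbs := by exact_mod_cast hφ
  set δ : ℝ := (Nat.totient c.natAbs : ℝ) / (2 * c.natAbs) with hδ
  have hδ0 : 0 < δ := by rw [hδ]; positivity
  have hδφ : δ * c.natAbs ≤ Nat.totient c.natAbs := by
    have h1 : δ * c.natAbs = (Nat.totient c.natAbs : ℝ) / 2 := by
      rw [hδ]; field_simp
    rw [h1]; linarith
  -- the constants
  set θ₀ : ℝ := max θ (1 / 2) with hθ₀
  have hθ0 : 1 / 2 ≤ θ₀ := le_max_right _ _
  have hθ1 : θ₀ < 1 := max_lt hθ (by norm_num)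
  have hθθ : θ ≤ θ₀ := le_max_left _ _
  set θ₁ : ℝ := (1 + θ₀) / 2 with hθ₁
  have hθ₁1 : θ₁ < 1 := by rw [hθ₁]; linarith
  have hθ₀₁ : θ₀ < θ₁ := by rw [hθ₁]; linarith
  set r : ℝ := θ₁ / θ₀ with hr
  have hr1 : 1 < r := by rw [hr, one_lt_div (by linarith)]; exact hθ₀₁
  set ε : ℝ := Real.log r / 4 with hε
  have hlr : 0 < Real.log r := Real.log_pos hr1
  have hε0 : 0 < ε := by rw [hε]; positivity
  have hexp4 : Real.exp (2 * ε) * Real.exp (2 * ε) = r := by
    rw [← Real.exp_add]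
    have : 2 * ε + 2 * ε = Real.log r := by rw [hε]; ring
    rw [this, Real.exp_log (by linarith)]
  have hexp1 : 1 < Real.exp (2 * ε) := by
    rw [Real.one_lt_exp_iff]; positivity
  obtain ⟨η, hη, hmain⟩ := hK δ hδ0 θ₁ hθ₁1
  set n : ℤ := 4 * a * c with hn
  have hn0 : n ≠ 0 := by
    rw [hn]
    have : (a : ℤ) ≠ 0 := by exact_mod_cast (by omega : a ≠ 0)
    positivity
  obtain ⟨z₀, hz₀⟩ := good_most_b n hn0 ε (η / 4) hε0 (by positivity)
  -- the sieving limit
  set z : ℕ := max (max z₀ 2) (max (max a c.natAbs) ⌈1 / ε⌉₊) with hz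
  have hzz₀ : z₀ ≤ z := (le_max_left _ _).trans (le_max_left _ _)
  have hz2 : 2 ≤ z := (le_max_right _ _).trans (le_max_left _ _)
  have hza : a ≤ z := ((le_max_left _ _).trans (le_max_left _ _)).trans (le_max_right _ _)
  have hzc : c.natAbs ≤ z := ((le_max_right _ _).trans (le_max_left _ _)).trans (le_max_right _ _)
  have hzε : 1 / ε ≤ z := (Nat.le_ceil _).trans (by exact_mod_cast (le_max_right _ _).trans (le_max_right _ _))
  have hz0 : (0 : ℝ) < z := by exact_mod_cast (by omega : 0 < z)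
  have hzε' : 1 / (z : ℝ) ≤ ε := by
    rw [div_le_iff₀ hz0]
    rw [div_le_iff₀ hε0] at hzε
    linarith
  obtain ⟨B₁, hB₁⟩ := hmain z
  obtain ⟨H₀, hH₀⟩ := hz₀ z hzz₀
  set M : ℝ := ((∏ p ∈ PS z, p : ℕ) : ℝ) with hM
  have hM0 : 0 ≤ M := by rw [hM]; positivity
  set X₀ : ℝ := max (max a (2 * c.natAbs)) (max 1 (M * Real.exp (2 * ε) / (Real.exp (2 * ε) - 1))) with hX₀
  have hev : ∀ᶠ B : ℕ in atTop, X₀ ≤ Real.log B ∧ 8 * (c.natAbs : ℝ) / η ≤ B := by
    have h1 : Tendsto (fun n : ℕ => Real.log n) atTop atTop := Real.tendsto_log_atTop.comp tendsto_natCast_atTop_atTop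
    exact (h1.eventually_ge_atTop X₀).and (tendsto_natCast_atTop_atTop.eventually_ge_atTop _)
  obtain ⟨B₂, hB₂⟩ := eventually_atTop.1 hev
  refine ⟨η / 2, by positivity, max (max B₁ H₀) (max B₂ (c.natAbs + 1)), fun B hB x hx1 hx2 => ?_⟩
  have hBB₁ : B₁ ≤ B := ((le_max_left _ _).trans (le_max_left _ _)).trans hB
  have hBH : H₀ ≤ B := ((le_max_right _ _).trans (le_max_left _ _)).trans hB
  have hBB₂ : B₂ ≤ B := ((le_max_left _ _).trans (le_max_right _ _)).trans hB
  have hBc : c.natAbs + 1 ≤ B := ((le_max_right _ _).trans (le_max_right _ _)).trans hB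
  obtain ⟨hlX, hBη⟩ := hB₂ B hBB₂
  have hX1 : 1 ≤ X₀ := (le_max_left _ _).trans (le_max_right _ _)
  have hXa : (a : ℝ) ≤ X₀ := (le_max_left _ _).trans (le_max_left _ _)
  have hXc : 2 * (c.natAbs : ℝ) ≤ X₀ := (le_max_right _ _).trans (le_max_left _ _)
  have hXM : M * Real.exp (2 * ε) / (Real.exp (2 * ε) - 1) ≤ X₀ := (le_max_right _ _).trans (le_max_right _ _)
  set L : ℝ := Real.log B with hL
  have hL1 : 1 ≤ L := hX1.trans hlX
  have hxL : L ≤ x := hx1
  have hx0 : (0 : ℝ) ≤ x := by positivity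
  have hx1' : (1 : ℝ) ≤ x := hL1.trans hxL
  have hB1 : (1 : ℝ) ≤ B := by exact_mod_cast (by omega : 1 ≤ B)
  have hLK : 1 ≤ L ^ K := one_le_pow₀ hL1
  -- the two size conditions
  have hc1 : x * L ^ K ≤ B := by
    refine le_trans ?_ hx2
    rw [pow_succ]
    have : L ^ K * 1 ≤ L ^ K * L := mul_le_mul_of_nonneg_left hL1 (by positivity)
    exact mul_le_mul_of_nonneg_left (by linarith) hx0
  have hc2 : a * x ≤ B := by
    have h1 : (a : ℝ) * x ≤ B := by
      calc (a : ℝ) * x ≤ L * x := mul_le_mul_of_nonneg_right (hXa.trans hlX) hx0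
        _ = x * (1 * L) := by ring
        _ ≤ x * (L ^ K * L) := mul_le_mul_of_nonneg_left (mul_le_mul_of_nonneg_right hLK (by linarith)) hx0
        _ = x * L ^ (K + 1) := by rw [pow_succ]
        _ ≤ B := hx2
    exact_mod_cast h1
  set T := (Icc 1 x).filter (fun t => Nat.Coprime t c.natAbs) with hT
  have hTsub : T ⊆ Icc 1 x := filter_subset _ _
  have hTc : ∀ t ∈ T, Nat.Coprime t c.natAbs := fun t ht => (mem_filter.1 ht).2
  have hx2c : 2 * c.natAbs ≤ x := by
    have : (2 : ℝ) * c.natAbs ≤ x := (hXc.trans hlX).trans hxL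
    exact_mod_cast this
  have hTcard : δ * x ≤ T.card := coprime_count c.natAbs x hcn hx2c
  have hA := hB₁ B hBB₁ x a c T ha hc (by omega) hδφ hx1 hc1 hc2 hTsub hTc hTcard
  obtain ⟨E, hEc, hE⟩ := hH₀ B hBH
  set A := (Icc 1 B).filter (fun b : ℕ =>
      θ₁ * (unsieved z a b c T / Wz z) / Real.log (B * x) ≤ numP a b c T ∧
      η * x / Real.log B ≤ numP a b c T) with hAdef
  set S₀ := Icc 1 (2 * c.natAbs) with hS₀
  have hS₀c : (#S₀ : ℝ) ≤ η / 4 * B := by
    rw [hS₀, Nat.card_Icc, Nat.add_sub_cancel]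
    push_cast
    have : 8 * (c.natAbs : ℝ) ≤ B * η := by rwa [div_le_iff₀ hη] at hBη
    linarith
  have hcount : η / 2 * B ≤ (#(A \ (E ∪ S₀)) : ℝ) := by
    have h1 : #A ≤ #(A \ (E ∪ S₀)) + #(E ∪ S₀) := by
      have := card_le_card_sdiff_add_card (s := A) (t := E ∪ S₀)
      exact this
    have h2 : (#A : ℝ) ≤ #(A \ (E ∪ S₀)) + (#E + #S₀) := by
      exact_mod_cast h1.trans (Nat.add_le_add_left (card_union_le _ _) _)
    linarith
  refine hcount.trans ?_
  apply Nat.cast_le.2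
  apply card_le_card
  intro b hb
  rw [Finset.mem_sdiff, mem_union, not_or] at hb
  obtain ⟨hbA, hbE, hbS⟩ := hb
  rw [hAdef, mem_filter] at hbA
  obtain ⟨hbI, hmain1, hmain2⟩ := hbA
  have hbI' := mem_Icc.1 hbI
  obtain ⟨hsq, hSJ⟩ := hE b hbI hbE
  have hbc : 2 * c.natAbs < b := by
    rw [hS₀, mem_Icc, not_and, not_le] at hbS
    exact hbS hbI'.1
  have hbc' : 2 * |c| < (b : ℤ) := by
    rw [← Int.natCast_natAbs]; exact_mod_cast hbc
  -- a prime value
  have hpos : 0 < numP a b c T := by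
    have h1 : 0 < η * x / L := by positivity
    have h2 : (0 : ℝ) < numP a b c T := lt_of_lt_of_le h1 hmain2
    exact_mod_cast h2
  unfold numP at hpos
  obtain ⟨t, ht⟩ := card_pos.1 hpos
  rw [mem_filter] at ht
  have ht1 : 1 ≤ t := (mem_Icc.1 (hTsub ht.1)).1
  have hadm : Admissible a b c := by
    have hsq' : ¬ IsSquare ((b : ℤ) ^ 2 - 4 * a * c) := by rw [← hn]; exact hsq
    exact adm_of_prime a b t c ha ht1 hc hbc' ht.2 hsq'
  rw [mem_filter]
  refine ⟨hbI, hadm, ?_⟩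
  have ha0 : (0 : ℤ) < a := by exact_mod_cast (by omega : 0 < a)
  obtain ⟨C, hC0, hC⟩ := CF_tendsto a b c ha0 (by rw [← hn]; exact hsq)
  have hCle : C ≤ CF a b c z * Real.exp (2 * ε) := by
    have h1 := CF_limit_le a b c ha0 C hC z hz2 (by exact_mod_cast hza) ε (by rw [← hn]; exact hSJ)
    refine h1.trans (mul_le_mul_of_nonneg_left (Real.exp_le_exp.2 (by linarith)) (CF_pos _ _ _ _).le)
  -- comparison of counts
  have hpi : (numP a b c T : ℝ) ≤ piF a b c x := by
    have : numP a b c T ≤ piF a b c x := by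
      unfold numP piF
      apply card_le_card
      intro s hs
      rw [mem_filter] at hs ⊢
      refine ⟨hTsub hs.1, ?_⟩
      have := hs.2
      push_cast
      exact this
    exact_mod_cast this
  have hWz : 0 < Wz z := by
    unfold Wz
    apply prod_pos
    intro p hp
    have hp2 : (2 : ℝ) ≤ p := by exact_mod_cast (mem_filter.1 hp).2.two_le
    have : 1 / (p : ℝ) ≤ 1 / 2 := one_div_le_one_div_of_le (by norm_num) hp2
    linarith
  have hCF0 := CF_pos a b c z
  have hun : ((x : ℝ) - M) * (2 * CF a b c z) ≤ unsieved z a b c T / Wz z := by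
    rw [le_div_iff₀ hWz]
    have h1 := rough_low a b c z x
    rw [rough_euler a b c hadm z hz2] at h1
    have h2 : (#((Icc 1 x).filter (fun t : ℕ => ∀ p ∈ PS z, ¬ (p : ℤ) ∣ (a : ℤ) * (t : ℤ) ^ 2 + (b : ℤ) * t + c)) : ℝ) ≤
        unsieved z a b c T := by
      have : #((Icc 1 x).filter (fun t : ℕ => ∀ p ∈ PS z, ¬ (p : ℤ) ∣ (a : ℤ) * (t : ℤ) ^ 2 + (b : ℤ) * t + c)) ≤
          unsieved z a b c T := by
        unfold unsieved
        apply card_le_card
        intro s hs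
        rw [mem_filter] at hs ⊢
        have hall : ∀ p ≤ z, p.Prime → ¬ ((p : ℤ) ∣ (a : ℤ) * s ^ 2 + b * s + c) := by
          intro p hpz hpp
          exact hs.2 p (by unfold PS; rw [mem_filter, mem_range]; exact ⟨by omega, hpp⟩)
        refine ⟨?_, hall⟩
        rw [hT, mem_filter]
        refine ⟨hs.1, ?_⟩
        by_contra hcop
        obtain ⟨p, hpp, h3, h4⟩ := Nat.Prime.not_coprime_iff_dvd.1 hcop
        have hpz : p ≤ z := (Nat.le_of_dvd hcn h4).trans hzc
        apply hall p hpz hpp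
        have h5 : (p : ℤ) ∣ (s : ℤ) := by exact_mod_cast h3
        have h6 : (p : ℤ) ∣ c := Int.natCast_dvd.2 h4
        exact dvd_add (dvd_add (Dvd.dvd.mul_left (Dvd.dvd.pow h5 (by norm_num)) _) (Dvd.dvd.mul_left h5 _)) h6
      exact_mod_cast this
    calc ((x : ℝ) - M) * (2 * CF a b c z) * Wz z
        = ((x : ℝ) - ∏ p ∈ PS z, (p : ℝ)) * ((∏ p ∈ (Icc 1 z).filter Nat.Prime, (1 - 1 / (p : ℝ))) * (2 * CF a b c z)) := by
          unfold Wz; rw [hM]; push_cast; ring
      _ ≤ _ := by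
          refine le_trans (le_of_eq ?_) (h1.trans h2)
          push_cast
          rfl
  have hlogBx : 0 < Real.log (B * x) := by
    apply Real.log_pos
    have h1 : 1 < (B : ℝ) := by
      by_contra hcon
      push Not at hcon
      have := Real.log_nonpos (by positivity) hcon
      linarith
    nlinarith
  have hxM : (x : ℝ) ≤ (x - M) * Real.exp (2 * ε) := by
    have h1 : M * Real.exp (2 * ε) / (Real.exp (2 * ε) - 1) ≤ x := (hXM.trans hlX).trans hxL
    rw [div_le_iff₀ (by linarith)] at h1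
    linarith
  refine ⟨C, hC0, hC, ?_, ?_⟩
  · refine le_trans ?_ (hmain1.trans hpi)
    apply div_le_div_of_nonneg_right _ hlogBx.le
    have hxM0 : 0 ≤ (x : ℝ) - M := by
      by_contra hcon
      push Not at hcon
      have := mul_neg_of_neg_of_pos hcon (Real.exp_pos (2 * ε))
      linarith
    calc θ * (2 * C) * x ≤ θ₀ * (2 * C) * x := by
          apply mul_le_mul_of_nonneg_right _ hx0
          exact mul_le_mul_of_nonneg_right hθθ (by positivity)
      _ ≤ θ₀ * (2 * (CF a b c z * Real.exp (2 * ε))) * ((x - M) * Real.exp (2 * ε)) := by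
          apply mul_le_mul _ hxM hx0 (by positivity)
          exact mul_le_mul_of_nonneg_left (by linarith) (by linarith)
      _ = (θ₀ * (Real.exp (2 * ε) * Real.exp (2 * ε))) * ((x - M) * (2 * CF a b c z)) := by ring
      _ = θ₁ * ((x - M) * (2 * CF a b c z)) := by
          rw [hexp4, hr]
          congr 1
          field_simp
      _ ≤ θ₁ * (unsieved z a b c T / Wz z) := mul_le_mul_of_nonneg_left hun (by linarith)
  · refine le_trans ?_ (hmain2.trans hpi)
    apply div_le_div_of_nonneg_right _ (by linarith)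
    apply mul_le_mul_of_nonneg_right _ hx0
    linarith

end Pool.Agent.W218.HF
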