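import Mathlib
import Pool.Agent.W218.HF.QMain

set_option autoImplicit false

/-!
Conjecture F on average over the middle coefficient, in the notation of the problem.
-/

namespace Pool.Agent.W218.HF.QFinal
open Finset Filter Topology
open Pool.Agent.W468.ConjF (Admissible piF CF)

/-- `ε` -/
noncomputable def eps (a b : ℤ) : ℝ := if (2 : ℤ) ∣ a + b then 2 else 1

/-- the product over the odd primes dividing `a` and `b` -/
noncomputable def gcdProd (a b : ℤ) : ℝ :=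
  ∏ p ∈ (Int.gcd a b).primeFactors.filter (fun p => 2 < p), (p : ℝ) / (p - 1)

/-- the product over `2 < p ≤ z`, `p ∤ a` -/
noncomputable def cutC (a b c : ℤ) (z : ℕ) : ℝ :=
  ∏ p ∈ (Icc 3 z).filter (fun p : ℕ => p.Prime ∧ ¬ (p : ℤ) ∣ a), (1 - (jacobiSym (b ^ 2 - 4 * a * c) p : ℝ) / (p - 1))

lemma CF_eq (a b c : ℤ) (ha : 0 < a) (z : ℕ) (hz : a ≤ z) :
    2 * CF a b c z = eps a b * gcdProd a b * cutC a b c z := by
  unfold CF eps gcdProd cutC
  have e1 : (range (z + 1)).filter (fun p : ℕ => p.Prime ∧ 3 ≤ p ∧ (p : ℤ) ∣ a ∧ (p : ℤ) ∣ b) =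
      (Int.gcd a b).primeFactors.filter (fun p => 2 < p) := by
    ext p
    simp only [mem_filter, mem_range, Nat.mem_primeFactors]
    have hg : Int.gcd a b ≠ 0 := by
      intro h
      have := (Int.gcd_eq_zero_iff.1 h).1
      omega
    constructor
    · rintro ⟨-, h1, h2, h3, h4⟩
      refine ⟨⟨h1, ?_, hg⟩, by omega⟩
      have := Int.dvd_coe_gcd h3 h4
      exact_mod_cast this
    · rintro ⟨⟨h1, h2, -⟩, h3⟩
      have h4 : (p : ℤ) ∣ (Int.gcd a b : ℤ) := by exact_mod_cast h2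
      have h5 : (p : ℤ) ∣ a := h4.trans (Int.gcd_dvd_left _ _)
      have h6 : (p : ℤ) ∣ b := h4.trans (Int.gcd_dvd_right _ _)
      have h7 := Int.le_of_dvd ha h5
      exact ⟨by omega, h1, by omega, h5, h6⟩
  have e2 : (range (z + 1)).filter (fun p : ℕ => p.Prime ∧ 3 ≤ p ∧ ¬ (p : ℤ) ∣ a) =
      (Icc 3 z).filter (fun p : ℕ => p.Prime ∧ ¬ (p : ℤ) ∣ a) := by
    ext p
    simp only [mem_filter, mem_range, mem_Icc]
    constructor
    · rintro ⟨h0, h1, h2, h3⟩; exact ⟨⟨h2, by omega⟩, h1, h3⟩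
    · rintro ⟨⟨h0, h1⟩, h2, h3⟩; exact ⟨by omega, h2, h0, h3⟩
  rw [e1, e2]
  split_ifs
  · ring
  · ring

lemma gcdProd_pos (a b : ℤ) : 0 < gcdProd a b := by
  unfold gcdProd
  apply prod_pos
  intro p hp
  have : (2 : ℝ) < p := by exact_mod_cast (mem_filter.1 hp).2
  apply div_pos <;> linarith

lemma eps_pos (a b : ℤ) : 0 < eps a b := by
  unfold eps; split_ifs <;> norm_num

theorem final : ∃ K : ℕ, ∀ (a : ℕ) (c : ℤ), 1 ≤ a → c ≠ 0 → ∀ θ : ℝ, θ < 1 → ∃ κ : ℝ, 0 < κ ∧ ∃ B0 : ℕ,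
    ∀ B : ℕ, B0 ≤ B → ∀ x : ℕ, Real.log B ≤ x → x * Real.log B ^ K ≤ B →
    ∃ S : Finset ℕ, S ⊆ Icc 1 B ∧ κ * B ≤ S.card ∧ ∀ b ∈ S, Admissible a b c ∧ ∃ C : ℝ, 0 < C ∧
      Tendsto (fun z => cutC a b c z) atTop (𝓝 C) ∧
      θ * (eps a b * C * gcdProd a b) * x / Real.log (B * x) ≤ piF a b c x ∧
      κ * x / Real.log B ≤ piF a b c x := by
  classical
  obtain ⟨K, hK⟩ := main_full
  refine ⟨K, fun a c ha hc θ hθ => ?_⟩
  obtain ⟨κ, hκ, B0, hB0⟩ := hK a c ha hc θ hθ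
  refine ⟨κ, hκ, B0, fun B hB x h1 h2 => ⟨_, filter_subset _ _, hB0 B hB x h1 h2, ?_⟩⟩
  intro b hb
  rw [mem_filter] at hb
  obtain ⟨-, hadm, C, hC0, hC, h3, h4⟩ := hb
  have ha0 : (0 : ℤ) < a := by exact_mod_cast (by omega : 0 < a)
  have hg := gcdProd_pos a b
  have he := eps_pos a b
  have hne : eps a b * gcdProd a b ≠ 0 := by positivity
  refine ⟨hadm, 2 * C / (eps a b * gcdProd a b), by positivity, ?_, ?_, h4⟩
  · have h5 : Tendsto (fun z => 2 * CF a b c z / (eps a b * gcdProd a b)) atTop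
        (𝓝 (2 * C / (eps a b * gcdProd a b))) := (hC.const_mul 2).div_const _
    refine h5.congr' ?_
    filter_upwards [eventually_ge_atTop a] with z hz
    rw [CF_eq a b c ha0 z (by exact_mod_cast hz)]
    field_simp
  · refine le_trans (le_of_eq ?_) h3
    have : eps a b * (2 * C / (eps a b * gcdProd a b)) * gcdProd a b = 2 * C := by
      field_simp
    rw [this]

end Pool.Agent.W218.HF.QFinal
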